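import Mathlib

/-!
# A Liouville number with widely separated scales
-/

namespace Pool.Agent.E8helper72.LW

open Finset Filter

/-- the denominators -/
def Qn : ℕ → ℕ
  | 0 => 2
  | n + 1 => Qn n * (2 ^ (Qn n ^ 2)) ^ 60

/-- the ratios of the scales are `Mn n ^ 60` -/
def Mn (n : ℕ) : ℕ := 2 ^ (Qn n ^ 2)

/-- the numerators -/
def Pn : ℕ → ℕ
  | 0 => 1
  | n + 1 => Pn n * (Mn n) ^ 60 + 1

theorem Qn_succ (n : ℕ) : Qn (n + 1) = Qn n * Mn n ^ 60 := rfl

theorem Qn_pos (n : ℕ) : 0 < Qn n := by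
  induction n with
  | zero => norm_num [Qn]
  | succ n ih =>
    rw [Qn_succ]
    exact Nat.mul_pos ih (Nat.pow_pos (Nat.pow_pos (by norm_num)))

theorem Mn_pos (n : ℕ) : 0 < Mn n := Nat.pow_pos (by norm_num)

theorem Mn_two (n : ℕ) : 2 ≤ Mn n := by
  have h : 1 ≤ Qn n ^ 2 := Nat.one_le_pow _ _ (Qn_pos n)
  calc 2 = 2 ^ 1 := (pow_one 2).symm
    _ ≤ _ := Nat.pow_le_pow_right (by norm_num) h

theorem Qn_lower (n : ℕ) : n + 2 ≤ Qn n := by
  induction n with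
  | zero => norm_num [Qn]
  | succ n ih =>
    rw [Qn_succ]
    have h1 : 2 ≤ Mn n ^ 60 := by
      calc 2 ≤ Mn n := Mn_two n
        _ = Mn n ^ 1 := (pow_one _).symm
        _ ≤ Mn n ^ 60 := Nat.pow_le_pow_right (Mn_pos n) (by norm_num)
    nlinarith

theorem Mn_lower (n : ℕ) : 2 ^ n ≤ Mn n := by
  apply Nat.pow_le_pow_right (by norm_num)
  have := Qn_lower n
  nlinarith

theorem Qn_pow_two (n : ℕ) : ∃ s, Qn n = 2 ^ s := by
  induction n with
  | zero => exact ⟨1, rfl⟩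
  | succ n ih =>
    obtain ⟨s, hs⟩ := ih
    refine ⟨s + Qn n ^ 2 * 60, ?_⟩
    rw [Qn_succ, hs, pow_add, Mn, ← pow_mul, hs]

theorem coprime_PQ (n : ℕ) : Nat.Coprime (Pn n) (Qn n) := by
  obtain ⟨s, hs⟩ := Qn_pow_two n
  rw [hs]
  apply Nat.Coprime.pow_right
  rw [Nat.coprime_two_right]
  rcases n with _ | n
  · exact odd_one
  · have h : Even (Mn n ^ 60) := by
      rw [Nat.even_pow' (by norm_num)]
      unfold Mn
      rw [Nat.even_pow' (by have := Qn_pos n; positivity)]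
      exact even_two
    exact (h.mul_left (Pn n)).add_one

/-- partial sums -/
noncomputable def An (n : ℕ) : ℝ := (Pn n : ℝ) / Qn n

theorem An_succ (n : ℕ) : An (n + 1) = An n + 1 / Qn (n + 1) := by
  unfold An
  have h1 : (Qn n : ℝ) ≠ 0 := by exact_mod_cast (Qn_pos n).ne'
  have h2 : (Mn n : ℝ) ≠ 0 := by exact_mod_cast (Mn_pos n).ne'
  rw [Qn_succ]
  simp only [Pn]
  push_cast
  field_simp

theorem An_mono : Monotone An := by
  apply monotone_nat_of_le_succ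
  intro n
  rw [An_succ]
  have : (0 : ℝ) ≤ 1 / Qn (n + 1) := by positivity
  linarith

theorem Qn_ratio (n : ℕ) : 2 * (Qn n : ℝ) ≤ Qn (n + 1) := by
  have h1 : 2 ≤ Mn n ^ 60 := by
    calc 2 ≤ Mn n := Mn_two n
      _ = Mn n ^ 1 := (pow_one _).symm
      _ ≤ Mn n ^ 60 := Nat.pow_le_pow_right (Mn_pos n) (by norm_num)
  have h2 : 2 * Qn n ≤ Qn (n + 1) := by
    rw [Qn_succ]
    nlinarith [Qn_pos n]
  exact_mod_cast h2

theorem An_upper (n m : ℕ) (h : n ≤ m) : An m + 2 / Qn (m + 1) ≤ An n + 2 / Qn (n + 1) := by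
  induction m, h using Nat.le_induction with
  | base => exact le_rfl
  | succ m _ ih =>
    refine le_trans ?_ ih
    rw [An_succ]
    have h1 := Qn_ratio (m + 1)
    have h2 : (0 : ℝ) < Qn (m + 1) := by exact_mod_cast Qn_pos _
    have h3 : (0 : ℝ) < Qn (m + 1 + 1) := by exact_mod_cast Qn_pos _
    have h4 : (2 : ℝ) / Qn (m + 1 + 1) ≤ 1 / Qn (m + 1) := by
      rw [div_le_div_iff₀ h3 h2]
      linarith
    have e : (2 : ℝ) / Qn (m + 1) = 1 / Qn (m + 1) + 1 / Qn (m + 1) := by ring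
    linarith

/-- the number `α` -/
noncomputable def alpha : ℝ := ⨆ n, An n

theorem An_bdd : BddAbove (Set.range An) := by
  refine ⟨An 0 + 2 / Qn (0 + 1), ?_⟩
  rintro _ ⟨m, rfl⟩
  have h1 := An_upper 0 m (Nat.zero_le _)
  have : (0 : ℝ) ≤ 2 / Qn (m + 1) := by positivity
  linarith

theorem alpha_lower (n : ℕ) : An n + 1 / Qn (n + 1) ≤ alpha := by
  rw [← An_succ]
  exact le_ciSup An_bdd (n + 1)

theorem alpha_upper (n : ℕ) : alpha ≤ An n + 2 / Qn (n + 1) := by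
  apply ciSup_le
  intro m
  rcases le_total n m with h | h
  · have h1 := An_upper n m h
    have : (0 : ℝ) ≤ 2 / Qn (m + 1) := by positivity
    linarith
  · have h1 := An_mono h
    have : (0 : ℝ) ≤ 2 / Qn (n + 1) := by positivity
    linarith

theorem alpha_eq (n : ℕ) : ∃ δ : ℝ, alpha = Pn n / Qn n + δ ∧ 0 ≤ δ ∧
    1 ≤ Qn n * δ * (Mn n : ℝ) ^ 60 ∧ Qn n * δ * (Mn n : ℝ) ^ 60 ≤ 2 ∧
    1 / (Qn (n + 1) : ℝ) ≤ δ ∧ δ ≤ 2 / Qn (n + 1) := by
  have h1 := alpha_lower n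
  have h2 := alpha_upper n
  unfold An at h1 h2
  have hQ : (0 : ℝ) < Qn n := by exact_mod_cast Qn_pos n
  have hM : (0 : ℝ) < Mn n := by exact_mod_cast Mn_pos n
  have e : (Qn (n + 1) : ℝ) = Qn n * (Mn n : ℝ) ^ 60 := by rw [Qn_succ]; push_cast; rfl
  have hQ' : (0 : ℝ) < Qn (n + 1) := by exact_mod_cast Qn_pos _
  have h3 : 1 / (Qn (n + 1) : ℝ) ≤ alpha - Pn n / Qn n := by linarith
  have h4 : alpha - Pn n / Qn n ≤ 2 / Qn (n + 1) := by linarith
  refine ⟨alpha - Pn n / Qn n, by ring, le_trans (by positivity) h3, ?_, ?_, h3, h4⟩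
  · rw [div_le_iff₀ hQ', e] at h3
    linarith
  · rw [le_div_iff₀ hQ', e] at h4
    linarith

theorem alpha_mem : 0 < alpha ∧ alpha < 1 := by
  have h1 := alpha_lower 0
  have h2 := alpha_upper 0
  have e1 : An 0 = 1 / 2 := by
    unfold An
    norm_num [Pn, Qn]
  rw [e1] at h1 h2
  have h3 : (8 : ℝ) ≤ Qn (0 + 1) := by
    have : 8 ≤ Qn (0 + 1) := by
      rw [Qn_succ]
      have h4 : 4 ≤ Mn 0 ^ 60 := by
        calc 4 = 2 ^ 2 := by norm_num
          _ ≤ Mn 0 ^ 2 := Nat.pow_le_pow_left (Mn_two 0) 2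
          _ ≤ Mn 0 ^ 60 := Nat.pow_le_pow_right (Mn_pos 0) (by norm_num)
      have h5 : Qn 0 = 2 := rfl
      rw [h5]
      omega
    exact_mod_cast this
  constructor
  · have : (0 : ℝ) ≤ 1 / Qn (0 + 1) := by positivity
    linarith
  · have : (2 : ℝ) / Qn (0 + 1) ≤ 2 / 8 :=
      div_le_div_of_nonneg_left (by norm_num) (by norm_num) h3
    linarith

/-- Exponentials of linear functions of `Qn n` are small compared to `Mn n`. -/
theorem Mn_large (C K : ℝ) (hK : 0 ≤ K) : ∀ᶠ n in atTop, K * Real.exp (C * Qn n) ≤ Mn n := by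
  have hQ : Tendsto (fun n => (Qn n : ℝ)) atTop atTop := by
    apply tendsto_natCast_atTop_atTop.comp
    apply tendsto_atTop_mono (fun n => Qn_lower n)
    exact tendsto_add_atTop_nat 2
  have hlog : 0 < Real.log 2 := Real.log_pos (by norm_num)
  filter_upwards [hQ.eventually_ge_atTop ((|C| + K) / Real.log 2 + 1),
    hQ.eventually_ge_atTop 1] with n hn hn1
  have e1 : (Mn n : ℝ) = Real.exp (Real.log 2 * (Qn n : ℝ) ^ 2) := by
    unfold Mn
    push_cast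
    rw [mul_comm, ← Real.rpow_natCast 2 (Qn n ^ 2), Real.rpow_def_of_pos (by norm_num)]
    congr 1
    push_cast
    ring
  rw [e1]
  have h1 : K ≤ Real.exp K := by linarith [Real.add_one_le_exp K]
  have h2 : (|C| + K) ≤ Real.log 2 * Qn n := by
    have h3 : (|C| + K) / Real.log 2 ≤ Qn n := by linarith
    rw [div_le_iff₀ hlog] at h3
    linarith
  calc K * Real.exp (C * Qn n) ≤ Real.exp K * Real.exp (C * Qn n) :=
        mul_le_mul_of_nonneg_right h1 (Real.exp_pos _).le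
    _ = Real.exp (K + C * Qn n) := (Real.exp_add _ _).symm
    _ ≤ _ := by
      apply Real.exp_le_exp.2
      have h3 : C * Qn n ≤ |C| * Qn n :=
        mul_le_mul_of_nonneg_right (le_abs_self C) (by linarith)
      have h4 : K ≤ K * Qn n := by nlinarith
      have h5 : (|C| + K) * Qn n ≤ (Real.log 2 * Qn n) * Qn n :=
        mul_le_mul_of_nonneg_right h2 (by linarith)
      nlinarith

theorem alpha_irrational : Irrational alpha := by
  rintro ⟨r, hr⟩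
  obtain ⟨n, hn⟩ := (Mn_large 0 (2 * r.den + 1) (by positivity)).exists
  rw [zero_mul, Real.exp_zero, mul_one] at hn
  obtain ⟨δ, h1, h2, h3, h4, h5, h6⟩ := alpha_eq n
  have hQ : (0 : ℝ) < Qn n := by exact_mod_cast Qn_pos n
  have hM : (0 : ℝ) < Mn n := by exact_mod_cast Mn_pos n
  have hM1 : (1 : ℝ) ≤ Mn n := by exact_mod_cast Mn_pos n
  have hQ' : (0 : ℝ) < Qn (n + 1) := by exact_mod_cast Qn_pos _
  have hδ : 0 < δ := lt_of_lt_of_le (by positivity) h5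
  have hden : (0 : ℝ) < r.den := by exact_mod_cast r.den_pos
  have hrq : (r : ℝ) = r.num / r.den := by exact_mod_cast (Rat.num_div_den r).symm
  -- the integer `r.num * Q - r.den * P`
  have h7 : ((r.num * Qn n - r.den * Pn n : ℤ) : ℝ) = δ * (r.den * Qn n) := by
    have h8 : (r.num : ℝ) / r.den = Pn n / Qn n + δ := by rw [← hrq, hr, h1]
    have h9 : (r.num : ℝ) = (Pn n / Qn n + δ) * r.den := by
      rw [← h8]
      field_simp
    push_cast
    rw [h9]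
    field_simp
    ring
  have h8 : (0 : ℝ) < ((r.num * Qn n - r.den * Pn n : ℤ) : ℝ) := by
    rw [h7]
    positivity
  have h9 : (1 : ℝ) ≤ ((r.num * Qn n - r.den * Pn n : ℤ) : ℝ) := by
    have : (0 : ℤ) < r.num * Qn n - r.den * Pn n := by exact_mod_cast h8
    exact_mod_cast this
  rw [h7] at h9
  have h10 : δ * (r.den * Qn n) * (Mn n : ℝ) ^ 60 ≤ 2 * r.den := by
    calc δ * (r.den * Qn n) * (Mn n : ℝ) ^ 60 =
          (r.den : ℝ) * (Qn n * δ * (Mn n : ℝ) ^ 60) := by ring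
      _ ≤ (r.den : ℝ) * 2 := mul_le_mul_of_nonneg_left h4 hden.le
      _ = 2 * (r.den : ℝ) := by ring
  have h11 : (Mn n : ℝ) ≤ (Mn n : ℝ) ^ 60 := by
    calc (Mn n : ℝ) = (Mn n : ℝ) ^ 1 := (pow_one _).symm
      _ ≤ _ := pow_le_pow_right₀ hM1 (by norm_num)
  have h12 : 1 * (Mn n : ℝ) ^ 60 ≤ δ * (r.den * Qn n) * (Mn n : ℝ) ^ 60 :=
    mul_le_mul_of_nonneg_right h9 (by positivity)
  linarith

/-- `α` is not Diophantine. -/
theorem alpha_liouville (γ τ : ℝ) (hγ : 0 < γ) :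
    ∃ (p : ℤ) (q : ℕ), 1 ≤ q ∧ |alpha - p / q| < γ * (q : ℝ) ^ (-2 - τ) := by
  obtain ⟨n, hn⟩ := (Mn_large (|2 + τ|) (2 / γ + 1) (by positivity)).exists
  obtain ⟨δ, h1, h2, h3, h4, h5, h6⟩ := alpha_eq n
  have hQ : (0 : ℝ) < Qn n := by exact_mod_cast Qn_pos n
  have hQ1 : (1 : ℝ) ≤ Qn n := by exact_mod_cast Qn_pos n
  have hM1 : (1 : ℝ) ≤ Mn n := by exact_mod_cast Mn_pos n
  refine ⟨Pn n, Qn n, Qn_pos n, ?_⟩
  have e : alpha - ((Pn n : ℤ) : ℝ) / (Qn n : ℝ) = δ := by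
    rw [h1]
    push_cast
    ring
  rw [e, abs_of_nonneg h2]
  have hrpow : (Qn n : ℝ) ^ (2 + τ) ≤ Real.exp (|2 + τ| * Qn n) := by
    rw [Real.rpow_def_of_pos hQ]
    apply Real.exp_le_exp.2
    have h7 : Real.log (Qn n) ≤ Qn n := (Real.log_le_sub_one_of_pos hQ).trans (by linarith)
    have h8 : 0 ≤ Real.log (Qn n) := Real.log_nonneg hQ1
    calc Real.log (Qn n) * (2 + τ) ≤ Real.log (Qn n) * |2 + τ| :=
          mul_le_mul_of_nonneg_left (le_abs_self _) h8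
      _ ≤ Qn n * |2 + τ| := mul_le_mul_of_nonneg_right h7 (abs_nonneg _)
      _ = _ := by ring
  have hpos : 0 < (Qn n : ℝ) ^ (2 + τ) := Real.rpow_pos_of_pos hQ _
  have e2 : (Qn n : ℝ) ^ (-2 - τ) = ((Qn n : ℝ) ^ (2 + τ))⁻¹ := by
    rw [← Real.rpow_neg hQ.le]
    congr 1
    ring
  rw [e2, ← div_eq_mul_inv, lt_div_iff₀ hpos]
  -- δ ≤ 2 / M
  have h7 : δ * Mn n ≤ 2 := by
    have h8 : (Mn n : ℝ) ≤ (Mn n : ℝ) ^ 60 := by
      calc (Mn n : ℝ) = (Mn n : ℝ) ^ 1 := (pow_one _).symm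
        _ ≤ _ := pow_le_pow_right₀ hM1 (by norm_num)
    calc δ * Mn n ≤ δ * (Mn n : ℝ) ^ 60 := mul_le_mul_of_nonneg_left h8 h2
      _ ≤ Qn n * (δ * (Mn n : ℝ) ^ 60) := by
        have : 0 ≤ δ * (Mn n : ℝ) ^ 60 := by positivity
        nlinarith
      _ ≤ 2 := by linarith
  have h8 : δ * ((2 / γ + 1) * Real.exp (|2 + τ| * Qn n)) ≤ 2 :=
    (mul_le_mul_of_nonneg_left hn h2).trans h7
  have hδ : 0 < δ := lt_of_lt_of_le (by have := Qn_pos (n + 1); positivity) h5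
  have hE := Real.exp_pos (|2 + τ| * Qn n)
  have h9 : δ * (Qn n : ℝ) ^ (2 + τ) ≤ δ * Real.exp (|2 + τ| * Qn n) :=
    mul_le_mul_of_nonneg_left hrpow hδ.le
  have h10 : 0 < δ * Real.exp (|2 + τ| * Qn n) := by positivity
  have h11 : δ * Real.exp (|2 + τ| * Qn n) * (2 / γ) < 2 := by nlinarith
  have h12 : δ * Real.exp (|2 + τ| * Qn n) < γ := by
    rw [mul_div_assoc', div_lt_iff₀ hγ] at h11
    linarith
  linarith

end Pool.Agent.E8helper72.LW
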