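import Pool.Agent.E8helper72.LW.Prof

/-!
# Averages over rational orbits
-/

namespace Pool.Agent.E8helper72.LW

open Finset MeasureTheory

/-- sums over a rational orbit do not depend on the order of the points -/
theorem sum_orbit (F : ℝ → ℝ) (hF : ∀ y, F (y + 1) = F y) (p q : ℕ) (hq : 1 ≤ q)
    (hpq : Nat.Coprime p q) (y : ℝ) :
    ∑ j ∈ range q, F (y + j * (p / q)) = ∑ j ∈ range q, F (y + j / q) := by
  have hq0 : (q : ℝ) ≠ 0 := by
    have : q ≠ 0 := by omega
    exact_mod_cast this
  have hFn : ∀ (n : ℕ) (y : ℝ), F (y + n) = F y := by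
    intro n
    induction n with
    | zero => intro y; simp
    | succ n ih =>
      intro y
      push_cast
      rw [← add_assoc, hF, ih]
  have h1 : ∀ j ∈ range q, F (y + j * (p / q)) = F (y + ((j * p % q : ℕ) : ℝ) / q) := by
    intro j _
    have e : (j * p : ℕ) = j * p % q + q * (j * p / q) := (Nat.mod_add_div _ _).symm
    have e2 : (j : ℝ) * (p / q) = ((j * p % q : ℕ) : ℝ) / q + ((j * p / q : ℕ) : ℝ) := by
      have : ((j * p : ℕ) : ℝ) = ((j * p % q : ℕ) : ℝ) + q * ((j * p / q : ℕ) : ℝ) := by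
        exact_mod_cast e
      push_cast at this
      field_simp
      linarith
    rw [e2, ← add_assoc, hFn]
  rw [sum_congr rfl h1]
  have hinj : Set.InjOn (fun j => j * p % q) (range q : Set ℕ) := by
    intro i hi j hj hij
    rw [Finset.coe_range, Set.mem_Iio] at hi hj
    have h2 : i * p ≡ j * p [MOD q] := hij
    have h3 : i ≡ j [MOD q] := Nat.ModEq.cancel_right_of_coprime (by rwa [Nat.gcd_comm]) h2
    exact Nat.ModEq.eq_of_lt_of_lt h3 hi hj
  have himg : (range q).image (fun j => j * p % q) = range q := by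
    apply Finset.eq_of_subset_of_card_le
    · intro i hi
      rw [mem_image] at hi
      obtain ⟨j, _, rfl⟩ := hi
      exact mem_range.2 (Nat.mod_lt _ (by omega))
    · rw [Finset.card_image_of_injOn hinj]
  calc ∑ j ∈ range q, F (y + ((j * p % q : ℕ) : ℝ) / q)
      = ∑ i ∈ (range q).image (fun j => j * p % q), F (y + (i : ℝ) / q) := by
        rw [sum_image hinj]
    _ = _ := by rw [himg]

/-- the average of `f` over the `q` points `(y + j) / q` -/
noncomputable def av (f : ℝ → ℝ) (q : ℕ) (y : ℝ) : ℝ := (∑ j ∈ range q, f ((y + j) / q)) / q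

/-- the functions `f` considered -/
structure Fn (f f' : ℝ → ℝ) (L : ℝ) : Prop where
  deriv : ∀ y, HasDerivAt f (f' y) y
  bound0 : ∀ y, |f y| ≤ L
  bound : ∀ y, |f' y| ≤ L
  lip : ∀ y z, |f' y - f' z| ≤ L * |y - z|
  per : ∀ y, f (y + 1) = f y
  mean : ∫ y in (0 : ℝ)..1, f y = 0
  L1 : 1 ≤ L

variable {f f' : ℝ → ℝ} {L : ℝ}

theorem Fn.lipschitz (h : Fn f f' L) (y z : ℝ) : |f y - f z| ≤ L * |y - z| := by
  have := Convex.norm_image_sub_le_of_norm_hasDerivWithin_le (f := f) (f' := f') (C := L)
    (s := Set.univ) (x := z) (y := y) (fun x _ => (h.deriv x).hasDerivWithinAt)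
    (fun x _ => by rw [Real.norm_eq_abs]; exact h.bound x) convex_univ trivial trivial
  rw [Real.norm_eq_abs, Real.norm_eq_abs] at this
  exact this

theorem Fn.cont (h : Fn f f' L) : Continuous f :=
  continuous_iff_continuousAt.2 fun y => (h.deriv y).continuousAt

theorem av_abs_le (h : Fn f f' L) (q : ℕ) (hq : 1 ≤ q) (y : ℝ) : |av f q y| ≤ L := by
  have hq0 : (0 : ℝ) < q := by exact_mod_cast hq
  unfold av
  rw [abs_div, abs_of_pos hq0, div_le_iff₀ hq0]
  calc |∑ j ∈ range q, f ((y + j) / q)| ≤ ∑ j ∈ range q, |f ((y + j) / q)| := abs_sum_le_sum_abs _ _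
    _ ≤ ∑ _j ∈ range q, L := sum_le_sum fun j _ => h.bound0 _
    _ = L * q := by simp; ring

theorem av_per (h : Fn f f' L) (q : ℕ) (hq : 1 ≤ q) (y : ℝ) : av f q (y + 1) = av f q y := by
  have hq0 : (q : ℝ) ≠ 0 := by
    have : q ≠ 0 := by omega
    exact_mod_cast this
  unfold av
  congr 1
  have e1 : ∀ j ∈ range q, f ((y + 1 + (j : ℝ)) / q) = f ((y + ((j + 1 : ℕ) : ℝ)) / q) := by
    intro j _
    congr 2
    push_cast
    ring
  rw [sum_congr rfl e1]
  have h1 := Finset.sum_range_succ' (fun j : ℕ => f ((y + (j : ℝ)) / q)) q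
  have h2 := Finset.sum_range_succ (fun j : ℕ => f ((y + (j : ℝ)) / q)) q
  have h3 : f ((y + (q : ℝ)) / q) = f ((y + ((0 : ℕ) : ℝ)) / q) := by
    rw [add_div, div_self hq0, h.per]
    simp
  linarith

theorem av_scaled (q : ℕ) (hq : 1 ≤ q) (x : ℝ) :
    av f q (q * x) = (∑ j ∈ range q, f (x + j / q)) / q := by
  have hq0 : (q : ℝ) ≠ 0 := by
    have : q ≠ 0 := by omega
    exact_mod_cast this
  unfold av
  congr 1
  apply sum_congr rfl
  intro j _
  congr 1
  field_simp

theorem av_int (h : Fn f f' L) (q : ℕ) (hq : 1 ≤ q) :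
    ∫ x in (0 : ℝ)..1, av f q (q * x) = 0 := by
  have e : (fun x : ℝ => av f q (q * x)) = fun x => (∑ j ∈ range q, f (x + j / q)) / q := by
    funext x
    exact av_scaled q hq x
  rw [e, intervalIntegral.integral_div, intervalIntegral.integral_finset_sum]
  · have h1 : ∀ j ∈ range q, ∫ x in (0 : ℝ)..1, f (x + (j : ℝ) / q) = 0 := by
      intro j _
      rw [intervalIntegral.integral_comp_add_right (fun x => f x), zero_add, add_comm (1 : ℝ)]
      have hp : Function.Periodic f 1 := h.per
      have := hp.intervalIntegral_add_eq ((j : ℝ) / q) 0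
      rw [zero_add] at this
      rw [this, h.mean]
    rw [sum_congr rfl h1]
    simp
  · intro j _
    exact (h.cont.comp (continuous_id.add continuous_const)).intervalIntegrable _ _

theorem av_deriv (h : Fn f f' L) (q : ℕ) (hq : 1 ≤ q) (y : ℝ) :
    HasDerivAt (av f q) ((∑ j ∈ range q, f' ((y + j) / q)) / q / q) y := by
  have h1 : ∀ j ∈ range q,
      HasDerivAt (fun y : ℝ => f ((y + j) / q)) (f' ((y + j) / q) * (1 / q)) y := by
    intro j _
    have h2 : HasDerivAt (fun y : ℝ => (y + j) / q) (1 / q) y :=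
      ((hasDerivAt_id y).add_const _).div_const _
    exact (h.deriv ((y + j) / q)).comp y h2
  have h2 := (HasDerivAt.fun_sum h1).div_const (q : ℝ)
  have e : (∑ j ∈ range q, f' ((y + j) / q) * (1 / q)) / (q : ℝ) =
      (∑ j ∈ range q, f' ((y + j) / q)) / q / q := by
    rw [← sum_mul]
    ring
  rw [e] at h2
  exact h2

theorem av_cont (h : Fn f f' L) (q : ℕ) (hq : 1 ≤ q) : Continuous (av f q) :=
  continuous_iff_continuousAt.2 fun y => (av_deriv h q hq y).continuousAt

theorem av_pos (h : Fn f f' L) (q : ℕ) (hq : 1 ≤ q) : ∃ y, 0 ≤ av f q y := by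
  by_contra hcon
  push Not at hcon
  have hc : Continuous fun x : ℝ => -av f q (q * x) :=
    ((av_cont h q hq).comp (continuous_const.mul continuous_id)).neg
  have h1 : 0 < ∫ x in (0 : ℝ)..1, -av f q (q * x) :=
    intervalIntegral.intervalIntegral_pos_of_pos (hc.intervalIntegrable _ _)
      (fun x => by linarith [hcon (q * x)]) one_pos
  rw [intervalIntegral.integral_neg, av_int h q hq] at h1
  simp at h1

theorem av_neg (h : Fn f f' L) (q : ℕ) (hq : 1 ≤ q) : ∃ y, av f q y ≤ 0 := by
  by_contra hcon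
  push Not at hcon
  have hc : Continuous fun x : ℝ => av f q (q * x) :=
    (av_cont h q hq).comp (continuous_const.mul continuous_id)
  have h1 : 0 < ∫ x in (0 : ℝ)..1, av f q (q * x) :=
    intervalIntegral.intervalIntegral_pos_of_pos (hc.intervalIntegrable _ _)
      (fun x => hcon (q * x)) one_pos
  rw [av_int h q hq] at h1
  simp at h1

theorem av_prof (h : Fn f f' L) (q : ℕ) (hq : 1 ≤ q) (hqL : L ≤ q) :
    Prof (av f q) (fun y => (∑ j ∈ range q, f' ((y + j) / q)) / q / q) where
  deriv := av_deriv h q hq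
  bound := fun y => by
    have hq0 : (0 : ℝ) < q := by exact_mod_cast hq
    rw [abs_div, abs_div, abs_of_pos hq0, div_div, div_le_one (by positivity)]
    calc |∑ j ∈ range q, f' ((y + j) / q)| ≤ ∑ j ∈ range q, |f' ((y + j) / q)| :=
          abs_sum_le_sum_abs _ _
      _ ≤ ∑ _j ∈ range q, L := sum_le_sum fun j _ => h.bound _
      _ = q * L := by simp
      _ ≤ q * q := mul_le_mul_of_nonneg_left hqL hq0.le
  lip := fun y z => by
    have hq0 : (0 : ℝ) < q := by exact_mod_cast hq
    have hL := h.L1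
    rw [← sub_div, ← sub_div, ← sum_sub_distrib, abs_div, abs_div, abs_of_pos hq0, div_div,
      div_le_iff₀ (by positivity)]
    calc |∑ j ∈ range q, (f' ((y + j) / q) - f' ((z + j) / q))| ≤
          ∑ j ∈ range q, |f' ((y + j) / q) - f' ((z + j) / q)| := abs_sum_le_sum_abs _ _
      _ ≤ ∑ _j ∈ range q, L * (|y - z| / q) := by
          apply sum_le_sum
          intro j _
          have := h.lip ((y + j) / q) ((z + j) / q)
          rwa [← sub_div, add_sub_add_right_eq_sub, abs_div, abs_of_pos hq0] at this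
      _ = L * |y - z| := by
          rw [sum_const, card_range, nsmul_eq_mul]
          field_simp
      _ ≤ |y - z| * (q * q) := by
          have h0 : 0 ≤ |y - z| := abs_nonneg _
          have h1 : L ≤ q * q := by nlinarith
          calc L * |y - z| ≤ (q * q) * |y - z| := mul_le_mul_of_nonneg_right h1 h0
            _ = _ := by ring
  per := av_per h q hq
  pos := av_pos h q hq
  neg := av_neg h q hq

end Pool.Agent.E8helper72.LW
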