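import Pool.Agent.E8helper72.LW.Prof

/-!
# The exceptional starting points
-/

namespace Pool.Agent.E8helper72.LW

open Finset MeasureTheory

theorem Prof.upper_taylor {g g' : ℝ → ℝ} (h : Prof g g') (y s : ℝ) (hs : 0 ≤ s) :
    g (y + s) ≤ g y + g' y * s + s ^ 2 / 2 := by
  have h1 := h.reflect.neg_taylor (-y) s hs
  simp only [neg_neg] at h1
  rw [show -(-y - s) = y + s by ring] at h1
  linarith

/-- the starting points near an unstable equilibrium -/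
def badSet (g g' : ℝ → ℝ) (q M : ℕ) : Set ℝ :=
  {x | |g (q * x)| < 2 / (M : ℝ) ^ 9 ∧ g' (q * x) < -(1 / (M : ℝ) ^ 3)}

theorem bad_close {g g' : ℝ → ℝ} (h : Prof g g') (q M : ℕ) (hq : 1 ≤ q) (hM : 1 ≤ M) (x y : ℝ)
    (hx : x ∈ badSet g g' q M) (hy : y ∈ badSet g g' q M) (hxy : x ≤ y)
    (hyx : q * (y - x) ≤ 1 / (2 * (M : ℝ) ^ 3)) : y - x ≤ 6 / (q * (M : ℝ) ^ 6) := by
  have hq0 : (0 : ℝ) < q := by exact_mod_cast hq
  have hM0 : (0 : ℝ) < M := by exact_mod_cast hM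
  set s := q * (y - x) with hs
  have hs0 : 0 ≤ s := mul_nonneg hq0.le (by linarith)
  have h1 := h.upper_taylor (q * x) s hs0
  rw [show (q : ℝ) * x + s = q * y by rw [hs]; ring] at h1
  have h2 := (abs_lt.1 hx.1).2
  have h3 := (abs_lt.1 hy.1).1
  have h4 : g' (q * x) * s ≤ -(1 / (M : ℝ) ^ 3) * s := mul_le_mul_of_nonneg_right hx.2.le hs0
  have h5 : s ^ 2 / 2 ≤ (1 / (M : ℝ) ^ 3) * s / 4 := by
    have : s ^ 2 ≤ (1 / (2 * (M : ℝ) ^ 3)) * s := by
      rw [sq]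
      exact mul_le_mul_of_nonneg_right hyx hs0
    have e : (1 / (2 * (M : ℝ) ^ 3)) * s = (1 / (M : ℝ) ^ 3) * s / 2 := by
      field_simp
    linarith
  have h6 : (1 / (M : ℝ) ^ 3) * s ≤ 6 / (M : ℝ) ^ 9 := by
    have e : 6 / (M : ℝ) ^ 9 = 3 * (2 / (M : ℝ) ^ 9) := by ring
    have h7 : 0 ≤ (1 / (M : ℝ) ^ 3) * s := by positivity
    have h8 : 0 < 2 / (M : ℝ) ^ 9 := by positivity
    linarith
  have h7 : s ≤ 6 / (M : ℝ) ^ 6 := by
    rw [one_div, inv_mul_le_iff₀ (by positivity)] at h6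
    have e : (M : ℝ) ^ 3 * (6 / (M : ℝ) ^ 9) = 6 / (M : ℝ) ^ 6 := by
      field_simp
    rwa [e] at h6
  rw [le_div_iff₀ (by positivity)]
  rw [le_div_iff₀ (by positivity)] at h7
  calc (y - x) * (q * (M : ℝ) ^ 6) = s * (M : ℝ) ^ 6 := by rw [hs]; ring
    _ ≤ 6 := h7

theorem volume_bad {g g' : ℝ → ℝ} (h : Prof g g') (q M : ℕ) (hq : 1 ≤ q) (hM : 1 ≤ M) :
    volume (badSet g g' q M ∩ Set.Icc 0 1) ≤ ENNReal.ofReal (18 / (M : ℝ) ^ 3) := by
  have hq0 : (0 : ℝ) < q := by exact_mod_cast hq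
  have hq1 : (1 : ℝ) ≤ q := by exact_mod_cast hq
  have hM0 : (0 : ℝ) < M := by exact_mod_cast hM
  have hM1 : (1 : ℝ) ≤ M := by exact_mod_cast hM
  set N : ℕ := 2 * q * M ^ 3 with hN
  have hNR : (N : ℝ) = 2 * q * (M : ℝ) ^ 3 := by rw [hN]; push_cast; rfl
  have hN0 : (0 : ℝ) < N := by rw [hNR]; positivity
  have hcov : badSet g g' q M ∩ Set.Icc 0 1 ⊆
      ⋃ i ∈ range (N + 1), (badSet g g' q M ∩ Set.Icc ((i : ℝ) / N) ((i + 1 : ℝ) / N)) := by
    intro x hx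
    obtain ⟨hx1, hx2⟩ := hx
    have h1 : ⌊x * N⌋₊ ≤ N := by
      apply Nat.floor_le_of_le
      have := hx2.2
      nlinarith
    simp only [Set.mem_iUnion, mem_range]
    refine ⟨⌊x * N⌋₊, by omega, hx1, ?_, ?_⟩
    · rw [div_le_iff₀ hN0]
      exact Nat.floor_le (mul_nonneg hx2.1 hN0.le)
    · rw [le_div_iff₀ hN0]
      exact (Nat.lt_floor_add_one _).le
  have hpiece : ∀ i ∈ range (N + 1),
      volume (badSet g g' q M ∩ Set.Icc ((i : ℝ) / N) ((i + 1 : ℝ) / N)) ≤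
        ENNReal.ofReal (6 / (q * (M : ℝ) ^ 6)) := by
    intro i _
    refine (Real.volume_le_diam _).trans ?_
    apply Metric.ediam_le
    intro x hx y hy
    rw [edist_dist]
    apply ENNReal.ofReal_le_ofReal
    have hlen : ∀ u v : ℝ, u ∈ Set.Icc ((i : ℝ) / N) ((i + 1 : ℝ) / N) →
        v ∈ Set.Icc ((i : ℝ) / N) ((i + 1 : ℝ) / N) → q * (v - u) ≤ 1 / (2 * (M : ℝ) ^ 3) := by
      intro u v hu hv
      have h1 : v - u ≤ 1 / N := by
        have e : (i + 1 : ℝ) / N = i / N + 1 / N := by ring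
        have := hv.2
        have := hu.1
        linarith
      calc q * (v - u) ≤ q * (1 / N) := mul_le_mul_of_nonneg_left h1 hq0.le
        _ = 1 / (2 * (M : ℝ) ^ 3) := by
          rw [hNR]
          field_simp
    rw [Real.dist_eq]
    rcases le_total x y with hxy | hxy
    · rw [abs_sub_comm, abs_of_nonneg (by linarith)]
      exact bad_close h q M hq hM x y hx.1 hy.1 hxy (hlen x y hx.2 hy.2)
    · rw [abs_of_nonneg (by linarith)]
      exact bad_close h q M hq hM y x hy.1 hx.1 hxy (hlen y x hy.2 hx.2)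
  calc volume (badSet g g' q M ∩ Set.Icc 0 1)
      ≤ volume (⋃ i ∈ range (N + 1),
          (badSet g g' q M ∩ Set.Icc ((i : ℝ) / N) ((i + 1 : ℝ) / N))) := measure_mono hcov
    _ ≤ ∑ i ∈ range (N + 1), volume (badSet g g' q M ∩ Set.Icc ((i : ℝ) / N) ((i + 1 : ℝ) / N)) :=
        measure_biUnion_finset_le _ _
    _ ≤ ∑ _i ∈ range (N + 1), ENNReal.ofReal (6 / (q * (M : ℝ) ^ 6)) := sum_le_sum hpiece
    _ = ENNReal.ofReal ((N + 1) * (6 / (q * (M : ℝ) ^ 6))) := by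
        rw [sum_const, card_range, nsmul_eq_mul, ENNReal.ofReal_mul (by positivity)]
        congr 1
        have e : ((N : ℝ) + 1) = ((N + 1 : ℕ) : ℝ) := by push_cast; ring
        rw [e, ENNReal.ofReal_natCast]
    _ ≤ ENNReal.ofReal (18 / (M : ℝ) ^ 3) := by
        apply ENNReal.ofReal_le_ofReal
        rw [hNR, mul_div_assoc', div_le_div_iff₀ (by positivity) (by positivity)]
        have h1 : (1 : ℝ) ≤ q * (M : ℝ) ^ 3 := by
          have : (1 : ℝ) ≤ (M : ℝ) ^ 3 := one_le_pow₀ hM1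
          nlinarith
        have h2 : (0 : ℝ) < (M : ℝ) ^ 3 := by positivity
        have e : (18 : ℝ) * (q * (M : ℝ) ^ 6) = 18 * (q * (M : ℝ) ^ 3) * (M : ℝ) ^ 3 := by ring
        rw [e]
        apply mul_le_mul_of_nonneg_right _ h2.le
        nlinarith

end Pool.Agent.E8helper72.LW
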