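import Pool.Agent.E8helper72.LW.Zone

/-!
# Concentration in a region with a drift
-/

namespace Pool.Agent.E8helper72.LW

open Finset

/-- expected crossing times, for the chain reflected at `-n` -/
noncomputable def cross (a : ℤ → ℝ) (n : ℕ) : ℕ → ℝ
  | 0 => 1 / a (-(n : ℤ))
  | i + 1 => (1 + (1 - a (-(n : ℤ) + (i + 1 : ℕ))) * cross a n i) / a (-(n : ℤ) + (i + 1 : ℕ))

theorem exists_cross {a : ℤ → ℝ} (ha : Env a) (v Ψ : ℤ → ℝ)
    (hΨ : ∀ k, 1 - a k = a k * Real.exp (v k + (Ψ (k + 1) - Ψ k)))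
    (n : ℕ) (y : ℕ) (A ζ B : ℝ) (hA : ∀ k, 1 ≤ A * a k) (hζ : 0 < ζ) (hζ1 : ζ ≤ 1)
    (hv : ∀ k : ℤ, -(n : ℤ) ≤ k → k < y → v k ≤ -ζ)
    (hB : ∀ k : ℤ, -(n : ℤ) ≤ k → k ≤ y → |Ψ k - Ψ (-(n : ℤ))| ≤ B) :
    ∃ e : ℤ → ℝ, (∀ k : ℤ, k < -(n : ℤ) → e k = 0) ∧ (∀ k, 0 ≤ e k) ∧
      (∀ k : ℤ, -(n : ℤ) ≤ k → 1 ≤ e k) ∧
      (∀ k : ℤ, -(n : ℤ) ≤ k → a k * e k - (1 - a k) * e (k - 1) = 1) ∧
      (∀ k : ℤ, k < y → e k ≤ 2 * A * Real.exp (2 * B) / ζ) := by
  set e : ℤ → ℝ := fun k => if k < -(n : ℤ) then 0 else cross a n (k + n).toNat with he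
  have hB0 : 0 ≤ B := (abs_nonneg _).trans (hB (-(n : ℤ)) le_rfl (by omega))
  have hA0 : 0 < A := by
    have := hA 0
    nlinarith [(ha 0).1]
  have h0 : ∀ k : ℤ, k < -(n : ℤ) → e k = 0 := fun k hk => by simp [he, hk]
  have h1 : ∀ k : ℤ, -(n : ℤ) ≤ k → a k * e k - (1 - a k) * e (k - 1) = 1 := by
    intro k hk
    obtain ⟨i, hi⟩ := Int.eq_ofNat_of_zero_le (show 0 ≤ k + n by omega)
    have hk' : k = -(n : ℤ) + i := by omega
    have hak := (ha k).1.ne'
    rcases i with _ | i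
    · have e1 : e k = 1 / a k := by
        have : ¬ k < -(n : ℤ) := by omega
        simp only [he, if_neg this, hi]
        simp [cross]
        rw [hk']
        simp
      have e2 : e (k - 1) = 0 := h0 _ (by push_cast at hk'; omega)
      rw [e1, e2]
      field_simp
      ring
    · have e1 : e k = (1 + (1 - a k) * cross a n i) / a k := by
        have : ¬ k < -(n : ℤ) := by omega
        simp only [he, if_neg this, hi]
        simp only [Int.toNat_natCast, cross]
        rw [hk']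
      have e2 : e (k - 1) = cross a n i := by
        have : ¬ k - 1 < -(n : ℤ) := by omega
        have h3 : (k - 1 + n).toNat = i := by omega
        simp only [he, if_neg this, h3]
      rw [e1, e2]
      field_simp
      ring
  -- positivity
  have hcross : ∀ i, 0 < cross a n i := by
    intro i
    induction i with
    | zero => exact one_div_pos.2 (ha _).1
    | succ i ih =>
      simp only [cross]
      have h3 := ha (-(n : ℤ) + (i + 1 : ℕ))
      have h4 : 0 ≤ (1 - a (-(n : ℤ) + (i + 1 : ℕ))) * cross a n i :=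
        mul_nonneg (by linarith [h3.2]) ih.le
      exact div_pos (by linarith) h3.1
  have hnn : ∀ k, 0 ≤ e k := by
    intro k
    simp only [he]
    split_ifs
    · exact le_rfl
    · exact (hcross _).le
  have hge1 : ∀ k : ℤ, -(n : ℤ) ≤ k → 1 ≤ e k := by
    intro k hk
    have h3 := h1 k hk
    have h4 := ha k
    have h5 := mul_nonneg (by linarith [h4.2] : (0 : ℝ) ≤ 1 - a k) (hnn (k - 1))
    by_contra h6
    push Not at h6
    nlinarith [hnn k]
  refine ⟨e, h0, hnn, hge1, h1, ?_⟩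
  -- upper bound
  have hH : 0 ≤ 2 * A * Real.exp B / ζ := by positivity
  have hmain : ∀ i : ℕ, (-(n : ℤ) + i < y) →
      e (-(n : ℤ) + i) ≤ Real.exp (Ψ (-(n : ℤ) + i + 1) - Ψ (-(n : ℤ))) *
        (2 * A * Real.exp B / ζ) := by
    have hstep : ∀ k : ℤ, -(n : ℤ) ≤ k → k < y →
        e (k - 1) ≤ Real.exp (Ψ k - Ψ (-(n : ℤ))) * (2 * A * Real.exp B / ζ) →
        e k ≤ Real.exp (Ψ (k + 1) - Ψ (-(n : ℤ))) * (2 * A * Real.exp B / ζ) := by
      intro k hk1 hk2 hprev
      have h3 := h1 k hk1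
      have hak := (ha k).1
      have e3 : e k = 1 / a k + Real.exp (v k + (Ψ (k + 1) - Ψ k)) * e (k - 1) := by
        rw [hΨ k] at h3
        field_simp
        nlinarith
      have h4 : 1 / a k ≤ A := by
        rw [div_le_iff₀ hak]
        exact hA k
      have h5 : Real.exp (v k + (Ψ (k + 1) - Ψ k)) * e (k - 1) ≤
          Real.exp (v k + (Ψ (k + 1) - Ψ k)) *
            (Real.exp (Ψ k - Ψ (-(n : ℤ))) * (2 * A * Real.exp B / ζ)) :=
        mul_le_mul_of_nonneg_left hprev (Real.exp_pos _).le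
      have h6 : Real.exp (v k + (Ψ (k + 1) - Ψ k)) *
            (Real.exp (Ψ k - Ψ (-(n : ℤ))) * (2 * A * Real.exp B / ζ)) =
          Real.exp (v k) * (Real.exp (Ψ (k + 1) - Ψ (-(n : ℤ))) * (2 * A * Real.exp B / ζ)) := by
        rw [← mul_assoc, ← mul_assoc, ← Real.exp_add, ← Real.exp_add]
        congr 2
        ring
      have h7 : Real.exp (v k) ≤ 1 - ζ / 2 := by
        have hvk := hv k hk1 hk2
        have h8 : Real.exp (v k) ≤ Real.exp (-ζ) := Real.exp_le_exp.2 hvk
        have h9 : Real.exp (-ζ) ≤ 1 / (1 + ζ) := by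
          rw [Real.exp_neg, one_div]
          exact inv_anti₀ (by linarith) (by linarith [Real.add_one_le_exp ζ])
        have h10 : 1 / (1 + ζ) ≤ 1 - ζ / 2 := by
          rw [div_le_iff₀ (by linarith)]
          nlinarith
        linarith
      set P : ℝ := Real.exp (Ψ (k + 1) - Ψ (-(n : ℤ))) with hP
      have hP0 : 0 < P := Real.exp_pos _
      have hPB : 1 ≤ P * Real.exp B := by
        rw [hP, ← Real.exp_add]
        apply Real.one_le_exp
        have := (abs_le.1 (hB (k + 1) (by omega) (by omega))).1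
        linarith
      have h11 : Real.exp (v k) * (P * (2 * A * Real.exp B / ζ)) ≤
          (1 - ζ / 2) * (P * (2 * A * Real.exp B / ζ)) :=
        mul_le_mul_of_nonneg_right h7 (by positivity)
      have h12 : (1 - ζ / 2) * (P * (2 * A * Real.exp B / ζ)) =
          P * (2 * A * Real.exp B / ζ) - A * (P * Real.exp B) := by
        field_simp
      have h13 : A ≤ A * (P * Real.exp B) := by nlinarith
      rw [e3]
      linarith
    intro i
    induction i with
    | zero =>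
      intro hi
      have := hstep (-(n : ℤ)) le_rfl (by push_cast at hi; omega)
        (by rw [h0 _ (by omega)]; positivity)
      simpa using this
    | succ i ih =>
      intro hi
      have h3 := ih (by push_cast at hi; omega)
      have := hstep (-(n : ℤ) + (i + 1 : ℕ)) (by omega) hi (by
        have e4 : -(n : ℤ) + ((i + 1 : ℕ) : ℤ) - 1 = -(n : ℤ) + i := by push_cast; ring
        have e5 : -(n : ℤ) + ((i + 1 : ℕ) : ℤ) = -(n : ℤ) + i + 1 := by push_cast; ring
        rw [e4, e5]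
        exact h3)
      exact this
  intro k hk
  have hfin : (0 : ℝ) ≤ 2 * A * Real.exp (2 * B) / ζ := by positivity
  rcases lt_or_ge k (-(n : ℤ)) with h3 | h3
  · rw [h0 k h3]
    exact hfin
  · obtain ⟨i, hi⟩ := Int.eq_ofNat_of_zero_le (show 0 ≤ k + n by omega)
    have hk' : k = -(n : ℤ) + i := by omega
    have h4 := hmain i (by omega)
    rw [← hk'] at h4
    have h5 := (abs_le.1 (hB (k + 1) (by omega) (by omega))).2
    have h6 : Real.exp (Ψ (k + 1) - Ψ (-(n : ℤ))) ≤ Real.exp B := Real.exp_le_exp.2 h5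
    calc e k ≤ _ := h4
      _ ≤ Real.exp B * (2 * A * Real.exp B / ζ) := mul_le_mul_of_nonneg_right h6 hH
      _ = _ := by
        rw [show (2 : ℝ) * B = B + B by ring, Real.exp_add]
        ring

/-- Probability to be to the left of the region of drift. -/
theorem left_small {a : ℤ → ℝ} (ha : Env a) (v Ψ : ℤ → ℝ)
    (hΨ : ∀ k, 1 - a k = a k * Real.exp (v k + (Ψ (k + 1) - Ψ k)))
    (n : ℕ) (A ζ B : ℝ) (hA' : ∀ k, 1 ≤ A * (1 - a k))
    (hv : ∀ k : ℤ, -(n : ℤ) ≤ k → k < 0 → v k ≤ -ζ)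
    (hB : |Ψ 0 - Ψ (-(n : ℤ))| ≤ B) (t : ℕ) :
    E a t (fun k => if k < -(n : ℤ) then 1 else 0) 0 ≤ t * (A * Real.exp (B - ζ * n)) := by
  apply E_left_le ha _ (by omega)
  intro s
  obtain ⟨Θ, hΘ0, hΘ⟩ := exists_prim fun k => -(v k + (Ψ (k + 1) - Ψ k))
  set w : ℤ → ℝ := fun k => Real.exp (Θ k) / (1 - a k) with hw
  have hwpos : ∀ k, 0 < w k := fun k => div_pos (Real.exp_pos _) (by linarith [(ha k).2])
  have hrev : ∀ k, w k * a k = w (k + 1) * (1 - a (k + 1)) := by
    intro k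
    have h1 : (1 : ℝ) - a k ≠ 0 := by linarith [(ha k).2]
    have h2 : (1 : ℝ) - a (k + 1) ≠ 0 := by linarith [(ha (k + 1)).2]
    simp only [hw]
    rw [div_mul_cancel₀ _ h2, hΘ k, Real.exp_add, Real.exp_neg, div_mul_eq_mul_div,
      div_eq_iff h1, mul_assoc]
    congr 1
    rw [hΨ k]
    field_simp
  refine (law_le ha w hwpos hrev s _).trans ?_
  have hA0 : 0 < A := by
    have := hA' 0
    nlinarith [(ha 0).2]
  -- the potential
  have hpot : ∀ i : ℕ, i ≤ n → Θ 0 + ζ * i + (Ψ (-(i : ℤ)) - Ψ 0) ≤ Θ 0 + (Θ 0 - Θ (-(i : ℤ))) := by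
    intro i
    induction i with
    | zero => intro _; simp
    | succ i ih =>
      intro hi
      have h1 := ih (by omega)
      have h2 := hΘ (-((i + 1 : ℕ) : ℤ))
      have h3 := hv (-((i + 1 : ℕ) : ℤ)) (by push_cast; omega) (by push_cast; omega)
      have e1 : -((i + 1 : ℕ) : ℤ) + 1 = -(i : ℤ) := by push_cast; ring
      rw [e1] at h2
      push_cast at h2 h3 ⊢
      linarith
  have h1 := hpot n le_rfl
  have h2 : Θ (-(n : ℤ)) ≤ B - ζ * n + Θ 0 := by
    have := (abs_le.1 hB).2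
    linarith
  have h3 : w (-(n : ℤ)) ≤ A * Real.exp (B - ζ * n) := by
    simp only [hw]
    rw [div_le_iff₀ (by linarith [(ha (-(n : ℤ))).2])]
    have h4 : Real.exp (Θ (-(n : ℤ))) ≤ Real.exp (B - ζ * n) := by
      apply Real.exp_le_exp.2
      rw [hΘ0] at h2
      linarith
    have h5 := hA' (-(n : ℤ))
    have h6 := Real.exp_pos (B - ζ * n)
    calc Real.exp (Θ (-(n : ℤ))) ≤ Real.exp (B - ζ * n) * 1 := by rw [mul_one]; exact h4
      _ ≤ Real.exp (B - ζ * n) * (A * (1 - a (-(n : ℤ)))) := mul_le_mul_of_nonneg_left h5 h6.le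
      _ = _ := by ring
  have h4 : 1 ≤ w 0 := by
    simp only [hw]
    rw [hΘ0, Real.exp_zero, le_div_iff₀ (by linarith [(ha 0).2])]
    linarith [(ha 0).1]
  rw [div_le_iff₀ (hwpos 0)]
  have h5 : 0 ≤ A * Real.exp (B - ζ * n) := by positivity
  nlinarith

theorem drift {a : ℤ → ℝ} (ha : Env a) (v Ψ : ℤ → ℝ)
    (hΨ : ∀ k, 1 - a k = a k * Real.exp (v k + (Ψ (k + 1) - Ψ k)))
    (n : ℕ) (y : ℕ) (T : ℕ) (A ζ B : ℝ) (hA : ∀ k, 1 ≤ A * a k) (hA' : ∀ k, 1 ≤ A * (1 - a k))
    (hζ : 0 < ζ) (hζ1 : ζ ≤ 1)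
    (hv : ∀ k : ℤ, -(n : ℤ) ≤ k → k < y → v k ≤ -ζ)
    (hB : ∀ k : ℤ, -(n : ℤ) ≤ k → k ≤ y → |Ψ k - Ψ (-(n : ℤ))| ≤ B)
    (H c : ℝ) (hH : 2 * A * Real.exp (2 * B) / ζ ≤ H) (hc : A * Real.exp (B - ζ * n) ≤ c) :
    ∃ z : ℤ, E a T (fun k => ((k : ℝ) - z) ^ 2) 0 ≤
      3 * E a T (fun k => (max ((k : ℝ) - y) 0) ^ 2) 0 +
      3 * (T * ((1 + H) ^ 2 + 2) + 2 * (T + H * n) * (T * (T * c))) + 3 * H ^ 2 +
      4 * T ^ 2 * (T * c) := by
  obtain ⟨e, he0, henn, he1, hedr, heH'⟩ := exists_cross ha v Ψ hΨ n y A ζ B hA hζ hζ1 hv hB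
  have heH : ∀ k : ℤ, k < y → e k ≤ H := fun k hk => (heH' k hk).trans hH
  have hH1 : 1 ≤ H ∨ (y = 0 ∧ n = 0) := by
    by_cases h : y = 0 ∧ n = 0
    · exact Or.inr h
    · left
      have h1 := he1 (-(n : ℤ)) le_rfl
      exact h1.trans (heH _ (by omega))
  have hA0 : 0 < A := by
    have := hA 0
    nlinarith [(ha 0).1]
  have hH0 : 0 ≤ H := (by positivity : (0 : ℝ) ≤ 2 * A * Real.exp (2 * B) / ζ).trans hH
  obtain ⟨Φ, hΦ0, hΦ⟩ := exists_prim e
  have hmono : Monotone Φ := prim_mono hΦ henn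
  set φ : ℤ → ℝ := fun k => Φ (min k y) with hφ
  set φ1 : ℝ := Φ y with hφ1
  have hφ1nn : 0 ≤ φ1 := by
    have := hmono (show (0 : ℤ) ≤ y by omega)
    rw [hΦ0] at this
    exact this
  have hφle : ∀ k, φ k ≤ φ1 := fun k => hmono (min_le_right _ _)
  have hφeq : ∀ k : ℤ, k ≤ y → φ k = Φ k := fun k hk => by simp only [hφ, min_eq_left hk]
  have hφeq' : ∀ k : ℤ, (y : ℤ) ≤ k → φ k = φ1 := fun k hk => by
    simp only [hφ, min_eq_right hk, hφ1]
  -- value at the left end
  have hleft : ∀ k : ℤ, k ≤ -(n : ℤ) → Φ k = Φ (-(n : ℤ)) := by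
    have : ∀ i : ℕ, Φ (-(n : ℤ) - i) = Φ (-(n : ℤ)) := by
      intro i
      induction i with
      | zero => simp
      | succ i ih =>
        have h1 := hΦ (-(n : ℤ) - (i + 1 : ℕ))
        have e1 : -(n : ℤ) - ((i + 1 : ℕ) : ℤ) + 1 = -(n : ℤ) - i := by push_cast; ring
        rw [e1, ih, he0 _ (by push_cast; omega), add_zero] at h1
        exact h1.symm
    intro k hk
    obtain ⟨i, hi⟩ := Int.eq_ofNat_of_zero_le (show 0 ≤ -(n : ℤ) - k by omega)
    have hk' : k = -(n : ℤ) - i := by omega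
    rw [hk', this]
  have hΦn : -(H * n) ≤ Φ (-(n : ℤ)) := by
    have := prim_le hΦ H (-(n : ℤ)) n fun k h1 h2 => heH k (by omega)
    rw [show -(n : ℤ) + n = 0 by ring, hΦ0] at this
    linarith
  have hΦn0 : Φ (-(n : ℤ)) ≤ 0 := by
    have := hmono (show -(n : ℤ) ≤ 0 by omega)
    rwa [hΦ0] at this
  set cc : ℕ → ℝ := fun t => min (t : ℝ) φ1 with hcc
  have hcc0 : ∀ t, 0 ≤ cc t := fun t => le_min (Nat.cast_nonneg _) hφ1nn
  have hccT : ∀ t, cc t ≤ t := fun t => min_le_left _ _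
  have hccφ : ∀ t, cc t ≤ φ1 := fun t => min_le_right _ _
  have hΔ : ∀ t, 0 ≤ cc (t + 1) - cc t ∧ cc (t + 1) - cc t ≤ 1 := by
    intro t
    simp only [hcc]
    push_cast
    rcases min_cases ((t : ℝ) + 1) φ1 with h | h <;> rcases min_cases (t : ℝ) φ1 with h' | h' <;>
      constructor <;> linarith
  have hΔ' : ∀ t, (1 - (cc (t + 1) - cc t)) * (φ1 - cc t) ≤ 1 := by
    intro t
    have h1 := hΔ t
    by_cases h2 : φ1 ≤ t
    · have : cc t = φ1 := min_eq_right h2
      rw [this]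
      simp
    · push Not at h2
      have h3 : cc t = t := min_eq_left h2.le
      by_cases h4 : (t : ℝ) + 1 ≤ φ1
      · have h5 : cc (t + 1) = t + 1 := by
          simp only [hcc]
          push_cast
          exact min_eq_left h4
        rw [h3, h5]
        nlinarith
      · push Not at h4
        rw [h3] at h1 ⊢
        nlinarith
  set U : ℕ → ℤ → ℝ := fun t k => (φ k - cc t) ^ 2 with hU
  set M : ℝ := (1 + H) ^ 2 + 2 with hM
  have hstep : ∀ t < T, ∀ k : ℤ, |k - 0| ≤ t → K a (U (t + 1)) k ≤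
      U t k + (M + (2 * (T + H * n)) * (if k < -(n : ℤ) then 1 else 0)) := by
    intro t ht k _
    obtain ⟨ha0, ha1⟩ := ha k
    obtain ⟨hd0, hd1⟩ := hΔ t
    have hd2 := hΔ' t
    have htT : (t : ℝ) ≤ T := by exact_mod_cast ht.le
    have hnn : (0 : ℝ) ≤ 2 * (T + H * n) := by positivity
    set Δ := cc (t + 1) - cc t with hΔdef
    have hcc1 : cc (t + 1) = cc t + Δ := by rw [hΔdef]; ring
    have hccφ1 := hccφ (t + 1)
    simp only [K, hU]
    rcases lt_or_ge k (-(n : ℤ)) with hk | hk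
    · rw [if_pos hk]
      have e1 : φ (k + 1) = Φ (-(n : ℤ)) := by
        rw [hφeq _ (by omega), hleft _ (by omega)]
      have e2 : φ (k - 1) = Φ (-(n : ℤ)) := by
        rw [hφeq _ (by omega), hleft _ (by omega)]
      have e3 : φ k = Φ (-(n : ℤ)) := by
        rw [hφeq _ (by omega), hleft _ (by omega)]
      rw [e1, e2, e3, hcc1]
      have h1 : a k * (Φ (-(n : ℤ)) - (cc t + Δ)) ^ 2 + (1 - a k) * (Φ (-(n : ℤ)) - (cc t + Δ)) ^ 2 =
          (Φ (-(n : ℤ)) - cc t) ^ 2 + 2 * Δ * (cc t - Φ (-(n : ℤ))) + Δ ^ 2 := by ring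
      rw [h1]
      have h2 : cc t - Φ (-(n : ℤ)) ≤ T + H * n := by linarith [hccT t]
      have h3 : 0 ≤ cc t - Φ (-(n : ℤ)) := by linarith [hcc0 t]
      have h4 : 2 * Δ * (cc t - Φ (-(n : ℤ))) ≤ 2 * (T + H * n) := by nlinarith
      have h5 : Δ ^ 2 ≤ 1 := by nlinarith
      have h6 : 1 ≤ M := by
        rw [hM]
        nlinarith [sq_nonneg (1 + H)]
      linarith
    · rw [if_neg (by omega), mul_zero, add_zero]
      rcases lt_or_ge k (y : ℤ) with hk2 | hk2
      · have e1 : φ (k + 1) = φ k + e k := by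
          rw [hφeq _ (by omega), hφeq _ (by omega), hΦ k]
        have e2 : φ (k - 1) = φ k - e (k - 1) := by
          rw [hφeq _ (by omega), hφeq _ (by omega)]
          have := hΦ (k - 1)
          rw [sub_add_cancel] at this
          rw [this]
          ring
        have e3 := hedr k hk
        have h1 := heH k hk2
        have h2 := heH (k - 1) (by omega)
        have h3 := henn k
        have h4 := henn (k - 1)
        rw [e1, e2, hcc1]
        set x := φ k - cc t with hx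
        have h5 : a k * (φ k + e k - (cc t + Δ)) ^ 2 +
            (1 - a k) * (φ k - e (k - 1) - (cc t + Δ)) ^ 2 =
            x ^ 2 + 2 * ((1 - Δ) * x) + (Δ ^ 2 - 2 * Δ) +
              (a k * e k ^ 2 + (1 - a k) * e (k - 1) ^ 2) +
              2 * (x - Δ) * (a k * e k - (1 - a k) * e (k - 1) - 1) := by
          rw [hx]
          ring
        rw [h5, e3, sub_self, mul_zero, add_zero]
        have h6 : (1 - Δ) * x ≤ 1 := by
          have : x ≤ φ1 - cc t := by rw [hx]; linarith [hφle k]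
          nlinarith
        have h7 : Δ ^ 2 - 2 * Δ ≤ 0 := by nlinarith
        have h8 : a k * e k ^ 2 + (1 - a k) * e (k - 1) ^ 2 ≤ H ^ 2 := by
          have q1 : e k ^ 2 ≤ H ^ 2 := pow_le_pow_left₀ h3 h1 2
          have q2 : e (k - 1) ^ 2 ≤ H ^ 2 := pow_le_pow_left₀ h4 h2 2
          nlinarith
        rw [hM]
        nlinarith
      · rcases eq_or_lt_of_le hk2 with hk3 | hk3
        · have e1 : φ (k + 1) = φ1 := hφeq' _ (by omega)
          have e0 : φ k = φ1 := hφeq' _ (by omega)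
          have e2 : φ (k - 1) = φ1 - e (k - 1) := by
            rw [hφeq _ (by omega), hφ1]
            have := hΦ (k - 1)
            rw [sub_add_cancel, ← hk3] at this
            rw [← hk3, this]
            ring
          have h2 := heH (k - 1) (by omega)
          have h4 := henn (k - 1)
          rw [e0, e1, e2, hcc1]
          rw [hcc1] at hccφ1
          set x := φ1 - cc t with hx
          have h5 : a k * (φ1 - (cc t + Δ)) ^ 2 + (1 - a k) * (φ1 - e (k - 1) - (cc t + Δ)) ^ 2 =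
              (x - Δ) ^ 2 + (1 - a k) * e (k - 1) ^ 2 -
                2 * ((1 - a k) * (e (k - 1) * (x - Δ))) := by
            rw [hx]
            ring
          rw [h5]
          have h6 : 0 ≤ x - Δ := by rw [hx]; linarith
          have h7 : (x - Δ) ^ 2 ≤ x ^ 2 := pow_le_pow_left₀ h6 (by linarith) 2
          have h8 : (1 - a k) * e (k - 1) ^ 2 ≤ H ^ 2 := by
            have q2 : e (k - 1) ^ 2 ≤ H ^ 2 := pow_le_pow_left₀ h4 h2 2
            nlinarith [sq_nonneg (e (k - 1))]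
          have h9 : 0 ≤ (1 - a k) * (e (k - 1) * (x - Δ)) :=
            mul_nonneg (by linarith) (mul_nonneg h4 h6)
          rw [hM]
          nlinarith
        · have e1 : φ (k + 1) = φ1 := hφeq' _ (by omega)
          have e0 : φ k = φ1 := hφeq' _ (by omega)
          have e2 : φ (k - 1) = φ1 := hφeq' _ (by omega)
          rw [e0, e1, e2, hcc1]
          rw [hcc1] at hccφ1
          have h5 : a k * (φ1 - (cc t + Δ)) ^ 2 + (1 - a k) * (φ1 - (cc t + Δ)) ^ 2 =
              (φ1 - (cc t + Δ)) ^ 2 := by ring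
          rw [h5]
          have h7 : (φ1 - (cc t + Δ)) ^ 2 ≤ (φ1 - cc t) ^ 2 :=
            pow_le_pow_left₀ (by linarith) (by linarith) 2
          have : 0 ≤ M := by rw [hM]; positivity
          linarith
  have hUT := E_le_sum ha T U (fun k => M + (2 * (T + H * n)) * (if k < -(n : ℤ) then 1 else 0)) 0
    hstep
  have hU0 : U 0 0 = 0 := by
    simp only [hU, hcc]
    rw [hφeq 0 (by omega), hΦ0]
    simp [hφ1nn]
  have hEt : ∀ t : ℕ, t ≤ T →
      E a t (fun k => if k < -(n : ℤ) then (1 : ℝ) else 0) 0 ≤ T * c := by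
    intro t ht
    have h1 := left_small ha v Ψ hΨ n A ζ B hA' (fun k h1 h2 => hv k h1 (by omega))
      (hB 0 (by omega) (by omega)) t
    have h2 : (t : ℝ) * (A * Real.exp (B - ζ * n)) ≤ T * c := by
      have h3 : (t : ℝ) ≤ T := by exact_mod_cast ht
      exact mul_le_mul h3 hc (by positivity) (by positivity)
    linarith
  have hUT2 : E a T (U T) 0 ≤ T * M + 2 * (T + H * n) * (T * (T * c)) := by
    rw [hU0, zero_add] at hUT
    refine hUT.trans ?_
    calc ∑ t ∈ range T, E a t (fun k => M + (2 * (T + H * n)) * (if k < -(n : ℤ) then 1 else 0)) 0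
        ≤ ∑ t ∈ range T, (M + (2 * (T + H * n)) * (T * c)) := by
          apply sum_le_sum
          intro t ht
          rw [E_add a t (fun _ => M), E_const, E_mul]
          have := hEt t (by have := mem_range.1 ht; omega)
          have h2 : (0 : ℝ) ≤ 2 * (T + H * n) := by positivity
          nlinarith
      _ = _ := by
        rw [sum_const, card_range, nsmul_eq_mul]
        ring
  -- the centre
  have hz : ∃ z : ℕ, z ≤ y ∧ Φ z ≤ cc T ∧ cc T - Φ z ≤ H := by
    have h1 : ∃ j : ℕ, j ≤ y ∧ Φ j ≤ cc T ∧ ∀ i : ℕ, j < i → i ≤ y → cc T < Φ i := by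
      classical
      refine ⟨Nat.findGreatest (fun j => Φ j ≤ cc T) y, Nat.findGreatest_le _, ?_, ?_⟩
      · have := Nat.findGreatest_spec (P := fun j : ℕ => Φ j ≤ cc T) (m := 0) (n := y)
          (Nat.zero_le _) (by rw [Nat.cast_zero, hΦ0]; exact hcc0 T)
        exact this
      · intro i hi hiy
        have := Nat.findGreatest_is_greatest hi hiy
        exact not_le.1 this
    obtain ⟨j, hj1, hj2, hj3⟩ := h1
    refine ⟨j, hj1, hj2, ?_⟩
    rcases Nat.lt_or_ge j y with h | h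
    · have h2 := hj3 (j + 1) (by omega) (by omega)
      have h3 := hΦ (j : ℤ)
      push_cast at h2
      rw [h3] at h2
      have h4 := heH (j : ℤ) (by omega)
      linarith
    · have : j = y := by omega
      rw [this] at hj2 ⊢
      have := hccφ T
      rw [hφ1] at this
      linarith
  obtain ⟨z, hzy, hz1, hz2⟩ := hz
  have hzlow : ∀ k : ℤ, -(n : ℤ) ≤ k → k ≤ z → ((z : ℝ) - k) ≤ Φ z - Φ k := by
    intro k h1 h2
    obtain ⟨i, hi⟩ := Int.eq_ofNat_of_zero_le (show 0 ≤ (z : ℤ) - k by omega)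
    have := le_prim hΦ 1 k i fun j h3 _ => he1 j (by omega)
    have e1 : k + (i : ℤ) = z := by omega
    rw [e1] at this
    have e2 : (i : ℝ) = (z : ℝ) - k := by
      have : ((i : ℤ) : ℝ) = ((z : ℤ) : ℝ) - (k : ℝ) := by
        rw [← Int.cast_sub]
        congr 1
        omega
      exact_mod_cast this
    linarith
  have hzhigh : ∀ k : ℤ, (z : ℤ) ≤ k → ((k : ℝ) - z) ≤ Φ k - Φ z := by
    intro k h1
    obtain ⟨i, hi⟩ := Int.eq_ofNat_of_zero_le (show 0 ≤ k - (z : ℤ) by omega)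
    have := le_prim hΦ 1 z i fun j h3 _ => he1 j (by omega)
    have e1 : (z : ℤ) + (i : ℤ) = k := by omega
    rw [e1] at this
    have e2 : (i : ℝ) = (k : ℝ) - z := by
      have : ((i : ℤ) : ℝ) = (k : ℝ) - ((z : ℤ) : ℝ) := by
        rw [← Int.cast_sub]
        congr 1
        omega
      exact_mod_cast this
    linarith
  have hzT : (z : ℝ) ≤ T := by
    have h1 := hzlow 0 (by omega) (by omega)
    rw [hΦ0] at h1
    have h2 := hccT T
    push_cast at h1
    linarith
  refine ⟨z, ?_⟩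
  have hfinal : E a T (fun k => ((k : ℝ) - (z : ℤ)) ^ 2) 0 ≤
      E a T (fun k => ((3 * (max ((k : ℝ) - y) 0) ^ 2 + 3 * U T k) + 3 * H ^ 2) +
        (4 * (T : ℝ) ^ 2) * (if k < -(n : ℤ) then 1 else 0)) 0 := by
    apply E_mono_local ha
    intro k hk
    rw [sub_zero, abs_le] at hk
    have hk1 : -(T : ℝ) ≤ k := by exact_mod_cast hk.1
    have hk2 : (k : ℝ) ≤ T := by exact_mod_cast hk.2
    have hU' : 0 ≤ U T k := sq_nonneg _
    have hmx : 0 ≤ (max ((k : ℝ) - y) 0) ^ 2 := sq_nonneg _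
    have hz0 : (0 : ℝ) ≤ z := Nat.cast_nonneg _
    push_cast
    rcases lt_or_ge k (-(n : ℤ)) with h1 | h1
    · rw [if_pos h1]
      have : ((k : ℝ) - z) ^ 2 ≤ 4 * (T : ℝ) ^ 2 := by
        have h2 : |(k : ℝ) - z| ≤ 2 * T := by
          rw [abs_le]
          constructor <;> linarith
        calc ((k : ℝ) - z) ^ 2 = |(k : ℝ) - z| ^ 2 := (sq_abs _).symm
          _ ≤ (2 * (T : ℝ)) ^ 2 := pow_le_pow_left₀ (abs_nonneg _) h2 2
          _ = _ := by ring
      nlinarith [sq_nonneg H]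
    · rw [if_neg (by omega)]
      rcases le_or_gt k (y : ℤ) with h2 | h2
      · have h3 : |(k : ℝ) - z| ≤ |φ k - cc T| + H := by
          rw [hφeq k h2]
          rcases le_or_gt k (z : ℤ) with h4 | h4
          · have h5 := hzlow k h1 h4
            have h6 : (k : ℝ) ≤ z := by exact_mod_cast h4
            rw [abs_of_nonpos (by linarith)]
            have := neg_abs_le (Φ k - cc T)
            linarith
          · have h5 := hzhigh k h4.le
            have h6 : (z : ℝ) < k := by exact_mod_cast h4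
            rw [abs_of_pos (by linarith)]
            have := le_abs_self (Φ k - cc T)
            linarith
        have h4 : ((k : ℝ) - z) ^ 2 ≤ 2 * U T k + 2 * H ^ 2 := by
          calc ((k : ℝ) - z) ^ 2 = |(k : ℝ) - z| ^ 2 := (sq_abs _).symm
            _ ≤ (|φ k - cc T| + H) ^ 2 := pow_le_pow_left₀ (abs_nonneg _) h3 2
            _ ≤ 2 * |φ k - cc T| ^ 2 + 2 * H ^ 2 := by nlinarith [sq_nonneg (|φ k - cc T| - H)]
            _ = _ := by rw [sq_abs]
        nlinarith [sq_nonneg H]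
      · have h3 : (0 : ℝ) < (k : ℝ) - y := by
          have : ((y : ℤ) : ℝ) < k := by exact_mod_cast h2
          push_cast at this
          linarith
        rw [max_eq_left h3.le]
        have h4 := hzhigh y (by omega)
        have h5 : (y : ℝ) - z ≤ |φ k - cc T| + H := by
          rw [hφeq' k h2.le, hφ1]
          have := le_abs_self (Φ y - cc T)
          push_cast at h4
          linarith
        have h6 : (0 : ℝ) ≤ (y : ℝ) - z := by
          have : (z : ℝ) ≤ y := by exact_mod_cast hzy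
          linarith
        have h7 : ((k : ℝ) - z) ^ 2 ≤ ((k - y) + (|φ k - cc T| + H)) ^ 2 := by
          apply pow_le_pow_left₀ (by linarith)
          linarith
        have h8 : ((k - y) + (|φ k - cc T| + H)) ^ 2 ≤
            3 * ((k : ℝ) - y) ^ 2 + 3 * |φ k - cc T| ^ 2 + 3 * H ^ 2 := by
          nlinarith [sq_nonneg ((k : ℝ) - y - |φ k - cc T|), sq_nonneg ((k : ℝ) - y - H),
            sq_nonneg (|φ k - cc T| - H)]
        rw [sq_abs] at h8
        simp only [hU]
        linarith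
  refine hfinal.trans ?_
  rw [E_add a T (fun k => (3 * (max ((k : ℝ) - y) 0) ^ 2 + 3 * U T k) + 3 * H ^ 2)
      (fun k => (4 * (T : ℝ) ^ 2) * (if k < -(n : ℤ) then 1 else 0)),
    E_add a T (fun k => 3 * (max ((k : ℝ) - y) 0) ^ 2 + 3 * U T k) (fun _ => 3 * H ^ 2),
    E_add a T (fun k => 3 * (max ((k : ℝ) - y) 0) ^ 2) (fun k => 3 * U T k),
    E_mul a T 3 (fun k => (max ((k : ℝ) - y) 0) ^ 2), E_mul a T 3 (U T),
    E_mul a T (4 * (T : ℝ) ^ 2) (fun k => if k < -(n : ℤ) then (1 : ℝ) else 0), E_const]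
  have h1 := hEt T le_rfl
  have h2 : 4 * (T : ℝ) ^ 2 * E a T (fun k => if k < -(n : ℤ) then (1 : ℝ) else 0) 0 ≤
      4 * (T : ℝ) ^ 2 * (T * c) := mul_le_mul_of_nonneg_left h1 (by positivity)
  linarith

end Pool.Agent.E8helper72.LW
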