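import Pool.Agent.E8helper72.LW.Pot
import Pool.Agent.E8helper72.LW.Bad
import Pool.Agent.E8helper72.LW.Alpha

/-!
# Variance bound for all symmetric walks over the rotation by `alpha`
-/

namespace Pool.Agent.E8helper72.LW

open Finset MeasureTheory Filter

/-- continuous periodic functions are bounded -/
theorem per_bdd {h : ℝ → ℝ} (hc : Continuous h) (hp : ∀ y, h (y + 1) = h y) :
    ∃ C, 0 ≤ C ∧ ∀ y, |h y| ≤ C := by
  obtain ⟨C, hC⟩ := (isCompact_Icc (a := (0 : ℝ)) (b := 1)).exists_bound_of_continuousOn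
    hc.continuousOn
  refine ⟨|C|, abs_nonneg _, fun y => ?_⟩
  have hp' : Function.Periodic h 1 := hp
  obtain ⟨z, hz, hz'⟩ := hp'.exists_mem_Ico₀ one_pos y
  rw [hz']
  have := hC z (Set.Ico_subset_Icc_self hz)
  rw [Real.norm_eq_abs] at this
  exact this.trans (le_abs_self _)

theorem deriv_per {h : ℝ → ℝ} (hp : ∀ y, h (y + 1) = h y) (y : ℝ) :
    deriv h (y + 1) = deriv h y := by
  have e : (fun y => h (y + 1)) = h := funext hp
  have h1 := deriv_comp_add_const (f := h) (a := 1) (x := y)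
  rw [e] at h1
  exact h1.symm

theorem lip_of_deriv {h : ℝ → ℝ} (hd : Differentiable ℝ h) {C : ℝ} (hC : ∀ y, |deriv h y| ≤ C)
    (y z : ℝ) : |h y - h z| ≤ C * |y - z| := by
  have := Convex.norm_image_sub_le_of_norm_hasDerivWithin_le (f := h) (f' := deriv h) (C := C)
    (s := Set.univ) (x := z) (y := y) (fun x _ => (hd x).hasDerivAt.hasDerivWithinAt)
    (fun x _ => by rw [Real.norm_eq_abs]; exact hC x) convex_univ trivial trivial
  rw [Real.norm_eq_abs, Real.norm_eq_abs] at this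
  exact this

/-- the regularity constants of a symmetric environment -/
theorem exists_Pr (P : ℝ → ℝ) (hP : ContDiff ℝ 2 P) (hper : ∀ y, P (y + 1) = P y)
    (h0 : ∀ y, 0 < P y) (h1 : ∀ y, P y < 1)
    (hsym : ∫ y in (0 : ℝ)..1, Real.log (P y) = ∫ y in (0 : ℝ)..1, Real.log (1 - P y)) :
    ∃ (f f' : ℝ → ℝ) (L A : ℝ), Pr P f f' L A := by
  have h1' : ∀ y, 0 < 1 - P y := fun y => by linarith [h1 y]
  set f : ℝ → ℝ := fun y => Real.log (1 - P y) - Real.log (P y) with hf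
  have hP1 : ContDiff ℝ 2 (fun y => 1 - P y) := contDiff_const.sub hP
  have hf2 : ContDiff ℝ 2 f :=
    (hP1.log fun y => (h1' y).ne').sub (hP.log fun y => (h0 y).ne')
  have hfper : ∀ y, f (y + 1) = f y := fun y => by simp only [hf, hper]
  have e2 : (2 : WithTop ℕ∞) = 1 + 1 := by norm_num
  have hf1 : ContDiff ℝ 1 (deriv f) := by
    rw [e2] at hf2
    exact (contDiff_succ_iff_deriv.1 hf2).2.2
  have hfd : Differentiable ℝ f := hf2.differentiable (by norm_num)
  have hfd' : Differentiable ℝ (deriv f) := hf1.differentiable (by norm_num)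
  have hf0 : Continuous (deriv (deriv f)) := hf1.continuous_deriv le_rfl
  have hPd : Differentiable ℝ P := hP.differentiable (by norm_num)
  obtain ⟨C0, hC0, hC0'⟩ := per_bdd hf2.continuous hfper
  obtain ⟨C1, hC1, hC1'⟩ := per_bdd hf1.continuous (deriv_per hfper)
  obtain ⟨C2, hC2, hC2'⟩ := per_bdd hf0 (deriv_per (deriv_per hfper))
  obtain ⟨C3, hC3, hC3'⟩ := per_bdd (hP.continuous_deriv (by norm_num)) (deriv_per hper)
  obtain ⟨C4, hC4, hC4'⟩ := per_bdd (h := fun y => 1 / P y)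
    (continuous_const.div hP.continuous fun y => (h0 y).ne') (fun y => by simp only [hper])
  obtain ⟨C5, hC5, hC5'⟩ := per_bdd (h := fun y => 1 / (1 - P y))
    (continuous_const.div hP1.continuous fun y => (h1' y).ne') (fun y => by simp only [hper])
  refine ⟨f, deriv f, 1 + C0 + C1 + C2 + C3, 1 + C4 + C5, ?_⟩
  refine
    { fn :=
        { deriv := fun y => (hfd y).hasDerivAt
          bound0 := fun y => (hC0' y).trans (by linarith)
          bound := fun y => (hC1' y).trans (by linarith)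
          lip := lip_of_deriv hfd' (fun y => (hC2' y).trans (by linarith))
          per := hfper
          mean := ?_
          L1 := by linarith }
      p0 := h0
      p1 := h1
      rel := fun y => ?_
      A1 := by linarith
      hA := fun y => ?_
      hA' := fun y => ?_
      lip := lip_of_deriv hPd (fun y => (hC3' y).trans (by linarith))
      per := hper }
  · simp only [hf]
    rw [intervalIntegral.integral_sub, hsym, sub_self]
    · exact (hP1.continuous.log fun y => (h1' y).ne').intervalIntegrable _ _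
    · exact (hP.continuous.log fun y => (h0 y).ne').intervalIntegrable _ _
  · simp only [hf]
    rw [Real.exp_sub, Real.exp_log (h1' y), Real.exp_log (h0 y)]
    have := (h0 y).ne'
    field_simp
  · have h2 := hC4' y
    rw [abs_of_pos (one_div_pos.2 (h0 y)), div_le_iff₀ (h0 y)] at h2
    nlinarith [h0 y]
  · have h2 := hC5' y
    rw [abs_of_pos (one_div_pos.2 (h1' y)), div_le_iff₀ (h1' y)] at h2
    nlinarith [h1' y]

/-- almost every starting point is eventually typical -/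
theorem ae_typical (P f f' : ℝ → ℝ) (L A : ℝ) (h : Pr P f f' L A) :
    ∀ᵐ x ∂(volume.restrict (Set.Icc (0 : ℝ) 1)), ∀ᶠ n in atTop,
      x ∉ badSet (av f (Qn n)) (fun y => (∑ j ∈ range (Qn n), f' ((y + j) / Qn n)) / Qn n / Qn n)
        (Qn n) (Mn n) := by
  set g' : ℕ → ℝ → ℝ := fun n y => (∑ j ∈ range (Qn n), f' ((y + j) / Qn n)) / Qn n / Qn n with hg'
  set s : ℕ → Set ℝ := fun n => if L ≤ Qn n then
    badSet (av f (Qn n)) (g' n) (Qn n) (Mn n) ∩ Set.Icc 0 1 else ∅ with hs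
  have hle : ∀ n, volume (s n) ≤ ENNReal.ofReal (18 * (1 / 2) ^ n) := by
    intro n
    simp only [hs]
    split_ifs with hL
    · refine (volume_bad (av_prof h.fn (Qn n) (Qn_pos n) hL) (Qn n) (Mn n) (Qn_pos n)
        (Mn_pos n)).trans ?_
      apply ENNReal.ofReal_le_ofReal
      have h1 : (2 : ℝ) ^ n ≤ Mn n := by exact_mod_cast Mn_lower n
      have h2 : (1 : ℝ) ≤ Mn n := by exact_mod_cast Mn_pos n
      have h3 : (Mn n : ℝ) ≤ (Mn n : ℝ) ^ 3 := by
        calc (Mn n : ℝ) = (Mn n : ℝ) ^ 1 := (pow_one _).symm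
          _ ≤ _ := pow_le_pow_right₀ h2 (by norm_num)
      rw [one_div, inv_pow, ← div_eq_mul_inv]
      exact div_le_div_of_nonneg_left (by norm_num) (by positivity) (h1.trans h3)
    · simp
  have hsum : (∑' n, volume (s n)) ≠ ⊤ := by
    refine ne_top_of_le_ne_top ?_ (ENNReal.tsum_le_tsum hle)
    rw [← ENNReal.ofReal_tsum_of_nonneg (fun n => by positivity)]
    · exact ENNReal.ofReal_ne_top
    · exact (summable_geometric_of_lt_one (by norm_num) (by norm_num)).mul_left _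
  have hae := ae_eventually_notMem hsum
  rw [ae_restrict_iff' measurableSet_Icc]
  filter_upwards [hae] with x hx hx01
  have hQ : Tendsto (fun n => (Qn n : ℝ)) atTop atTop := by
    apply tendsto_natCast_atTop_atTop.comp
    apply tendsto_atTop_mono (fun n => Qn_lower n)
    exact tendsto_add_atTop_nat 2
  filter_upwards [hx, hQ.eventually_ge_atTop L] with n hn hL hbad
  apply hn
  simp only [hs]
  rw [if_pos hL]
  exact ⟨hbad, hx01⟩

theorem pow_bound (T M : ℕ) (hM : 0 < M) (hT0 : 0 < T) (hT : T ≤ M ^ 241) :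
    (T : ℝ) ^ 2 / M ≤ (T : ℝ) ^ ((2 : ℝ) - 1 / 241) := by
  have hM0 : (0 : ℝ) < M := by exact_mod_cast hM
  have hT0' : (0 : ℝ) < T := by exact_mod_cast hT0
  have h1 : (T : ℝ) ^ ((1 : ℝ) / 241) ≤ M := by
    have h2 : (T : ℝ) ≤ (M : ℝ) ^ 241 := by exact_mod_cast hT
    have h3 := Real.rpow_le_rpow hT0'.le h2 (by norm_num : (0 : ℝ) ≤ 1 / 241)
    rw [← Real.rpow_natCast (M : ℝ) 241, ← Real.rpow_mul hM0.le] at h3
    norm_num at h3 ⊢
    exact h3
  rw [Real.rpow_sub hT0', show ((2 : ℝ)) = ((2 : ℕ) : ℝ) by norm_num, Real.rpow_natCast]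
  exact div_le_div_of_nonneg_left (by positivity) (Real.rpow_pos_of_pos hT0' _) h1

theorem main (P : ℝ → ℝ) (hP : ContDiff ℝ 2 P) (hper : ∀ y, P (y + 1) = P y)
    (h0 : ∀ y, 0 < P y) (h1 : ∀ y, P y < 1)
    (hsym : ∫ y in (0 : ℝ)..1, Real.log (P y) = ∫ y in (0 : ℝ)..1, Real.log (1 - P y)) :
    ∀ᵐ x ∂(volume.restrict (Set.Icc (0 : ℝ) 1)), ∀ᶠ T : ℕ in atTop,
      Var (fun k => P (x + k * alpha)) T ≤ (T : ℝ) ^ ((2 : ℝ) - 1 / 250) := by
  obtain ⟨f, f', L, A, h⟩ := exists_Pr P hP hper h0 h1 hsym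
  filter_upwards [ae_typical P f f' L A h] with x hx
  have hQ : Tendsto (fun n => (Qn n : ℝ)) atTop atTop := by
    apply tendsto_natCast_atTop_atTop.comp
    apply tendsto_atTop_mono (fun n => Qn_lower n)
    exact tendsto_add_atTop_nat 2
  have hev : ∀ᶠ n in atTop, (x ∉ badSet (av f (Qn n))
      (fun y => (∑ j ∈ range (Qn n), f' ((y + j) / Qn n)) / Qn n / Qn n) (Qn n) (Mn n)) ∧
      L ≤ Qn n ∧ (10 ^ 6 * A ^ 2) * Real.exp ((72 * L) * Qn n) ≤ Mn n ∧
      1 * Real.exp (4 * Qn n) ≤ Mn n ∧ (2 * |L|) * Real.exp (0 * Qn n) ≤ Mn n := by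
    filter_upwards [hx, hQ.eventually_ge_atTop L, Mn_large (72 * L) (10 ^ 6 * A ^ 2) (by positivity),
      Mn_large 4 1 (by norm_num), Mn_large 0 (2 * |L|) (by positivity)] with n a b c d e
    exact ⟨a, b, c, d, e⟩
  obtain ⟨N, hN⟩ := eventually_atTop.1 hev
  have hT1 : ∀ᶠ T : ℕ in atTop, (34 : ℝ) ≤ (T : ℝ) ^ ((1 : ℝ) / 2 - 1 / 250) :=
    ((tendsto_rpow_atTop (by norm_num : (0 : ℝ) < 1 / 2 - 1 / 250)).comp
      tendsto_natCast_atTop_atTop).eventually_ge_atTop 34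
  have hT2 : ∀ᶠ T : ℕ in atTop, (12 : ℝ) ≤ (T : ℝ) ^ ((1 : ℝ) / 241 - 1 / 250) :=
    ((tendsto_rpow_atTop (by norm_num : (0 : ℝ) < 1 / 241 - 1 / 250)).comp
      tendsto_natCast_atTop_atTop).eventually_ge_atTop 12
  filter_upwards [hT1, hT2, eventually_ge_atTop (Qn N ^ 4), eventually_ge_atTop 1]
    with T hT1 hT2 hTN hT0
  have hT0' : (0 : ℝ) < T := by exact_mod_cast hT0
  -- find the scale
  have hex : ∃ n, N ≤ n ∧ Qn n ^ 4 ≤ T ∧ T ≤ Qn (n + 1) ^ 4 := by
    by_contra hcon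
    push Not at hcon
    have hall : ∀ n, N ≤ n → Qn n ^ 4 ≤ T := by
      intro n hn
      induction n, hn using Nat.le_induction with
      | base => exact hTN
      | succ n hn ih => exact (hcon n hn ih).le
    have h2 := hall (max N T) (le_max_left _ _)
    have h3 := Qn_lower (max N T)
    have h4 : Qn (max N T) ≤ Qn (max N T) ^ 4 := by
      calc Qn (max N T) = Qn (max N T) ^ 1 := (pow_one _).symm
        _ ≤ _ := Nat.pow_le_pow_right (Qn_pos _) (by norm_num)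
    have h5 : T ≤ max N T := le_max_right _ _
    omega
  obtain ⟨n, hNn, hTn, hTn'⟩ := hex
  obtain ⟨hbad, hLQ, hbig, hQM, hLM⟩ := hN n hNn
  obtain ⟨δ, hα, hδ0, hδ1, hδ2, -, -⟩ := alpha_eq n
  have hQ0 : (0 : ℝ) < Qn n := by exact_mod_cast Qn_pos n
  have hQM4 : Qn n ^ 4 ≤ Mn n := by
    have h2 : (Qn n : ℝ) ^ 4 ≤ Mn n := by
      have h3 : (Qn n : ℝ) ≤ Real.exp (Qn n) := by linarith [Real.add_one_le_exp (Qn n : ℝ)]
      calc (Qn n : ℝ) ^ 4 ≤ Real.exp (Qn n) ^ 4 := pow_le_pow_left₀ hQ0.le h3 4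
        _ = 1 * Real.exp (4 * Qn n) := by
          rw [← Real.exp_nat_mul, one_mul]
          norm_num
        _ ≤ _ := hQM
    exact_mod_cast h2
  have hTM : T ≤ Mn n ^ 241 := by
    calc T ≤ Qn (n + 1) ^ 4 := hTn'
      _ = Qn n ^ 4 * Mn n ^ 240 := by rw [Qn_succ]; ring
      _ ≤ Mn n * Mn n ^ 240 := Nat.mul_le_mul_right _ hQM4
      _ = _ := by ring
  have hpow := pow_bound T (Mn n) (Mn_pos n) hT0 hTM
  rw [hα]
  have hbig' : 10 ^ 6 * A ^ 2 * Real.exp (4 * (18 * L * Qn n)) ≤ Mn n := by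
    rw [show 4 * (18 * L * (Qn n : ℝ)) = (72 * L) * Qn n by ring]
    exact hbig
  have hSc := mkSc h (Pn n) (Qn n) (Qn_pos n) hLQ (coprime_PQ n) δ (Mn n) hδ0 hδ1 hδ2 hbig' x
  have hfin12 : 12 * (T : ℝ) ^ ((2 : ℝ) - 1 / 241) ≤ (T : ℝ) ^ ((2 : ℝ) - 1 / 250) := by
    calc 12 * (T : ℝ) ^ ((2 : ℝ) - 1 / 241) ≤
          (T : ℝ) ^ ((1 : ℝ) / 241 - 1 / 250) * (T : ℝ) ^ ((2 : ℝ) - 1 / 241) :=
          mul_le_mul_of_nonneg_right hT2 (Real.rpow_nonneg hT0'.le _)
      _ = _ := by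
        rw [← Real.rpow_add hT0']
        norm_num
  rcases le_total T (Mn n ^ 20) with h20 | h20
  · -- short times
    have hLM' : 2 * L ≤ Mn n := by
      rw [zero_mul, Real.exp_zero, mul_one] at hLM
      linarith [le_abs_self L]
    have h2 := Var_short h (Pn n) (Qn n) (Qn_pos n) δ (Mn n) hδ0 hδ2 hLM' x T hT0 h20
    refine h2.trans ?_
    have h3 : (Qn n : ℝ) ^ 2 ≤ (T : ℝ) ^ ((1 : ℝ) / 2) := by
      have h4 : ((Qn n : ℝ) ^ 2) ^ 2 ≤ T := by
        rw [← pow_mul]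
        exact_mod_cast hTn
      rw [← Real.sqrt_eq_rpow]
      exact Real.le_sqrt_of_sq_le h4
    calc 34 * (Qn n : ℝ) ^ 2 * T ≤ 34 * (T : ℝ) ^ ((1 : ℝ) / 2) * T := by
          apply mul_le_mul_of_nonneg_right _ hT0'.le
          linarith
      _ ≤ (T : ℝ) ^ ((1 : ℝ) / 2 - 1 / 250) * (T : ℝ) ^ ((1 : ℝ) / 2) * T := by
          apply mul_le_mul_of_nonneg_right _ hT0'.le
          exact mul_le_mul_of_nonneg_right hT1 (Real.rpow_nonneg hT0'.le _)
      _ = (T : ℝ) ^ ((1 : ℝ) / 2 - 1 / 250) * (T : ℝ) ^ ((1 : ℝ) / 2) * (T : ℝ) ^ (1 : ℝ) := by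
          rw [Real.rpow_one]
      _ = _ := by
          rw [← Real.rpow_add hT0', ← Real.rpow_add hT0']
          norm_num
  · rcases le_total T (Mn n ^ 61) with h61 | h61
    · have h2 := hSc.Var_mid (fun hg => by
        by_contra hcon
        push Not at hcon
        exact hbad ⟨hg, hcon⟩) T h20 h61
      refine (h2.trans hpow).trans ?_
      have h3 : 0 ≤ (T : ℝ) ^ ((2 : ℝ) - 1 / 241) := Real.rpow_nonneg hT0'.le _
      linarith
    · have h2 := hSc.Var_long T h61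
      refine h2.trans ?_
      have h3 : 12 * (T : ℝ) ^ 2 / Mn n = 12 * ((T : ℝ) ^ 2 / Mn n) := by ring
      rw [h3]
      linarith

theorem Var_nonneg {a : ℤ → ℝ} (ha : Env a) (t : ℕ) : 0 ≤ Var a t := by
  set c := E a t (fun k => (k : ℝ)) 0 with hc
  have h : E a t (fun k => ((k : ℝ) - c) ^ 2) 0 = Var a t := by
    rw [Var_eq, ← hc]
    have e : (fun k : ℤ => ((k : ℝ) - c) ^ 2) =
        fun k : ℤ => ((k : ℝ) ^ 2 + (-(2 * c)) * (k : ℝ)) + c ^ 2 := by
      funext k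
      ring
    rw [e, E_add a t (fun k : ℤ => (k : ℝ) ^ 2 + (-(2 * c)) * (k : ℝ)) (fun _ => c ^ 2), E_const,
      E_add a t (fun k : ℤ => (k : ℝ) ^ 2) (fun k : ℤ => (-(2 * c)) * (k : ℝ)), E_mul, ← hc]
    ring
  rw [← h]
  exact E_nonneg ha t 0 fun j => sq_nonneg _

theorem limsup_le {V : ℕ → ℝ} (hV : ∀ T, 0 ≤ V T) (c : ℝ) (hc : 0 ≤ c)
    (h : ∀ᶠ T : ℕ in atTop, V T ≤ (T : ℝ) ^ c) :
    limsup (fun T : ℕ => ((Real.log (V T) / Real.log T : ℝ) : EReal)) atTop ≤ (c : EReal) := by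
  apply limsup_le_of_le
  · isBoundedDefault
  filter_upwards [h, eventually_ge_atTop 2] with T hT hT2
  have hT2' : (2 : ℝ) ≤ T := by exact_mod_cast hT2
  have hlog : 0 < Real.log T := Real.log_pos (by linarith)
  apply EReal.coe_le_coe_iff.2
  rw [div_le_iff₀ hlog]
  rcases eq_or_lt_of_le (hV T) with h0 | h0
  · rw [← h0, Real.log_zero]
    positivity
  · have := Real.log_le_log h0 hT
    rwa [Real.log_rpow (by linarith)] at this

end Pool.Agent.E8helper72.LW
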