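import Pool.Agent.E8helper72.LW.Scale

/-!
# Intermediate times
-/

namespace Pool.Agent.E8helper72.LW

open Finset

namespace Sc

variable {a : ℤ → ℝ} {g g' : ℝ → ℝ} {θ β A B : ℝ} {M : ℕ}

theorem slow_right (h : Sc a g g' θ β A B M) (hθ : |g θ| < 2 / (M : ℝ) ^ 9)
    (hd : -(1 / (M : ℝ) ^ 3) ≤ g' θ) (T : ℕ) (h1 : M ^ 20 ≤ T) (h2 : T ≤ M ^ 61) :
    E a T (fun k => (max (k : ℝ) 0) ^ 2) 0 ≤ Real.exp (4 * B) * T ^ 2 * (19 / (M : ℝ) ^ 2) := by
  have hM0 := h.M_pos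
  have hM6 := h.M_large
  have hM1 : (1 : ℝ) ≤ M := by linarith
  have hz := (h.zone 0 (by omega) (fun k hk1 hk2 => by
    push_cast at hk1 hk2
    rw [zero_add] at hk2
    have hk0 : (0 : ℝ) ≤ k := by exact_mod_cast hk1.le
    have hkM : (k : ℝ) ≤ (M : ℝ) ^ 57 := by exact_mod_cast hk2.le
    have hs0 : 0 ≤ k * β := mul_nonneg hk0 h.β_pos.le
    have hs1 : k * β ≤ 2 / (M : ℝ) ^ 3 := by
      rw [le_div_iff₀ (by positivity)]
      calc (k : ℝ) * β * (M : ℝ) ^ 3 ≤ (M : ℝ) ^ 57 * β * (M : ℝ) ^ 3 := by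
            apply mul_le_mul_of_nonneg_right _ (by positivity)
            exact mul_le_mul_of_nonneg_right hkM h.β_pos.le
        _ = β * (M : ℝ) ^ 60 := by ring
        _ ≤ 2 := h.β2
    have h3 := h.prof.taylor θ (k * β) hs0
    have h4 : -(g' θ * (k * β)) ≤ 1 / (M : ℝ) ^ 3 * (2 / (M : ℝ) ^ 3) := by
      have : -(g' θ * (k * β)) = (-g' θ) * (k * β) := by ring
      rw [this]
      calc (-g' θ) * (k * β) ≤ 1 / (M : ℝ) ^ 3 * (k * β) :=
            mul_le_mul_of_nonneg_right (by linarith) hs0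
        _ ≤ _ := mul_le_mul_of_nonneg_left hs1 (by positivity)
    have h5 : (k * β) ^ 2 ≤ (2 / (M : ℝ) ^ 3) ^ 2 := pow_le_pow_left₀ hs0 hs1 2
    have e1 : 1 / (M : ℝ) ^ 3 * (2 / (M : ℝ) ^ 3) = 2 / (M : ℝ) ^ 6 := by
      rw [div_mul_div_comm, ← pow_add, one_mul]
    have e2 : (2 / (M : ℝ) ^ 3) ^ 2 = 4 / (M : ℝ) ^ 6 := by
      rw [div_pow, ← pow_mul]
      norm_num
    have e3 : 2 / (M : ℝ) ^ 9 ≤ 2 / (M : ℝ) ^ 6 := by
      apply div_le_div_of_nonneg_left (by norm_num) (by positivity)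
      exact pow_le_pow_right₀ hM1 (by norm_num)
    have e4 := (abs_lt.1 hθ).1
    have e5 : 2 / (M : ℝ) ^ 6 + 2 / (M : ℝ) ^ 6 + 4 / (M : ℝ) ^ 6 / 2 ≤ 9 / (M : ℝ) ^ 6 := by
      rw [show 2 / (M : ℝ) ^ 6 + 2 / (M : ℝ) ^ 6 + 4 / (M : ℝ) ^ 6 / 2 = 6 / (M : ℝ) ^ 6 by ring]
      apply div_le_div_of_nonneg_right (by norm_num) (by positivity)
    linarith) T h2).1 h1
  simpa using hz

theorem case_slow (h : Sc a g g' θ β A B M) (hθ : |g θ| < 2 / (M : ℝ) ^ 9)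
    (hd : -(1 / (M : ℝ) ^ 3) ≤ g' θ) (T : ℕ) (h1 : M ^ 20 ≤ T) (h2 : T ≤ M ^ 61) :
    Var a T ≤ (T : ℝ) ^ 2 / M := by
  have hM0 := h.M_pos
  have hV := Var_le (a := a) T 0
  have q1 := h.slow_right hθ hd T h1 h2
  have q2 := h.reflect.slow_right (by simp only [neg_neg, abs_neg]; exact hθ)
    (by simp only [neg_neg]; exact hd) T h1 h2
  have h3 := E_reflect a T (fun k => (max (-(k : ℝ)) 0) ^ 2) 0
  rw [neg_zero] at h3
  push_cast at h3
  simp only [neg_neg] at h3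
  rw [← h3] at q2
  have h4 : E a T (fun k => ((k : ℝ) - 0) ^ 2) 0 =
      E a T (fun k => (max (k : ℝ) 0) ^ 2 + (max (-(k : ℝ)) 0) ^ 2) 0 := by
    congr 1
    funext k
    rcases le_total (k : ℝ) 0 with h5 | h5
    · rw [max_eq_right h5, max_eq_left (by linarith)]
      ring
    · rw [max_eq_left h5, max_eq_right (by linarith)]
      ring
  rw [h4, E_add a T (fun k => (max (k : ℝ) 0) ^ 2) (fun k => (max (-(k : ℝ)) 0) ^ 2)] at hV
  have hE := h.exp_le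
  have hE0 := Real.exp_pos (4 * B)
  have h5 : Real.exp (4 * B) * (T : ℝ) ^ 2 * (19 / (M : ℝ) ^ 2) ≤ (T : ℝ) ^ 2 / M / 2 := by
    have : Real.exp (4 * B) * (T : ℝ) ^ 2 * (19 / (M : ℝ) ^ 2) =
        (T : ℝ) ^ 2 / M * (19 * Real.exp (4 * B) / M) := by
      field_simp
    rw [this]
    have h6 : 19 * Real.exp (4 * B) / M ≤ 1 / 2 := by
      rw [div_le_iff₀ hM0]
      linarith
    calc (T : ℝ) ^ 2 / M * (19 * Real.exp (4 * B) / M) ≤ (T : ℝ) ^ 2 / M * (1 / 2) :=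
          mul_le_mul_of_nonneg_left h6 (by positivity)
      _ = _ := by ring
  linarith

theorem case_drift (h : Sc a g g' θ β A B M) (hθ : g θ ≤ -(2 / (M : ℝ) ^ 9))
    (T : ℕ) (h1 : M ^ 20 ≤ T) (h2 : T ≤ M ^ 61) :
    Var a T ≤ (T : ℝ) ^ 2 / M := by
  have hM0 := h.M_pos
  have hM6 := h.M_large
  have hM1 : (1 : ℝ) ≤ M := by linarith
  have hMn : 1 ≤ M := by exact_mod_cast hM1
  have hβ := h.β_pos
  have hpow : ∀ i j : ℕ, i ≤ j → (M : ℝ) ^ i ≤ (M : ℝ) ^ j := fun i j hij =>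
    pow_le_pow_right₀ hM1 hij
  have hpowZ : ∀ i j : ℕ, i ≤ j → (M : ℤ) ^ i ≤ (M : ℤ) ^ j := fun i j hij =>
    pow_le_pow_right₀ (by omega) hij
  set ζ : ℝ := 1 / (M : ℝ) ^ 9 with hζ
  have hζ0 : 0 < ζ := by positivity
  have hζ1 : ζ ≤ 1 := by
    rw [hζ, div_le_one (by positivity)]
    exact one_le_pow₀ hM1
  obtain ⟨s, hs0, hs1, hlt, hgs, hds⟩ := h.prof.exists_first θ ζ hζ0 (by
    rw [hζ]
    have : 2 * (1 / (M : ℝ) ^ 9) = 2 / (M : ℝ) ^ 9 := by ring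
    rw [this]
    exact hθ)
  obtain ⟨hy, hph1, hph2⟩ := h.phase s hs0.le hs1
  set y := ⌈s / β⌉₊ with hydef
  have hyZ : (y : ℤ) ≤ (M : ℤ) ^ 60 + 1 := by exact_mod_cast hy
  -- the zone to the right
  have hz := (h.zone y hy (fun k hk1 hk2 => by
    obtain ⟨q1, q2⟩ := hph2 k hk1.le hk2
    have h3 := h.prof.taylor (θ + s) (k * β - s) q1
    rw [show θ + s + (k * β - s) = θ + k * β by ring] at h3
    have h4 : (k * β - s) ^ 2 ≤ (4 / (M : ℝ) ^ 3) ^ 2 := pow_le_pow_left₀ q1 q2 2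
    have h5 : (4 / (M : ℝ) ^ 3) ^ 2 = 16 / (M : ℝ) ^ 6 := by
      rw [div_pow, ← pow_mul]
      norm_num
    have h6 : 0 ≤ g' (θ + s) * (k * β - s) := mul_nonneg hds q1
    have h7 : ζ ≤ 1 / (M : ℝ) ^ 6 :=
      one_div_le_one_div_of_le (by positivity) (hpow _ _ (by norm_num))
    have h8 : 1 / (M : ℝ) ^ 6 + 16 / (M : ℝ) ^ 6 / 2 = 9 / (M : ℝ) ^ 6 := by ring
    linarith) T h2).1 h1
  -- the region of drift
  obtain ⟨Ψ, hΨ, hΨB⟩ := h.pot
  set n : ℕ := M ^ 50 with hn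
  have hnR : (n : ℝ) = (M : ℝ) ^ 50 := by rw [hn]; push_cast; rfl
  have hnZ : (n : ℤ) = (M : ℤ) ^ 50 := by rw [hn]; push_cast; rfl
  have hv : ∀ k : ℤ, -(n : ℤ) ≤ k → k < y → g (θ + k * β) ≤ -ζ := by
    intro k hk1 hk2
    rcases lt_or_ge k 0 with hk0 | hk0
    · have h3 := h.prof.lipschitz (θ + k * β) θ
      rw [add_sub_cancel_left] at h3
      have hk1R : -(n : ℝ) ≤ k := by exact_mod_cast hk1
      have hk0R : (k : ℝ) ≤ 0 := by exact_mod_cast hk0.le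
      have h4 : |(k : ℝ) * β| ≤ ζ := by
        rw [abs_mul, abs_of_nonpos hk0R, abs_of_pos hβ]
        calc -(k : ℝ) * β ≤ n * β := mul_le_mul_of_nonneg_right (by linarith) hβ.le
          _ ≤ ζ := by
            rw [hζ, le_div_iff₀ (by positivity), hnR]
            have : (M : ℝ) ^ 50 * β * (M : ℝ) ^ 9 * M = β * (M : ℝ) ^ 60 := by ring
            have h5 := h.β2
            rw [← this] at h5
            nlinarith
      have h5 := le_abs_self (g (θ + k * β) - g θ)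
      have h6 : 2 * ζ = 2 / (M : ℝ) ^ 9 := by rw [hζ]; ring
      linarith
    · have hk0R : (0 : ℝ) ≤ k := by exact_mod_cast hk0
      exact (hlt _ (mul_nonneg hk0R hβ.le) (hph1 k hk2)).le
  set X : ℝ := Real.exp (2 * B) with hX
  have hX1 : 1 ≤ X := Real.one_le_exp (by linarith [h.B0])
  have hA1 := h.A1
  set P : ℝ := A ^ 2 * X ^ 2 with hP
  have hP1 : 1 ≤ P := by
    rw [hP]
    nlinarith [one_le_pow₀ hA1 (n := 2), one_le_pow₀ hX1 (n := 2)]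
  have hX2 : X ^ 2 = Real.exp (4 * B) := by
    rw [hX, ← Real.exp_nat_mul]
    congr 1
    push_cast
    ring
  have hPM : 10 ^ 6 * P ≤ M := by
    rw [hP, hX2]
    have := h.big
    linarith
  have hAX : A * X ≤ P := by
    rw [hP]
    have h3 : 1 ≤ A * X := by nlinarith
    nlinarith
  have hAX0 : 0 < A * X := by positivity
  set H : ℝ := 2 * (A * X) * (M : ℝ) ^ 9 with hH
  set c : ℝ := 40320 * (A * X) / (M : ℝ) ^ 328 with hc
  have hHle : 2 * A * Real.exp (2 * B) / ζ ≤ H := by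
    rw [hH, hζ, ← hX]
    apply le_of_eq
    field_simp
  have hcle : A * Real.exp (B - ζ * n) ≤ c := by
    have e1 : ζ * n = (M : ℝ) ^ 41 := by
      rw [hζ, hnR, one_div, inv_mul_eq_div, div_eq_iff (by positivity), ← pow_add]
    rw [e1, hc, sub_eq_add_neg, Real.exp_add]
    have h3 := Real.pow_div_factorial_le_exp ((M : ℝ) ^ 41) (by positivity) 8
    have e2 : (((M : ℝ) ^ 41) ^ 8) / (Nat.factorial 8 : ℕ) = (M : ℝ) ^ 328 / 40320 := by
      rw [← pow_mul]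
      norm_num [Nat.factorial]
    rw [e2] at h3
    have h4 : Real.exp (-(M : ℝ) ^ 41) ≤ 40320 / (M : ℝ) ^ 328 := by
      rw [Real.exp_neg, inv_le_comm₀ (Real.exp_pos _) (by positivity), inv_div]
      exact h3
    have h5 : Real.exp B ≤ X := Real.exp_le_exp.2 (by linarith [h.B0])
    calc A * (Real.exp B * Real.exp (-(M : ℝ) ^ 41)) ≤ A * (X * (40320 / (M : ℝ) ^ 328)) := by
          apply mul_le_mul_of_nonneg_left _ (by linarith)
          exact mul_le_mul h5 h4 (Real.exp_pos _).le (by linarith)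
      _ = _ := by ring
  obtain ⟨z, hz2⟩ := drift h.env (fun k => g (θ + k * β)) Ψ hΨ n y T A ζ B h.hA h.hA' hζ0 hζ1 hv
    (fun k hk1 hk2 => hΨB _ _ (by
      have q1 := hpowZ 50 60 (by norm_num)
      have q2 := hpowZ 0 60 (by norm_num)
      rw [pow_zero] at q2
      rw [abs_of_nonneg (by omega)]
      omega)) H c hHle hcle
  have hV := (Var_le (a := a) T (z : ℝ)).trans hz2
  -- estimates
  have hTR1 : (M : ℝ) ^ 20 ≤ T := by exact_mod_cast h1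
  have hTR2 : (T : ℝ) ≤ (M : ℝ) ^ 61 := by exact_mod_cast h2
  have hT0 : (0 : ℝ) < T := lt_of_lt_of_le (by positivity) hTR1
  set W : ℝ := P * ((T : ℝ) ^ 2 / (M : ℝ) ^ 2) with hW
  have b1 : Real.exp (4 * B) * (T : ℝ) ^ 2 * (19 / (M : ℝ) ^ 2) ≤ 19 * W := by
    rw [← hX2, hW, hP]
    have h3 : X ^ 2 ≤ A ^ 2 * X ^ 2 := by
      nlinarith [one_le_pow₀ hA1 (n := 2), sq_nonneg X]
    calc X ^ 2 * (T : ℝ) ^ 2 * (19 / (M : ℝ) ^ 2) = 19 * (X ^ 2 * ((T : ℝ) ^ 2 / (M : ℝ) ^ 2)) := by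
          ring
      _ ≤ _ := by
        apply mul_le_mul_of_nonneg_left _ (by norm_num)
        exact mul_le_mul_of_nonneg_right h3 (by positivity)
  have hH1 : 1 ≤ (A * X) * (M : ℝ) ^ 9 := by
    have : (1 : ℝ) ≤ (M : ℝ) ^ 9 := one_le_pow₀ hM1
    nlinarith
  have b2' : (1 + H) ^ 2 + 2 ≤ 11 * (P * (M : ℝ) ^ 18) := by
    have e1 : P * (M : ℝ) ^ 18 = ((A * X) * (M : ℝ) ^ 9) ^ 2 := by rw [hP]; ring
    rw [e1, hH]
    nlinarith
  have hT18 : (T : ℝ) * (M : ℝ) ^ 18 ≤ (T : ℝ) ^ 2 / (M : ℝ) ^ 2 := by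
    rw [le_div_iff₀ (by positivity)]
    calc (T : ℝ) * (M : ℝ) ^ 18 * (M : ℝ) ^ 2 = (T : ℝ) * (M : ℝ) ^ 20 := by ring
      _ ≤ (T : ℝ) * (T : ℝ) := mul_le_mul_of_nonneg_left hTR1 hT0.le
      _ = (T : ℝ) ^ 2 := by ring
  have b2 : (T : ℝ) * ((1 + H) ^ 2 + 2) ≤ 11 * W := by
    calc (T : ℝ) * ((1 + H) ^ 2 + 2) ≤ T * (11 * (P * (M : ℝ) ^ 18)) :=
          mul_le_mul_of_nonneg_left b2' hT0.le
      _ = 11 * (P * (T * (M : ℝ) ^ 18)) := by ring
      _ ≤ _ := by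
        apply mul_le_mul_of_nonneg_left _ (by norm_num)
        exact mul_le_mul_of_nonneg_left hT18 (by linarith)
  have b3 : H ^ 2 ≤ 4 * W := by
    have h3 : H ^ 2 = 4 * (P * (M : ℝ) ^ 18) := by rw [hH, hP]; ring
    rw [h3]
    apply mul_le_mul_of_nonneg_left _ (by norm_num)
    apply mul_le_mul_of_nonneg_left _ (by linarith)
    refine le_trans ?_ hT18
    have hT1 : (1 : ℝ) ≤ T := (one_le_pow₀ hM1).trans hTR1
    have h60 : (0 : ℝ) ≤ (M : ℝ) ^ 18 := by positivity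
    nlinarith
  have hAXM : 2 * (A * X) ≤ M := by linarith
  have b4' : (T : ℝ) + H * n ≤ 2 * (M : ℝ) ^ 61 := by
    rw [hnR, hH]
    have : 2 * (A * X) * (M : ℝ) ^ 9 * (M : ℝ) ^ 50 ≤ M * (M : ℝ) ^ 9 * (M : ℝ) ^ 50 := by
      apply mul_le_mul_of_nonneg_right _ (by positivity)
      exact mul_le_mul_of_nonneg_right hAXM (by positivity)
    have e1 : (M : ℝ) * (M : ℝ) ^ 9 * (M : ℝ) ^ 50 = (M : ℝ) ^ 60 := by ring
    have e2 := hpow 60 61 (by norm_num)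
    linarith
  have hc0 : 0 ≤ c := by rw [hc]; positivity
  have b5' : (M : ℝ) ^ 61 * c ≤ P * (1 / (M : ℝ) ^ 2) / 4 := by
    have e1 : (M : ℝ) ^ 61 * c = (A * X) * (1 / (M : ℝ) ^ 2) * (40320 / (M : ℝ) ^ 265) := by
      rw [hc]
      field_simp
    rw [e1]
    have e2 : (40320 : ℝ) / (M : ℝ) ^ 265 ≤ 1 / 4 := by
      rw [div_le_div_iff₀ (by positivity) (by norm_num)]
      have := hpow 1 265 (by norm_num)
      rw [pow_one] at this
      linarith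
    calc (A * X) * (1 / (M : ℝ) ^ 2) * (40320 / (M : ℝ) ^ 265) ≤
          (A * X) * (1 / (M : ℝ) ^ 2) * (1 / 4) := mul_le_mul_of_nonneg_left e2 (by positivity)
      _ ≤ P * (1 / (M : ℝ) ^ 2) * (1 / 4) := by
        apply mul_le_mul_of_nonneg_right _ (by norm_num)
        exact mul_le_mul_of_nonneg_right hAX (by positivity)
      _ = _ := by ring
  have b5 : (T : ℝ) ^ 2 * (T * c) ≤ W / 4 := by
    have h3 : (T : ℝ) * c ≤ (M : ℝ) ^ 61 * c := mul_le_mul_of_nonneg_right hTR2 hc0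
    calc (T : ℝ) ^ 2 * (T * c) ≤ (T : ℝ) ^ 2 * (P * (1 / (M : ℝ) ^ 2) / 4) :=
          mul_le_mul_of_nonneg_left (h3.trans b5') (by positivity)
      _ = _ := by rw [hW]; ring
  have b4 : 2 * ((T : ℝ) + H * n) * (T * (T * c)) ≤ W := by
    calc 2 * ((T : ℝ) + H * n) * (T * (T * c)) ≤ 2 * (2 * (M : ℝ) ^ 61) * (T * (T * c)) := by
          apply mul_le_mul_of_nonneg_right _ (by positivity)
          linarith
      _ = 4 * ((T : ℝ) ^ 2 * ((M : ℝ) ^ 61 * c)) := by ring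
      _ ≤ 4 * ((T : ℝ) ^ 2 * (P * (1 / (M : ℝ) ^ 2) / 4)) := by
        apply mul_le_mul_of_nonneg_left _ (by norm_num)
        exact mul_le_mul_of_nonneg_left b5' (by positivity)
      _ = W := by rw [hW]; ring
  have hWle : 200 * W ≤ (T : ℝ) ^ 2 / M := by
    have e1 : W = (P / M) * ((T : ℝ) ^ 2 / M) := by
      rw [hW]
      field_simp
    have e2 : P / M ≤ 1 / 200 := by
      rw [div_le_div_iff₀ hM0 (by norm_num)]
      linarith
    rw [e1]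
    have : (P / M) * ((T : ℝ) ^ 2 / M) ≤ 1 / 200 * ((T : ℝ) ^ 2 / M) :=
      mul_le_mul_of_nonneg_right e2 (by positivity)
    linarith
  have hW0 : 0 ≤ W := by positivity
  have hz' : E a T (fun k => (max ((k : ℝ) - y) 0) ^ 2) 0 ≤ 19 * W := hz.trans b1
  have b6 : 4 * (T : ℝ) ^ 2 * (T * c) ≤ W := by
    have : 4 * (T : ℝ) ^ 2 * (T * c) = 4 * ((T : ℝ) ^ 2 * (T * c)) := by ring
    rw [this]
    linarith
  calc Var a T ≤ _ := hV
    _ ≤ 3 * (19 * W) + 3 * (11 * W + W) + 3 * (4 * W) + W := by linarith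
    _ ≤ 200 * W := by linarith
    _ ≤ _ := hWle

theorem Var_reflect (a : ℤ → ℝ) (T : ℕ) : Var (fun j => 1 - a (-j)) T = Var a T := by
  rw [Var_eq, Var_eq]
  have h1 := E_reflect a T (fun k => (k : ℝ) ^ 2) 0
  have h2 := E_reflect a T (fun k => (k : ℝ)) 0
  rw [neg_zero] at h1 h2
  rw [h1, h2]
  have e1 : (fun k : ℤ => ((-k : ℤ) : ℝ) ^ 2) = fun k : ℤ => (k : ℝ) ^ 2 := by
    funext k
    push_cast
    ring
  have e2 : (fun k : ℤ => ((-k : ℤ) : ℝ)) = fun k : ℤ => (-1 : ℝ) * (k : ℝ) := by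
    funext k
    push_cast
    ring
  rw [e1, e2, E_mul]
  ring

theorem Var_mid (h : Sc a g g' θ β A B M)
    (hx : |g θ| < 2 / (M : ℝ) ^ 9 → -(1 / (M : ℝ) ^ 3) ≤ g' θ)
    (T : ℕ) (h1 : M ^ 20 ≤ T) (h2 : T ≤ M ^ 61) : Var a T ≤ (T : ℝ) ^ 2 / M := by
  rcases lt_or_ge (|g θ|) (2 / (M : ℝ) ^ 9) with h3 | h3
  · exact h.case_slow h3 (hx h3) T h1 h2
  · rcases le_abs.1 h3 with h4 | h4
    · have := h.reflect.case_drift (by simp only [neg_neg]; linarith) T h1 h2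
      rwa [Var_reflect] at this
    · exact h.case_drift (by linarith) T h1 h2

end Sc

end Pool.Agent.E8helper72.LW
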