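import Pool.Agent.E8helper72.LW.Zone

/-!
# Diffusive bound in nearly periodic environments
-/

namespace Pool.Agent.E8helper72.LW

open Finset

/-- The harmonic coordinate of a periodic environment. -/
theorem exists_corrector {a : ℤ → ℝ} (ha : Env a) (q : ℕ) (hq : 1 ≤ q)
    (hper : ∀ k, a (k + q) = a k) :
    ∃ (D : ℤ → ℝ) (u : ℝ), (∀ k, 0 < D k) ∧ (∀ k, D (k + q) = D k) ∧
      (∀ k, a k * D k - (1 - a k) * D (k - 1) = u) ∧ ∑ j ∈ range q, D j = q := by
  -- it suffices to find a solution without the normalisation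
  suffices h : ∃ (d : ℕ → ℝ) (u : ℝ), (∀ n ≤ q, 0 < d n) ∧ d q = d 0 ∧
      ∀ n < q, a (n + 1 : ℕ) * d (n + 1) - (1 - a (n + 1 : ℕ)) * d n = u by
    obtain ⟨d, u, h1, h2, h3⟩ := h
    set D : ℤ → ℝ := fun k => d (k % q).toNat with hD
    have hq0 : (0 : ℤ) < q := by exact_mod_cast hq
    have hmod : ∀ k : ℤ, 0 ≤ k % q ∧ k % q < q := fun k =>
      ⟨Int.emod_nonneg _ hq0.ne', Int.emod_lt_of_pos _ hq0⟩
    have hDpos : ∀ k, 0 < D k := fun k => h1 _ (by have := hmod k; omega)
    have hDper : ∀ k, D (k + q) = D k := fun k => by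
      simp only [hD, Int.add_emod_right]
    have hamod : ∀ k : ℤ, a k = a (k % q) := by
      intro k
      have key : ∀ (j : ℕ) (m : ℤ), a (m + q * j) = a m := by
        intro j m
        induction j with
        | zero => simp
        | succ j ih =>
          have : m + (q : ℤ) * ((j + 1 : ℕ) : ℤ) = (m + q * j) + q := by push_cast; ring
          rw [this, hper, ih]
      have h4 := Int.emod_add_mul_ediv k q
      rcases le_or_gt 0 (k / q) with h5 | h5
      · obtain ⟨j, hj⟩ := Int.eq_ofNat_of_zero_le h5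
        have := key j (k % q)
        rw [← this]
        congr 1
        rw [← hj]
        exact h4.symm
      · obtain ⟨j, hj⟩ := Int.eq_ofNat_of_zero_le (show 0 ≤ -(k / q) by omega)
        have := key j k
        rw [← this]
        congr 1
        rw [← hj]
        linarith
    have hrel : ∀ k, a k * D k - (1 - a k) * D (k - 1) = u := by
      intro k
      have h4 := hmod k
      rcases eq_or_lt_of_le h4.1 with h5 | h5
      · -- remainder zero
        have h6 : (k - 1) % q = q - 1 := by
          have : k - 1 = (q - 1) + q * (k / q - 1) := by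
            have := Int.emod_add_mul_ediv k q
            rw [← h5] at this
            linarith
          rw [this, Int.add_mul_emod_self_left, Int.emod_eq_of_lt (by omega) (by omega)]
        have h7 := h3 (q - 1) (by omega)
        have e1 : q - 1 + 1 = q := by omega
        rw [e1, h2] at h7
        have e2 : a ((q : ℕ) : ℤ) = a k := by
          rw [hamod k, ← h5, ← hper 0, zero_add]
        rw [e2] at h7
        have e3 : D k = d 0 := by simp [hD, ← h5]
        have e4 : D (k - 1) = d (q - 1) := by
          simp only [hD, h6]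
          congr 1
          omega
        rw [e3, e4]
        exact h7
      · have h6 : (k - 1) % q = k % q - 1 := by
          have : k - 1 = (k % q - 1) + q * (k / q) := by
            have := Int.emod_add_mul_ediv k q
            linarith
          rw [this, Int.add_mul_emod_self_left, Int.emod_eq_of_lt (by omega) (by omega)]
        have h7 := h3 ((k % q).toNat - 1) (by omega)
        have e1 : (k % q).toNat - 1 + 1 = (k % q).toNat := by omega
        rw [e1] at h7
        have e2 : a (((k % q).toNat : ℕ) : ℤ) = a k := by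
          rw [hamod k, Int.toNat_of_nonneg h4.1]
        rw [e2] at h7
        have e4 : D (k - 1) = d ((k % q).toNat - 1) := by
          simp only [hD, h6]
          congr 1
          omega
        rw [e4]
        exact h7
    have hS : 0 < ∑ j ∈ range q, D j := sum_pos (fun j _ => hDpos j) ⟨0, mem_range.2 hq⟩
    set S := ∑ j ∈ range q, D j with hSdef
    have hq' : (0 : ℝ) < q := by exact_mod_cast hq
    refine ⟨fun k => (q / S) * D k, q / S * u, fun k => mul_pos (div_pos hq' hS) (hDpos k),
      fun k => by simp only [hDper], fun k => ?_, ?_⟩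
    · rw [← hrel k]
      ring
    · rw [← mul_sum, ← hSdef]
      field_simp
  -- forward solutions
  set ρ : ℕ → ℝ := fun n => (1 - a (n : ℕ)) / a (n : ℕ) with hρ
  have hρpos : ∀ n, 0 < ρ n := fun n => div_pos (by linarith [(ha n).2]) (ha n).1
  set P : ℕ → ℝ := fun n => ∏ j ∈ range n, ρ (j + 1) with hP
  have hPpos : ∀ n, 0 < P n := fun n => prod_pos fun j _ => hρpos _
  have hP1 : ∀ n, P (n + 1) = ρ (n + 1) * P n := fun n => by
    simp only [hP, prod_range_succ]
    ring
  have hP0 : P 0 = 1 := by simp [hP]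
  have hS : ∃ S : ℕ → ℝ, S 0 = 0 ∧ (∀ n, S (n + 1) = ρ (n + 1) * S n + 1 / a (n + 1 : ℕ)) ∧
      ∀ n, 0 ≤ S n := by
    refine ⟨fun n => Nat.rec 0 (fun n s => ρ (n + 1) * s + 1 / a (n + 1 : ℕ)) n, rfl,
      fun n => rfl, fun n => ?_⟩
    induction n with
    | zero => exact le_rfl
    | succ n ih =>
      have := mul_nonneg (hρpos (n + 1)).le ih
      have h2 : 0 < 1 / a (n + 1 : ℕ) := one_div_pos.2 (ha _).1
      change 0 ≤ ρ (n + 1) * _ + 1 / a (n + 1 : ℕ)
      linarith
  obtain ⟨S, hS0, hS1, hSnn⟩ := hS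
  have hSpos : ∀ n, 1 ≤ n → 0 < S n := by
    intro n hn
    obtain ⟨m, rfl⟩ : ∃ m, n = m + 1 := ⟨n - 1, by omega⟩
    rw [hS1]
    have := mul_nonneg (hρpos (m + 1)).le (hSnn m)
    have h2 : 0 < 1 / a (m + 1 : ℕ) := one_div_pos.2 (ha _).1
    linarith
  -- general solution
  have hgen : ∀ (x u : ℝ) (n : ℕ), a (n + 1 : ℕ) * (P (n + 1) * x + u * S (n + 1)) -
      (1 - a (n + 1 : ℕ)) * (P n * x + u * S n) = u := by
    intro x u n
    rw [hP1, hS1]
    have h1 := (ha (n + 1 : ℕ)).1.ne'
    simp only [hρ]
    field_simp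
    ring
  rcases lt_trichotomy (P q) 1 with h | h | h
  · refine ⟨fun n => P n * (S q / (1 - P q)) + 1 * S n, 1, fun n _ => ?_, ?_,
      fun n _ => hgen _ _ n⟩
    · have h1 : 0 < S q / (1 - P q) := div_pos (hSpos q hq) (by linarith)
      have := mul_pos (hPpos n) h1
      linarith [hSnn n]
    · beta_reduce
      rw [hP0, hS0]
      have : 1 - P q ≠ 0 := by linarith
      field_simp
      ring
  · refine ⟨fun n => P n * 1 + 0 * S n, 0, fun n _ => ?_, ?_, fun n _ => hgen _ _ n⟩
    · have := hPpos n
      linarith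
    · beta_reduce
      rw [hP0, h]
      ring
  · refine ⟨fun n => P n * (S q / (P q - 1)) + (-1) * S n, -1, ?_, ?_, fun n _ => hgen _ _ n⟩
    · -- positivity by downward induction
      have hdown : ∀ i ≤ q, 0 < P (q - i) * (S q / (P q - 1)) + (-1) * S (q - i) := by
        intro i
        induction i with
        | zero =>
          intro _
          have h1 : P q * (S q / (P q - 1)) + (-1) * S q = S q / (P q - 1) := by
            have : P q - 1 ≠ 0 := by linarith
            field_simp
            ring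
          rw [Nat.sub_zero, h1]
          exact div_pos (hSpos q hq) (by linarith)
        | succ i ih =>
          intro hi
          have h1 := ih (by omega)
          have h2 := hgen (S q / (P q - 1)) (-1) (q - (i + 1))
          have e1 : q - (i + 1) + 1 = q - i := by omega
          rw [e1] at h2
          have h3 := ha (((q - i : ℕ)) : ℤ)
          have h4 := mul_pos h3.1 h1
          by_contra h5
          push Not at h5
          have h6 : (1 - a (((q - i : ℕ)) : ℤ)) *
              (P (q - (i + 1)) * (S q / (P q - 1)) + (-1) * S (q - (i + 1))) ≤ 0 :=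
            mul_nonpos_of_nonneg_of_nonpos (by linarith [h3.2]) h5
          linarith
      intro n hn
      have := hdown (q - n) (by omega)
      rwa [show q - (q - n) = n by omega] at this
    · beta_reduce
      rw [hP0, hS0]
      have : P q - 1 ≠ 0 := by linarith
      field_simp
      ring

theorem near_periodic {a b : ℤ → ℝ} (ha : Env a) (hb : Env b) (q : ℕ) (hq : 1 ≤ q)
    (hper : ∀ k, b (k + q) = b k) (T : ℕ) (hT : 1 ≤ T) (η : ℝ) (hη : 0 ≤ η) (hηT : η * T ≤ 1)
    (hab : ∀ k : ℤ, |k| ≤ T → |a k - b k| ≤ η) :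
    Var a T ≤ 34 * (q : ℝ) ^ 2 * T := by
  obtain ⟨D, u, hD0, hDper, hDu, hDsum⟩ := exists_corrector hb q hq hper
  obtain ⟨ψ, hψ0, hψ⟩ := exists_prim D
  have hq1 : (1 : ℝ) ≤ q := by exact_mod_cast hq
  have hT1 : (1 : ℝ) ≤ T := by exact_mod_cast hT
  have hmono : Monotone ψ := prim_mono hψ fun k => (hD0 k).le
  have hψn : ∀ n : ℕ, ψ n = ∑ j ∈ range n, D j := by
    intro n
    induction n with
    | zero => simp [hψ0]
    | succ n ih =>
      rw [sum_range_succ, ← ih]
      exact_mod_cast hψ n
  have hψq : ψ q = q := by rw [hψn, hDsum]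
  have hψper : ∀ k, ψ (k + q) = ψ k + q := by
    have h1 : ∀ k, ψ (k + 1 + q) - ψ (k + 1) = ψ (k + q) - ψ k := by
      intro k
      have e : k + 1 + (q : ℤ) = k + q + 1 := by ring
      rw [e, hψ, hψ, hDper]
      ring
    intro k
    have h2 : ∀ k : ℤ, ψ (k + q) - ψ k = q := by
      intro k
      induction k using Int.induction_on with
      | zero => rw [zero_add, hψq, hψ0, sub_zero]
      | succ i ih => rw [h1, ih]
      | pred i ih =>
        have := h1 (-(i : ℤ) - 1)
        rw [sub_add_cancel] at this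
        rw [← this, ih]
    linarith [h2 k]
  have hψk : ∀ k, |ψ k - k| ≤ q := by
    have hbase : ∀ n : ℕ, n ≤ q → |ψ n - n| ≤ q := by
      intro n hn
      have h1 : 0 ≤ ψ n := by
        have := hmono (show (0 : ℤ) ≤ n by omega)
        rwa [hψ0] at this
      have h2 : ψ n ≤ q := by
        have := hmono (show (n : ℤ) ≤ q by exact_mod_cast hn)
        rwa [hψq] at this
      have h3 : (n : ℝ) ≤ q := by exact_mod_cast hn
      have h4 : (0 : ℝ) ≤ n := Nat.cast_nonneg _
      rw [abs_le]
      constructor <;> linarith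
    have hq0 : (0 : ℤ) < q := by exact_mod_cast hq
    have hshift : ∀ (j : ℕ) (k : ℤ), ψ (k + q * j) - (k + q * j : ℤ) = ψ k - k := by
      intro j k
      induction j with
      | zero => simp
      | succ j ih =>
        have e : k + (q : ℤ) * ((j + 1 : ℕ) : ℤ) = (k + q * j) + q := by push_cast; ring
        rw [e, hψper]
        push_cast at ih ⊢
        linarith
    intro k
    have h4 := Int.emod_add_mul_ediv k q
    have h5 : 0 ≤ k % q := Int.emod_nonneg _ hq0.ne'
    have h6 : k % q < q := Int.emod_lt_of_pos _ hq0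
    have h7 : |ψ (k % q) - (k % q : ℤ)| ≤ q := by
      have := hbase (k % q).toNat (by omega)
      have e : (((k % q).toNat : ℕ) : ℤ) = k % q := Int.toNat_of_nonneg h5
      have e' : (((k % q).toNat : ℕ) : ℝ) = ((k % q : ℤ) : ℝ) := by exact_mod_cast e
      rw [e, e'] at this
      exact this
    rcases le_or_gt 0 (k / q) with h8 | h8
    · obtain ⟨j, hj⟩ := Int.eq_ofNat_of_zero_le h8
      have h9 := hshift j (k % q)
      have e : k % q + q * (j : ℤ) = k := by
        rw [← hj]
        exact h4
      rw [e] at h9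
      rw [h9]
      exact h7
    · obtain ⟨j, hj⟩ := Int.eq_ofNat_of_zero_le (show 0 ≤ -(k / q) by omega)
      have h9 := hshift j k
      have e : k + q * (j : ℤ) = k % q := by
        rw [← hj]
        linarith
      rw [e] at h9
      rw [← h9]
      exact h7
  have hDq : ∀ k, D k ≤ q := by
    intro k
    have h1 := hψ k
    have h2 := hmono (show k + 1 ≤ k + q by omega)
    rw [hψper] at h2
    linarith
  have huq : |u| ≤ q := by
    have h1 := hDu 0
    have h2 := hb 0
    have h3 := hDq 0
    have h4 := hDq (0 - 1)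
    have h5 := hD0 0
    have h6 := hD0 (0 - 1)
    rw [abs_le]
    constructor <;> nlinarith
  set G : ℕ → ℤ → ℝ := fun t k => (ψ k - u * t) ^ 2 with hG
  have hstep : ∀ t < T, ∀ k : ℤ, |k - 0| ≤ t → K a (G (t + 1)) k ≤ G t k + 16 * (q : ℝ) ^ 2 := by
    intro t ht k hk
    rw [sub_zero] at hk
    obtain ⟨ha0, ha1⟩ := ha k
    have htT : (t : ℝ) + 1 ≤ T := by exact_mod_cast ht
    have hkt : |(k : ℝ)| ≤ t := by exact_mod_cast hk
    have h1 := hab k (by omega)
    have h2 : ψ (k + 1) = ψ k + D k := hψ k
    have h3 : ψ (k - 1) = ψ k - D (k - 1) := by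
      have := hψ (k - 1)
      rw [sub_add_cancel] at this
      rw [this]
      ring
    have ht0 : (0 : ℝ) ≤ t := Nat.cast_nonneg _
    set x := ψ k - u * t with hx
    have h4 : |x| ≤ 3 * q * T := by
      have h5 := hψk k
      have h6 : |x| ≤ |ψ k - k| + |(k : ℝ)| + |u| * t := by
        rw [hx]
        calc |ψ k - u * t| = |(ψ k - k) + k - u * t| := by ring_nf
          _ ≤ |(ψ k - k) + k| + |u * t| := abs_sub _ _
          _ ≤ |ψ k - k| + |(k : ℝ)| + |u * t| := by
            have := abs_add_le (ψ k - k) (k : ℝ)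
            linarith
          _ = _ := by rw [abs_mul, abs_of_nonneg ht0]
      have h7 : |u| * t ≤ q * t := mul_le_mul_of_nonneg_right huq ht0
      nlinarith
    have h5 : a k * D k - (1 - a k) * D (k - 1) - u = (a k - b k) * (D k + D (k - 1)) := by
      rw [← hDu k]
      ring
    have h6 : |a k * D k - (1 - a k) * D (k - 1) - u| ≤ η * (2 * q) := by
      rw [h5, abs_mul]
      apply mul_le_mul h1 _ (abs_nonneg _) hη
      rw [abs_of_pos (by linarith [hD0 k, hD0 (k - 1)])]
      linarith [hDq k, hDq (k - 1)]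
    simp only [K, hG]
    rw [h2, h3]
    push_cast
    have h7 : a k * (ψ k + D k - u * (t + 1)) ^ 2 +
        (1 - a k) * (ψ k - D (k - 1) - u * (t + 1)) ^ 2 =
        x ^ 2 + 2 * (x * (a k * D k - (1 - a k) * D (k - 1) - u)) +
          (a k * (D k - u) ^ 2 + (1 - a k) * (D (k - 1) + u) ^ 2) := by
      rw [hx]
      ring
    rw [h7]
    have h8 : x * (a k * D k - (1 - a k) * D (k - 1) - u) ≤ (3 * q * T) * (η * (2 * q)) := by
      calc x * (a k * D k - (1 - a k) * D (k - 1) - u)
          ≤ |x * (a k * D k - (1 - a k) * D (k - 1) - u)| := le_abs_self _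
        _ = |x| * |a k * D k - (1 - a k) * D (k - 1) - u| := abs_mul _ _
        _ ≤ _ := mul_le_mul h4 h6 (abs_nonneg _) (by positivity)
    have h9 : (3 * q * T) * (η * (2 * q)) ≤ 6 * (q : ℝ) ^ 2 := by
      have : (3 * q * T) * (η * (2 * q)) = 6 * (q : ℝ) ^ 2 * (η * T) := by ring
      rw [this]
      nlinarith [sq_nonneg (q : ℝ)]
    have h10 : (D k - u) ^ 2 ≤ 4 * (q : ℝ) ^ 2 := by
      have := abs_le.1 huq
      nlinarith [hD0 k, hDq k]
    have h11 : (D (k - 1) + u) ^ 2 ≤ 4 * (q : ℝ) ^ 2 := by
      have := abs_le.1 huq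
      nlinarith [hD0 (k - 1), hDq (k - 1)]
    nlinarith
  have hfin := E_le_const ha T G (16 * (q : ℝ) ^ 2) 0 hstep
  have hG0 : G 0 0 = 0 := by simp [hG, hψ0]
  rw [hG0, zero_add] at hfin
  have hV := Var_le (a := a) T (u * T)
  have h1 : E a T (fun k => ((k : ℝ) - u * T) ^ 2) 0 ≤
      E a T (fun k => 2 * G T k + 2 * (q : ℝ) ^ 2) 0 := by
    apply E_mono ha
    intro k
    have h2 := abs_le.1 (hψk k)
    simp only [hG]
    have h3 : (ψ k - k) ^ 2 ≤ (q : ℝ) ^ 2 := by
      rw [← sq_abs (ψ k - k)]
      exact pow_le_pow_left₀ (abs_nonneg _) (hψk k) 2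
    nlinarith [sq_nonneg ((ψ k - u * T) + (ψ k - k))]
  rw [E_add a T (fun k => 2 * G T k) (fun _ => 2 * (q : ℝ) ^ 2), E_mul a T 2 (G T), E_const] at h1
  nlinarith [sq_nonneg (q : ℝ)]

end Pool.Agent.E8helper72.LW
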