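import Pool.Agent.E8helper72.LW.Mid
import Pool.Agent.E8helper72.LW.Periodic
import Pool.Agent.E8helper72.LW.Aver

/-!
# The environments of the problem at one scale
-/

namespace Pool.Agent.E8helper72.LW

open Finset

/-- transition probabilities with their regularity constants -/
structure Pr (P f f' : ℝ → ℝ) (L A : ℝ) : Prop where
  fn : Fn f f' L
  p0 : ∀ y, 0 < P y
  p1 : ∀ y, P y < 1
  rel : ∀ y, 1 - P y = P y * Real.exp (f y)
  A1 : 1 ≤ A
  hA : ∀ y, 1 ≤ A * P y
  hA' : ∀ y, 1 ≤ A * (1 - P y)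
  lip : ∀ y z, |P y - P z| ≤ L * |y - z|
  per : ∀ y, P (y + 1) = P y

variable {P f f' : ℝ → ℝ} {L A : ℝ}

theorem per_nat {F : ℝ → ℝ} (hF : ∀ y, F (y + 1) = F y) (n : ℕ) (y : ℝ) : F (y + n) = F y := by
  induction n generalizing y with
  | zero => simp
  | succ n ih =>
    push_cast
    rw [← add_assoc, hF, ih]

theorem per_int {F : ℝ → ℝ} (hF : ∀ y, F (y + 1) = F y) (n : ℤ) (y : ℝ) : F (y + n) = F y := by
  rcases le_or_gt 0 n with h | h
  · obtain ⟨m, rfl⟩ := Int.eq_ofNat_of_zero_le h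
    exact_mod_cast per_nat hF m y
  · obtain ⟨m, hm⟩ := Int.eq_ofNat_of_zero_le (show 0 ≤ -n by omega)
    have h1 := per_nat hF m (y + n)
    have e : y + n + (m : ℝ) = y := by
      have : (m : ℝ) = -(n : ℝ) := by exact_mod_cast hm.symm
      rw [this]
      ring
    rw [e] at h1
    exact h1.symm

/-- one block of `q` steps -/
theorem block (h : Fn f f' L) (p q : ℕ) (hq : 1 ≤ q) (hqL : L ≤ q) (hpq : Nat.Coprime p q)
    (δ : ℝ) (hδ : 0 ≤ δ) (y : ℝ) :
    |∑ j ∈ range q, (f (y + j * (p / q + δ)) - av f q (q * (y + j * (p / q + δ))))| ≤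
      2 * q ^ 2 * (q * δ) := by
  have hq0 : (0 : ℝ) < q := by exact_mod_cast hq
  have hL := h.L1
  have hprof := av_prof h q hq hqL
  have e1 : ∀ j ∈ range q, f (y + j * (p / q + δ)) - av f q (q * (y + j * (p / q + δ))) =
      ((f (y + j * (p / q + δ)) - f (y + j * (p / q))) +
        (av f q (q * y) - av f q (q * y + j * (q * δ)))) +
      (f (y + j * (p / q)) - av f q (q * y)) := by
    intro j _
    have : (q : ℝ) * (y + j * (p / q + δ)) = (q * y + j * (q * δ)) + ((j * p : ℕ) : ℝ) := by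
      push_cast
      field_simp
      ring
    rw [this, per_nat (av_per h q hq)]
    ring
  rw [sum_congr rfl e1, sum_add_distrib]
  have e2 : ∑ j ∈ range q, (f (y + j * (p / q)) - av f q (q * y)) = 0 := by
    rw [sum_sub_distrib, sum_orbit f h.per p q hq hpq, av_scaled q hq]
    simp
    field_simp
    ring
  rw [e2, add_zero]
  calc |∑ j ∈ range q, ((f (y + j * (p / q + δ)) - f (y + j * (p / q))) +
        (av f q (q * y) - av f q (q * y + j * (q * δ))))|
      ≤ ∑ j ∈ range q, |(f (y + j * (p / q + δ)) - f (y + j * (p / q))) +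
        (av f q (q * y) - av f q (q * y + j * (q * δ)))| := abs_sum_le_sum_abs _ _
    _ ≤ ∑ _j ∈ range q, (2 * q * (q * δ)) := by
      apply sum_le_sum
      intro j hj
      have hjq : (j : ℝ) ≤ q := by exact_mod_cast (mem_range.1 hj).le
      have hj0 : (0 : ℝ) ≤ j := Nat.cast_nonneg _
      have h1 := h.lipschitz (y + j * (p / q + δ)) (y + j * (p / q))
      have h2 := hprof.lipschitz (q * y) (q * y + j * (q * δ))
      rw [show y + (j : ℝ) * (p / q + δ) - (y + j * (p / q)) = j * δ by ring,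
        abs_of_nonneg (mul_nonneg hj0 hδ)] at h1
      rw [show (q : ℝ) * y - (q * y + j * (q * δ)) = -(j * (q * δ)) by ring, abs_neg,
        abs_of_nonneg (mul_nonneg hj0 (mul_nonneg hq0.le hδ))] at h2
      have h3 : L * (j * δ) ≤ q * (q * δ) := by
        calc L * (j * δ) ≤ q * (q * δ) := by
              apply mul_le_mul hqL (mul_le_mul_of_nonneg_right hjq hδ) (by positivity) hq0.le
          _ = _ := rfl
      have h4 : (j : ℝ) * (q * δ) ≤ q * (q * δ) := mul_le_mul_of_nonneg_right hjq (by positivity)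
      calc _ ≤ |f (y + j * (p / q + δ)) - f (y + j * (p / q))| +
            |av f q (q * y) - av f q (q * y + j * (q * δ))| := abs_add_le _ _
        _ ≤ q * (q * δ) + q * (q * δ) := by linarith
        _ = _ := by ring
    _ = _ := by
      rw [sum_const, card_range, nsmul_eq_mul]
      ring

theorem birkhoff (h : Fn f f' L) (p q : ℕ) (hq : 1 ≤ q) (hqL : L ≤ q) (hpq : Nat.Coprime p q)
    (δ : ℝ) (hδ : 0 ≤ δ) (b r : ℕ) (y : ℝ) :
    |∑ j ∈ range (b * q + r), (f (y + j * (p / q + δ)) - av f q (q * (y + j * (p / q + δ))))| ≤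
      b * (2 * q ^ 2 * (q * δ)) + r * (2 * L) := by
  induction b generalizing y with
  | zero =>
    rw [zero_mul, zero_add]
    simp only [Nat.cast_zero, zero_mul, zero_add]
    calc _ ≤ ∑ j ∈ range r, |f (y + j * (p / q + δ)) - av f q (q * (y + j * (p / q + δ)))| :=
          abs_sum_le_sum_abs _ _
      _ ≤ ∑ _j ∈ range r, (2 * L) := by
        apply sum_le_sum
        intro j _
        have h1 := h.bound0 (y + j * (p / q + δ))
        have h2 := av_abs_le h q hq (q * (y + j * (p / q + δ)))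
        have h3 := abs_sub (f (y + j * (p / q + δ))) (av f q (q * (y + j * (p / q + δ))))
        linarith
      _ = _ := by
        rw [sum_const, card_range, nsmul_eq_mul]
  | succ b ih =>
    have e : (b + 1) * q + r = q + (b * q + r) := by ring
    rw [e, Finset.sum_range_add]
    have h1 := block h p q hq hqL hpq δ hδ y
    have h2 := ih (y + q * (p / q + δ))
    have h3 : ∀ j ∈ range (b * q + r),
        (f (y + ((q + j : ℕ) : ℝ) * (p / q + δ)) -
          av f q (q * (y + ((q + j : ℕ) : ℝ) * (p / q + δ)))) =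
        (f (y + q * (p / q + δ) + j * (p / q + δ)) -
          av f q (q * (y + q * (p / q + δ) + j * (p / q + δ)))) := by
      intro j _
      have : y + ((q + j : ℕ) : ℝ) * (p / q + δ) = y + q * (p / q + δ) + j * (p / q + δ) := by
        push_cast
        ring
      rw [this]
    rw [sum_congr rfl h3]
    refine (abs_add_le _ _).trans ?_
    push_cast
    linarith

theorem birkhoff' (h : Fn f f' L) (p q : ℕ) (hq : 1 ≤ q) (hqL : L ≤ q) (hpq : Nat.Coprime p q)
    (δ : ℝ) (hδ : 0 ≤ δ) (M m : ℕ) (hδM : q * δ * (M : ℝ) ^ 60 ≤ 2) (hm : m ≤ 4 * M ^ 60)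
    (y : ℝ) :
    |∑ j ∈ range m, (f (y + j * (p / q + δ)) - av f q (q * (y + j * (p / q + δ))))| ≤
      18 * L * q := by
  have h1 := birkhoff h p q hq hqL hpq δ hδ (m / q) (m % q) y
  rw [Nat.div_add_mod'] at h1
  refine h1.trans ?_
  have hq0 : (0 : ℝ) < q := by exact_mod_cast hq
  have hL := h.L1
  have h2 : ((m / q : ℕ) : ℝ) * q ≤ m := by exact_mod_cast Nat.div_mul_le_self m q
  have h3 : ((m % q : ℕ) : ℝ) ≤ q := by exact_mod_cast (Nat.mod_lt m hq).le
  have h4 : (m : ℝ) ≤ 4 * (M : ℝ) ^ 60 := by exact_mod_cast hm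
  have h5 : ((m / q : ℕ) : ℝ) * (2 * q ^ 2 * (q * δ)) ≤ 16 * q := by
    calc ((m / q : ℕ) : ℝ) * (2 * q ^ 2 * (q * δ)) = (((m / q : ℕ) : ℝ) * q) * (2 * q * (q * δ)) := by
          ring
      _ ≤ (4 * (M : ℝ) ^ 60) * (2 * q * (q * δ)) :=
        mul_le_mul_of_nonneg_right (h2.trans h4) (by positivity)
      _ = (8 * q) * (q * δ * (M : ℝ) ^ 60) := by ring
      _ ≤ (8 * q) * 2 := mul_le_mul_of_nonneg_left hδM (by positivity)
      _ = _ := by ring
  have h6 : ((m % q : ℕ) : ℝ) * (2 * L) ≤ q * (2 * L) :=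
    mul_le_mul_of_nonneg_right h3 (by linarith)
  nlinarith

/-- the environments of the problem at one scale -/
theorem mkSc (h : Pr P f f' L A) (p q : ℕ) (hq : 1 ≤ q) (hqL : L ≤ q) (hpq : Nat.Coprime p q)
    (δ : ℝ) (M : ℕ) (hδ0 : 0 ≤ δ) (hδ1 : 1 ≤ q * δ * (M : ℝ) ^ 60)
    (hδ2 : q * δ * (M : ℝ) ^ 60 ≤ 2)
    (hbig : 10 ^ 6 * A ^ 2 * Real.exp (4 * (18 * L * q)) ≤ M) (x : ℝ) :
    Sc (fun k => P (x + k * (p / q + δ))) (av f q)
      (fun y => (∑ j ∈ range q, f' ((y + j) / q)) / q / q) (q * x) (q * δ) A (18 * L * q) M where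
  env := fun k => ⟨h.p0 _, h.p1 _⟩
  prof := av_prof h.fn q hq hqL
  A1 := h.A1
  B0 := by
    have := h.fn.L1
    positivity
  hA := fun k => h.hA _
  hA' := fun k => h.hA' _
  β1 := hδ1
  β2 := hδ2
  big := hbig
  pot := by
    have hq0 : (0 : ℝ) < q := by exact_mod_cast hq
    set u : ℤ → ℝ := fun k => f (x + k * (p / q + δ)) - av f q (q * (x + k * (p / q + δ))) with hu
    obtain ⟨Ψ, -, hΨ⟩ := exists_prim u
    refine ⟨Ψ, fun k => ?_, ?_⟩
    · rw [hΨ k, h.rel]
      congr 2
      have e : (q : ℝ) * (x + k * (p / q + δ)) = (q * x + k * (q * δ)) + ((k * p : ℤ) : ℝ) := by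
        push_cast
        field_simp
        ring
      simp only [hu]
      rw [e, per_int (av_per h.fn q hq)]
      ring
    · have key : ∀ (j : ℤ) (m : ℕ), m ≤ 4 * M ^ 60 → |Ψ (j + m) - Ψ j| ≤ 18 * L * q := by
        intro j m hm
        have h1 : ∀ m : ℕ, Ψ (j + m) - Ψ j = ∑ i ∈ range m,
            (f (x + j * (p / q + δ) + i * (p / q + δ)) -
              av f q (q * (x + j * (p / q + δ) + i * (p / q + δ)))) := by
          intro m
          induction m with
          | zero => simp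
          | succ m ih =>
            rw [sum_range_succ, ← ih]
            have h2 := hΨ (j + m)
            push_cast
            rw [← add_assoc, h2]
            simp only [hu]
            have e : x + ((j + m : ℤ) : ℝ) * (p / q + δ) = x + j * (p / q + δ) + m * (p / q + δ) := by
              push_cast
              ring
            rw [e]
            ring
        rw [h1 m]
        exact birkhoff' h.fn p q hq hqL hpq δ hδ0 M m hδ2 hm _
      intro j k hjk
      rcases le_total j k with hle | hle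
      · obtain ⟨m, hm⟩ := Int.eq_ofNat_of_zero_le (show 0 ≤ k - j by omega)
        have hk : k = j + m := by omega
        have h2 := key j m (by
          rw [abs_of_nonneg (by omega), hm] at hjk
          exact_mod_cast hjk)
        rw [hk]
        exact h2
      · obtain ⟨m, hm⟩ := Int.eq_ofNat_of_zero_le (show 0 ≤ j - k by omega)
        have hk : j = k + m := by omega
        have h2 := key k m (by
          rw [abs_of_nonpos (by omega), show -(k - j) = j - k by ring, hm] at hjk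
          exact_mod_cast hjk)
        rw [hk, abs_sub_comm]
        exact h2

/-- small times -/
theorem Var_short (h : Pr P f f' L A) (p q : ℕ) (hq : 1 ≤ q) (δ : ℝ) (M : ℕ) (hδ0 : 0 ≤ δ)
    (hδ2 : q * δ * (M : ℝ) ^ 60 ≤ 2) (hM : 2 * L ≤ M) (x : ℝ) (T : ℕ) (hT1 : 1 ≤ T)
    (hT : T ≤ M ^ 20) :
    Var (fun k => P (x + k * (p / q + δ))) T ≤ 34 * (q : ℝ) ^ 2 * T := by
  have hq0 : (0 : ℝ) < q := by exact_mod_cast hq
  have hq1 : (1 : ℝ) ≤ q := by exact_mod_cast hq
  have hL := h.fn.L1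
  have hM0 : (1 : ℝ) ≤ M := by linarith
  have hTR : (T : ℝ) ≤ (M : ℝ) ^ 20 := by exact_mod_cast hT
  have hT0 : (0 : ℝ) ≤ T := Nat.cast_nonneg _
  apply near_periodic (a := fun k => P (x + k * (p / q + δ))) (b := fun k => P (x + k * (p / q)))
    (fun k => ⟨h.p0 _, h.p1 _⟩) (fun k => ⟨h.p0 _, h.p1 _⟩) q hq ?_ T hT1 (L * (T * δ))
    (by positivity) ?_ ?_
  · intro k
    have : x + ((k + q : ℤ) : ℝ) * (p / q) = (x + k * (p / q)) + (p : ℝ) := by
      push_cast
      field_simp
      ring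
    simp only [this]
    exact per_nat h.per p _
  · have h1 : (T : ℝ) ^ 2 ≤ (M : ℝ) ^ 40 := by
      calc (T : ℝ) ^ 2 ≤ ((M : ℝ) ^ 20) ^ 2 := pow_le_pow_left₀ hT0 hTR 2
        _ = _ := by rw [← pow_mul]
    have h2 : δ * (M : ℝ) ^ 60 ≤ 2 := by
      have : δ * (M : ℝ) ^ 60 ≤ q * (δ * (M : ℝ) ^ 60) := by
        have h3 : 0 ≤ δ * (M : ℝ) ^ 60 := by positivity
        nlinarith
      linarith
    have h3 : L * (T * δ) * T * (M : ℝ) ^ 20 ≤ 1 * (M : ℝ) ^ 20 := by
      calc L * (T * δ) * T * (M : ℝ) ^ 20 = L * (δ * (M : ℝ) ^ 20 * (T : ℝ) ^ 2) := by ring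
        _ ≤ L * (δ * (M : ℝ) ^ 20 * (M : ℝ) ^ 40) := by
          apply mul_le_mul_of_nonneg_left _ (by linarith)
          exact mul_le_mul_of_nonneg_left h1 (by positivity)
        _ = L * (δ * (M : ℝ) ^ 60) := by ring
        _ ≤ L * 2 := mul_le_mul_of_nonneg_left h2 (by linarith)
        _ ≤ M := by linarith
        _ ≤ 1 * (M : ℝ) ^ 20 := by
          rw [one_mul]
          calc (M : ℝ) = (M : ℝ) ^ 1 := (pow_one _).symm
            _ ≤ _ := pow_le_pow_right₀ hM0 (by norm_num)
    have h4 : (0 : ℝ) < (M : ℝ) ^ 20 := by positivity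
    exact le_of_mul_le_mul_right h3 h4
  · intro k hk
    have h1 := h.lip (x + k * (p / q + δ)) (x + k * (p / q))
    rw [show x + (k : ℝ) * (p / q + δ) - (x + k * (p / q)) = k * δ by ring, abs_mul,
      abs_of_nonneg hδ0] at h1
    refine h1.trans ?_
    apply mul_le_mul_of_nonneg_left _ (by linarith)
    apply mul_le_mul_of_nonneg_right _ hδ0
    exact_mod_cast hk

end Pool.Agent.E8helper72.LW
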