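import Pool.Agent.E8helper72.LW.Drift

/-!
# Slope profiles
-/

namespace Pool.Agent.E8helper72.LW

open Finset

/-- the slope profiles: periodic functions of class `C^{1,1}` with a point where they are
nonnegative and a point where they are nonpositive -/
structure Prof (g g' : ℝ → ℝ) : Prop where
  deriv : ∀ y, HasDerivAt g (g' y) y
  bound : ∀ y, |g' y| ≤ 1
  lip : ∀ y z, |g' y - g' z| ≤ |y - z|
  per : ∀ y, g (y + 1) = g y
  pos : ∃ y, 0 ≤ g y
  neg : ∃ y, g y ≤ 0

theorem Prof.reflect {g g' : ℝ → ℝ} (h : Prof g g') :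
    Prof (fun y => -g (-y)) (fun y => g' (-y)) where
  deriv := fun y => by
    have h1 := (h.deriv (-y)).comp y (hasDerivAt_neg y)
    have h2 := h1.neg
    have e : -(g' (-y) * -1) = g' (-y) := by ring
    rw [e] at h2
    exact h2
  bound := fun y => h.bound _
  lip := fun y z => by
    have := h.lip (-y) (-z)
    rwa [show -y - -z = -(y - z) by ring, abs_neg] at this
  per := fun y => by
    have := h.per (-(y + 1))
    rw [show -(y + 1) + 1 = -y by ring] at this
    simp only [this]
  pos := by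
    obtain ⟨y, hy⟩ := h.neg
    exact ⟨-y, by rw [neg_neg]; linarith⟩
  neg := by
    obtain ⟨y, hy⟩ := h.pos
    exact ⟨-y, by rw [neg_neg]; linarith⟩

theorem Prof.taylor {g g' : ℝ → ℝ} (h : Prof g g') (y s : ℝ) (hs : 0 ≤ s) :
    g y + g' y * s - s ^ 2 / 2 ≤ g (y + s) := by
  set φ : ℝ → ℝ := fun s => g (y + s) - g' y * s + s ^ 2 / 2 with hφ
  have hd : ∀ s, HasDerivAt φ (g' (y + s) - g' y + s) s := by
    intro s
    have h1 : HasDerivAt (fun s => g (y + s)) (g' (y + s)) s := (h.deriv (y + s)).comp_const_add y s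
    have h2 : HasDerivAt (fun s : ℝ => g' y * s) (g' y) s := by
      simpa using (hasDerivAt_id s).const_mul (g' y)
    have h3 : HasDerivAt (fun s : ℝ => s ^ 2 / 2) s s := by
      have := (hasDerivAt_pow 2 s).div_const 2
      simpa using this
    exact (h1.sub h2).add h3
  have hm : MonotoneOn φ (Set.Ici 0) := by
    apply monotoneOn_of_deriv_nonneg (convex_Ici 0)
    · exact fun s _ => (hd s).continuousAt.continuousWithinAt
    · exact fun s _ => (hd s).differentiableAt.differentiableWithinAt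
    · intro s hs
      rw [interior_Ici, Set.mem_Ioi] at hs
      rw [(hd s).deriv]
      have h1 := (abs_le.1 (h.lip (y + s) y)).1
      rw [add_sub_cancel_left, abs_of_pos hs] at h1
      linarith
  have := hm (Set.mem_Ici.2 le_rfl) (Set.mem_Ici.2 hs) hs
  simp only [hφ] at this
  simp only [add_zero, mul_zero, sub_zero] at this
  linarith

theorem Prof.taylor' {g g' : ℝ → ℝ} (h : Prof g g') (y s : ℝ) (hs : 0 ≤ s) :
    g (y - s) ≤ g y - g' y * s + s ^ 2 / 2 := by
  have h1 := h.reflect.taylor (-y) s hs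
  simp only [neg_neg, neg_add_rev] at h1
  rw [show -s + y = y - s by ring] at h1
  linarith

theorem Prof.neg_taylor {g g' : ℝ → ℝ} (h : Prof g g') (y s : ℝ) (hs : 0 ≤ s) :
    g y - g' y * s - s ^ 2 / 2 ≤ g (y - s) := by
  have h1 : Prof (fun y => g (-y)) (fun y => -g' (-y)) :=
    { deriv := fun y => by
        have h1 := (h.deriv (-y)).comp y (hasDerivAt_neg y)
        have e : g' (-y) * -1 = -g' (-y) := by ring
        rw [e] at h1
        exact h1
      bound := fun y => by rw [abs_neg]; exact h.bound _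
      lip := fun y z => by
        have := h.lip (-y) (-z)
        rw [show -y - -z = -(y - z) by ring, abs_neg] at this
        rwa [show -g' (-y) - -g' (-z) = -(g' (-y) - g' (-z)) by ring, abs_neg]
      per := fun y => by
        have := h.per (-(y + 1))
        rw [show -(y + 1) + 1 = -y by ring] at this
        simp only [this]
      pos := by
        obtain ⟨y, hy⟩ := h.pos
        exact ⟨-y, by rw [neg_neg]; exact hy⟩
      neg := by
        obtain ⟨y, hy⟩ := h.neg
        exact ⟨-y, by rw [neg_neg]; exact hy⟩ }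
  have h2 := h1.taylor (-y) s hs
  simp only [neg_neg, neg_add_rev] at h2
  rw [show -s + y = y - s by ring] at h2
  linarith

theorem Prof.cont {g g' : ℝ → ℝ} (h : Prof g g') : Continuous g :=
  continuous_iff_continuousAt.2 fun y => (h.deriv y).continuousAt

theorem Prof.lipschitz {g g' : ℝ → ℝ} (h : Prof g g') (y z : ℝ) : |g y - g z| ≤ |y - z| := by
  have := Convex.norm_image_sub_le_of_norm_hasDerivWithin_le (f := g) (f' := g') (C := 1)
    (s := Set.univ) (x := z) (y := y) (fun x _ => (h.deriv x).hasDerivWithinAt)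
    (fun x _ => by rw [Real.norm_eq_abs]; exact h.bound x) convex_univ trivial trivial
  rw [Real.norm_eq_abs, Real.norm_eq_abs, one_mul] at this
  exact this

/-- the maximum point -/
theorem Prof.exists_max {g g' : ℝ → ℝ} (h : Prof g g') (θ : ℝ) :
    ∃ s, 0 ≤ s ∧ s ≤ 1 ∧ 0 ≤ g (θ + s) ∧ g' (θ + s) = 0 := by
  have hp : Function.Periodic g 1 := h.per
  obtain ⟨y0, -, hy0⟩ := (isCompact_Icc (a := (0 : ℝ)) (b := 1)).exists_isMaxOn
    ⟨0, by simp⟩ h.cont.continuousOn
  have hmax : ∀ y, g y ≤ g y0 := by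
    intro y
    obtain ⟨z, hz, hz'⟩ := hp.exists_mem_Ico₀ one_pos y
    rw [hz']
    exact hy0 (Set.Ico_subset_Icc_self hz)
  obtain ⟨z, hz, hz'⟩ := hp.exists_mem_Ico one_pos y0 θ
  refine ⟨z - θ, by linarith [hz.1], by linarith [hz.2], ?_, ?_⟩
  · rw [show θ + (z - θ) = z by ring, ← hz']
    obtain ⟨y, hy⟩ := h.pos
    exact hy.trans (hmax y)
  · rw [show θ + (z - θ) = z by ring]
    have : IsLocalMax g z := Filter.Eventually.of_forall fun y => by
      rw [← hz']
      exact hmax y
    exact this.hasDerivAt_eq_zero (h.deriv z)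

/-- the first point where the drift is weak -/
theorem Prof.exists_first {g g' : ℝ → ℝ} (h : Prof g g') (θ ζ : ℝ) (hζ : 0 < ζ)
    (hθ : g θ ≤ -(2 * ζ)) :
    ∃ s, 0 < s ∧ s ≤ 1 ∧ (∀ t, 0 ≤ t → t < s → g (θ + t) < -ζ) ∧ -ζ ≤ g (θ + s) ∧
      0 ≤ g' (θ + s) := by
  have hp : Function.Periodic g 1 := h.per
  set S : Set ℝ := {s | 0 ≤ s ∧ -ζ ≤ g (θ + s)} with hS
  have hSc : IsClosed S := by
    apply IsClosed.inter isClosed_Ici
    exact isClosed_le continuous_const (h.cont.comp (continuous_const.add continuous_id))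
  have hSn : ∃ s ∈ S, s ≤ 1 := by
    obtain ⟨y, hy⟩ := h.pos
    obtain ⟨z, hz, hz'⟩ := hp.exists_mem_Ico one_pos y θ
    refine ⟨z - θ, ⟨by linarith [hz.1], ?_⟩, by linarith [hz.2]⟩
    rw [show θ + (z - θ) = z by ring, ← hz']
    linarith
  obtain ⟨s0, hs0, hs01⟩ := hSn
  have hbdd : BddBelow S := ⟨0, fun s hs => hs.1⟩
  have hmem : sInf S ∈ S := hSc.csInf_mem ⟨s0, hs0⟩ hbdd
  set s := sInf S with hs
  have hlt : ∀ t, 0 ≤ t → t < s → g (θ + t) < -ζ := by
    intro t ht0 ht
    by_contra hcon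
    exact absurd (csInf_le hbdd (show t ∈ S from ⟨ht0, not_lt.1 hcon⟩)) (not_le.2 ht)
  have hspos : 0 < s := by
    rcases eq_or_lt_of_le hmem.1 with h0 | h0
    · exfalso
      have := hmem.2
      rw [← h0, add_zero] at this
      linarith
    · exact h0
  refine ⟨s, hspos, (csInf_le hbdd hs0).trans hs01, hlt, hmem.2, ?_⟩
  by_contra hd
  push Not at hd
  set d := g' (θ + s) with hd'
  set r := min s (-d) with hr
  have hr0 : 0 < r := lt_min hspos (by linarith)
  have hrs : r ≤ s := min_le_left _ _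
  have hrd : r ≤ -d := min_le_right _ _
  have h1 := h.neg_taylor (θ + s) r hr0.le
  have h2 := hlt (s - r) (by linarith) (by linarith)
  rw [show θ + (s - r) = θ + s - r by ring] at h2
  have h3 := hmem.2
  rw [← hd'] at h1
  nlinarith

end Pool.Agent.E8helper72.LW
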