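import Pool.Agent.E8helper72.LW.Prof

/-!
# One scale of the environment
-/

namespace Pool.Agent.E8helper72.LW

open Finset

/-- An environment whose potential is, up to a bounded error, the primitive of a slowly varying
slope profile. -/
structure Sc (a : ℤ → ℝ) (g g' : ℝ → ℝ) (θ β A B : ℝ) (M : ℕ) : Prop where
  env : Env a
  prof : Prof g g'
  A1 : 1 ≤ A
  B0 : 0 ≤ B
  hA : ∀ k, 1 ≤ A * a k
  hA' : ∀ k, 1 ≤ A * (1 - a k)
  β1 : 1 ≤ β * (M : ℝ) ^ 60
  β2 : β * (M : ℝ) ^ 60 ≤ 2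
  big : 10 ^ 6 * A ^ 2 * Real.exp (4 * B) ≤ M
  pot : ∃ Ψ : ℤ → ℝ, (∀ k : ℤ, 1 - a k = a k * Real.exp (g (θ + k * β) + (Ψ (k + 1) - Ψ k))) ∧
    ∀ j k : ℤ, |k - j| ≤ 4 * (M : ℤ) ^ 60 → |Ψ k - Ψ j| ≤ B

namespace Sc

variable {a : ℤ → ℝ} {g g' : ℝ → ℝ} {θ β A B : ℝ} {M : ℕ}

theorem shift (h : Sc a g g' θ β A B M) (m : ℤ) :
    Sc (fun j => a (j + m)) g g' (θ + m * β) β A B M where
  env := fun k => h.env _
  prof := h.prof
  A1 := h.A1
  B0 := h.B0
  hA := fun k => h.hA _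
  hA' := fun k => h.hA' _
  β1 := h.β1
  β2 := h.β2
  big := h.big
  pot := by
    obtain ⟨Ψ, h1, h2⟩ := h.pot
    refine ⟨fun k => Ψ (k + m), fun k => ?_, fun j k hjk => h2 _ _ ?_⟩
    · have := h1 (k + m)
      have e : θ + m * β + k * β = θ + ((k + m : ℤ) : ℝ) * β := by push_cast; ring
      have e2 : k + 1 + m = k + m + 1 := by ring
      simp only [e, e2]
      exact this
    · rwa [show k + m - (j + m) = k - j by ring]

theorem reflect (h : Sc a g g' θ β A B M) :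
    Sc (fun j => 1 - a (-j)) (fun y => -g (-y)) (fun y => g' (-y)) (-θ) β A B M where
  env := fun k => ⟨by linarith [(h.env (-k)).2], by linarith [(h.env (-k)).1]⟩
  prof := h.prof.reflect
  A1 := h.A1
  B0 := h.B0
  hA := fun k => h.hA' _
  hA' := fun k => by
    have := h.hA (-k)
    rwa [sub_sub_cancel]
  β1 := h.β1
  β2 := h.β2
  big := h.big
  pot := by
    obtain ⟨Ψ, h1, h2⟩ := h.pot
    refine ⟨fun k => Ψ (-k + 1), fun k => ?_, fun j k hjk => h2 _ _ ?_⟩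
    · have h3 := h1 (-k)
      have e : -(-θ + (k : ℝ) * β) = θ + ((-k : ℤ) : ℝ) * β := by push_cast; ring
      have e2 : -(k + 1) + 1 = -k := by ring
      simp only [e, e2]
      rw [sub_sub_cancel]
      have h4 : Real.exp (-g (θ + ((-k : ℤ) : ℝ) * β) + (Ψ (-k) - Ψ (-k + 1))) =
          (Real.exp (g (θ + ((-k : ℤ) : ℝ) * β) + (Ψ (-k + 1) - Ψ (-k))))⁻¹ := by
        rw [← Real.exp_neg]
        congr 1
        ring
      rw [h4, h3]
      have := Real.exp_pos (g (θ + ((-k : ℤ) : ℝ) * β) + (Ψ (-k + 1) - Ψ (-k)))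
      field_simp
    · rwa [show -k + 1 - (-j + 1) = -(k - j) by ring, abs_neg]

theorem M_large (h : Sc a g g' θ β A B M) : (10 : ℝ) ^ 6 ≤ M := by
  have h1 := h.big
  have h2 : (1 : ℝ) ≤ A ^ 2 := by nlinarith [h.A1]
  have h3 : (1 : ℝ) ≤ Real.exp (4 * B) := Real.one_le_exp (by linarith [h.B0])
  have h4 : (1 : ℝ) ≤ A ^ 2 * Real.exp (4 * B) := by nlinarith
  nlinarith

theorem M_pos (h : Sc a g g' θ β A B M) : (0 : ℝ) < M := by
  have := h.M_large
  linarith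

theorem exp_le (h : Sc a g g' θ β A B M) : 10 ^ 6 * Real.exp (4 * B) ≤ M := by
  have h1 := h.big
  have h2 : (1 : ℝ) ≤ A ^ 2 := by nlinarith [h.A1]
  have h3 := Real.exp_pos (4 * B)
  nlinarith

theorem β_pos (h : Sc a g g' θ β A B M) : 0 < β := by
  have h1 := h.β1
  have h2 : (0 : ℝ) < (M : ℝ) ^ 60 := by have := h.M_pos; positivity
  by_contra hcon
  push Not at hcon
  nlinarith

/-- Bounds for a slow zone. -/
theorem zone (h : Sc a g g' θ β A B M) (y : ℕ) (hy : y ≤ M ^ 60 + 1)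
    (hz : ∀ k : ℤ, y < k → k < y + (M : ℤ) ^ 57 → -g (θ + k * β) ≤ 9 / (M : ℝ) ^ 6)
    (T : ℕ) (hT : T ≤ M ^ 61) :
    ((M ^ 20 ≤ T) → E a T (fun k => (max ((k : ℝ) - y) 0) ^ 2) 0 ≤
        Real.exp (4 * B) * T ^ 2 * (19 / (M : ℝ) ^ 2)) ∧
      E a T (fun k => max ((k : ℝ) - y) 0) 0 ≤ (M : ℝ) ^ 60 := by
  obtain ⟨Ψ, h1, h2⟩ := h.pot
  have hM0 := h.M_pos
  have hM6 := h.M_large
  have hMn : 0 < M := by exact_mod_cast hM0
  have hM1 : (1 : ℝ) ≤ M := by linarith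
  have hTR : (T : ℝ) ≤ (M : ℝ) ^ 61 := by exact_mod_cast hT
  have hpow : ∀ i j : ℕ, i ≤ j → (M : ℝ) ^ i ≤ (M : ℝ) ^ j := fun i j hij =>
    pow_le_pow_right₀ hM1 hij
  have hpowZ : ∀ i j : ℕ, i ≤ j → (M : ℤ) ^ i ≤ (M : ℤ) ^ j := fun i j hij =>
    pow_le_pow_right₀ (by omega) hij
  have hw : (0 : ℝ) ≤ 9 / (M : ℝ) ^ 6 := by positivity
  have hyZ : (y : ℤ) ≤ (M : ℤ) ^ 60 + 1 := by exact_mod_cast hy
  have hB : ∀ m : ℕ, (m : ℤ) ≤ (M : ℤ) ^ 57 → ∀ k : ℤ, (y : ℤ) ≤ k → k ≤ y + m →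
      |Ψ (k + 1) - Ψ y| ≤ B := by
    intro m hm k hk1 hk2
    apply h2
    have e1 := hpowZ 57 60 (by norm_num)
    have e2 := hpowZ 0 60 (by norm_num)
    rw [pow_zero] at e2
    rw [abs_of_nonneg (by omega)]
    omega
  have hE0 := Real.exp_pos (4 * B)
  have hEM := h.exp_le
  constructor
  · intro hT20
    have hT1 : 1 ≤ T := le_trans (Nat.one_le_pow _ _ hMn) hT20
    have hT20R : (M : ℝ) ^ 20 ≤ T := by exact_mod_cast hT20
    have hT0 : (0 : ℝ) < T := by exact_mod_cast hT1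
    -- the length of the zone
    obtain ⟨m, hm1, hmT, hmM, hmor⟩ : ∃ m : ℕ, 1 ≤ m ∧ m ≤ T ∧ (m : ℤ) ≤ (M : ℤ) ^ 57 ∧
        (m = T ∨ m = M ^ 57) := by
      rcases le_or_gt T (M ^ 57) with h3 | h3
      · exact ⟨T, hT1, le_rfl, by exact_mod_cast h3, Or.inl rfl⟩
      · exact ⟨M ^ 57, Nat.one_le_pow _ _ hMn, h3.le, by push_cast; exact le_rfl, Or.inr rfl⟩
    have hmain := (LW.zone h.env _ Ψ h1 y (by omega) m T hm1 hmT (9 / (M : ℝ) ^ 6) B hw
      (hB m hmM) (fun k hk1 hk2 => hz k hk1 (by omega))).1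
    push_cast at hmain
    refine hmain.trans ?_
    apply mul_le_mul_of_nonneg_left _ (by positivity)
    have hm0 : (0 : ℝ) < m := by exact_mod_cast hm1
    have e1 : (T : ℝ) / m ≤ (M : ℝ) ^ 4 := by
      rcases hmor with h3 | h3
      · rw [h3, div_self hT0.ne']
        have := hpow 0 4 (by norm_num)
        rwa [pow_zero] at this
      · rw [div_le_iff₀ hm0, h3]
        push_cast
        rw [← pow_add]
        exact hTR
    have e2 : (T : ℝ) / (m : ℝ) ^ 2 ≤ 1 / (M : ℝ) ^ 2 := by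
      rcases hmor with h3 | h3
      · rw [h3]
        have : (T : ℝ) / (T : ℝ) ^ 2 = 1 / T := by field_simp
        rw [this]
        apply one_div_le_one_div_of_le (by positivity)
        exact (hpow 2 20 (by norm_num)).trans hT20R
      · rw [div_le_div_iff₀ (by positivity) (by positivity), h3]
        push_cast
        have h4 : (T : ℝ) * (M : ℝ) ^ 2 ≤ (M : ℝ) ^ 61 * (M : ℝ) ^ 2 :=
          mul_le_mul_of_nonneg_right hTR (by positivity)
        rw [← pow_add] at h4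
        rw [← pow_mul, one_mul]
        exact h4.trans (hpow _ _ (by norm_num))
    have e3 : 2 * (9 / (M : ℝ) ^ 6) * (T / m) ≤ 18 / (M : ℝ) ^ 2 := by
      calc 2 * (9 / (M : ℝ) ^ 6) * (T / m) ≤ 2 * (9 / (M : ℝ) ^ 6) * (M : ℝ) ^ 4 :=
            mul_le_mul_of_nonneg_left e1 (by positivity)
        _ = 18 / (M : ℝ) ^ 2 := by
          field_simp
          ring
    have e4 : (18 : ℝ) / (M : ℝ) ^ 2 + 1 / (M : ℝ) ^ 2 = 19 / (M : ℝ) ^ 2 := by ring
    linarith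
  · rcases le_or_gt T (M ^ 57) with h3 | h3
    · have h4 : E a T (fun k => max ((k : ℝ) - y) 0) 0 ≤ E a T (fun _ => (M : ℝ) ^ 60) 0 := by
        apply E_mono_local h.env
        intro k hk
        rw [sub_zero, abs_le] at hk
        have hkT : (k : ℝ) ≤ T := by exact_mod_cast hk.2
        have h5 : (T : ℝ) ≤ (M : ℝ) ^ 57 := by exact_mod_cast h3
        have h6 := hpow 57 60 (by norm_num)
        have h7 : (0 : ℝ) ≤ y := Nat.cast_nonneg _
        exact max_le (by linarith) (by positivity)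
      rwa [E_const] at h4
    · have hmain := (LW.zone h.env _ Ψ h1 y (by omega) (M ^ 57) T (Nat.one_le_pow _ _ hMn) h3.le
        (9 / (M : ℝ) ^ 6) B hw (hB (M ^ 57) (by push_cast; exact le_rfl))
        (fun k hk1 hk2 => hz k hk1 (by push_cast at hk2; exact hk2))).2
      push_cast at hmain
      refine hmain.trans ?_
      have hT2 : (T : ℝ) ^ 2 ≤ (M : ℝ) ^ 122 := by
        calc (T : ℝ) ^ 2 ≤ ((M : ℝ) ^ 61) ^ 2 := pow_le_pow_left₀ (Nat.cast_nonneg _) hTR 2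
          _ = _ := by rw [← pow_mul]
      have e1 : 2 * (9 / (M : ℝ) ^ 6) / (M : ℝ) ^ 57 + 1 / ((M : ℝ) ^ 57) ^ 2 ≤
          19 / (M : ℝ) ^ 63 := by
        have e2 : 2 * (9 / (M : ℝ) ^ 6) / (M : ℝ) ^ 57 = 18 / (M : ℝ) ^ 63 := by
          rw [mul_div_assoc', div_div, ← pow_add]
          norm_num
        have e3 : 1 / ((M : ℝ) ^ 57) ^ 2 ≤ 1 / (M : ℝ) ^ 63 := by
          rw [← pow_mul]
          exact one_div_le_one_div_of_le (by positivity) (hpow _ _ (by norm_num))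
        have e4 : (18 : ℝ) / (M : ℝ) ^ 63 + 1 / (M : ℝ) ^ 63 = 19 / (M : ℝ) ^ 63 := by ring
        linarith
      have e5 : Real.exp (4 * B) * (T : ℝ) ^ 2 *
          (2 * (9 / (M : ℝ) ^ 6) / (M : ℝ) ^ 57 + 1 / ((M : ℝ) ^ 57) ^ 2) ≤
          Real.exp (4 * B) * (M : ℝ) ^ 122 * (19 / (M : ℝ) ^ 63) := by
        apply mul_le_mul _ e1 (by positivity) (by positivity)
        exact mul_le_mul_of_nonneg_left hT2 hE0.le
      have e6 : Real.exp (4 * B) * (M : ℝ) ^ 122 * (19 / (M : ℝ) ^ 63) =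
          19 * Real.exp (4 * B) * (M : ℝ) ^ 59 := by
        field_simp
      have e7 : 19 * Real.exp (4 * B) * (M : ℝ) ^ 59 ≤ (M / 2) * (M : ℝ) ^ 59 := by
        apply mul_le_mul_of_nonneg_right _ (by positivity)
        linarith
      have e8 : (M : ℝ) ^ 57 ≤ (M / 2) * (M : ℝ) ^ 59 := by
        calc (M : ℝ) ^ 57 ≤ (M : ℝ) ^ 59 := hpow _ _ (by norm_num)
          _ = 1 * (M : ℝ) ^ 59 := (one_mul _).symm
          _ ≤ _ := mul_le_mul_of_nonneg_right (by linarith) (by positivity)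
      have e9 : (M / 2) * (M : ℝ) ^ 59 + (M / 2) * (M : ℝ) ^ 59 = (M : ℝ) ^ 60 := by ring
      linarith

/-- phases of the positions beyond `⌈s / β⌉` -/
theorem phase (h : Sc a g g' θ β A B M) (s : ℝ) (hs : 0 ≤ s) (hs1 : s ≤ 1) :
    ⌈s / β⌉₊ ≤ M ^ 60 + 1 ∧ (∀ k : ℤ, k < ⌈s / β⌉₊ → k * β < s) ∧
      ∀ k : ℤ, (⌈s / β⌉₊ : ℤ) ≤ k → k < ⌈s / β⌉₊ + (M : ℤ) ^ 57 →
        0 ≤ k * β - s ∧ k * β - s ≤ 4 / (M : ℝ) ^ 3 := by
  have hβ := h.β_pos
  have hM0 := h.M_pos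
  have hM6 := h.M_large
  have hM1 : (1 : ℝ) ≤ M := by linarith
  have h60 : (0 : ℝ) < (M : ℝ) ^ 60 := by positivity
  have hsβ : s / β ≤ (M : ℝ) ^ 60 := by
    rw [div_le_iff₀ hβ]
    have := h.β1
    linarith
  refine ⟨?_, fun k hk => ?_, fun k hk1 hk2 => ?_⟩
  · apply Nat.ceil_le.2
    push_cast
    linarith
  · rcases lt_or_ge k 0 with h0 | h0
    · have : (k : ℝ) < 0 := by exact_mod_cast h0
      have := mul_neg_of_neg_of_pos this hβ
      linarith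
    · obtain ⟨n, hn⟩ := Int.eq_ofNat_of_zero_le h0
      subst hn
      have h1 : n < ⌈s / β⌉₊ := by exact_mod_cast hk
      have h2 := Nat.lt_ceil.1 h1
      have h3 := (lt_div_iff₀ hβ).1 h2
      exact_mod_cast h3
  · have h1 : s / β ≤ k := by
      have := Nat.le_ceil (s / β)
      have h2 : ((⌈s / β⌉₊ : ℤ) : ℝ) ≤ k := by exact_mod_cast hk1
      push_cast at h2
      linarith
    have h2 : s ≤ k * β := (div_le_iff₀ hβ).1 h1
    have h3 : (k : ℝ) ≤ (s / β + 1) + (M : ℝ) ^ 57 := by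
      have h4 := (Nat.ceil_lt_add_one (div_nonneg hs hβ.le)).le
      have h5 : (k : ℝ) ≤ ⌈s / β⌉₊ + (M : ℝ) ^ 57 := by exact_mod_cast hk2.le
      linarith
    have h4 : k * β ≤ ((s / β + 1) + (M : ℝ) ^ 57) * β := mul_le_mul_of_nonneg_right h3 hβ.le
    have h5 : ((s / β + 1) + (M : ℝ) ^ 57) * β = s + (1 + (M : ℝ) ^ 57) * β := by
      field_simp
      ring
    have h6 : (1 + (M : ℝ) ^ 57) * β ≤ 4 / (M : ℝ) ^ 3 := by
      rw [le_div_iff₀ (by positivity)]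
      have h7 : (1 : ℝ) + (M : ℝ) ^ 57 ≤ 2 * (M : ℝ) ^ 57 := by
        have : (1 : ℝ) ≤ (M : ℝ) ^ 57 := one_le_pow₀ hM1
        linarith
      calc (1 + (M : ℝ) ^ 57) * β * (M : ℝ) ^ 3 ≤ (2 * (M : ℝ) ^ 57) * β * (M : ℝ) ^ 3 := by
            apply mul_le_mul_of_nonneg_right _ (by positivity)
            exact mul_le_mul_of_nonneg_right h7 hβ.le
        _ = 2 * (β * (M : ℝ) ^ 60) := by ring
        _ ≤ 4 := by linarith [h.β2]
    constructor <;> linarith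

/-- Expected displacement to the right up to time `M ^ 61`. -/
theorem right_bound (h : Sc a g g' θ β A B M) (T : ℕ) (hT : T ≤ M ^ 61) :
    E a T (fun k => max (k : ℝ) 0) 0 ≤ 3 * (M : ℝ) ^ 60 := by
  obtain ⟨s, hs0, hs1, hgs, hds⟩ := h.prof.exists_max θ
  obtain ⟨hy, -, hph⟩ := h.phase s hs0 hs1
  have hM0 := h.M_pos
  have hM6 := h.M_large
  have hM1 : (1 : ℝ) ≤ M := by linarith
  have hz := (h.zone ⌈s / β⌉₊ hy (fun k hk1 hk2 => by
    obtain ⟨h1, h2⟩ := hph k hk1.le hk2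
    have h3 := h.prof.taylor (θ + s) (k * β - s) h1
    rw [hds, show θ + s + (k * β - s) = θ + k * β by ring] at h3
    have h4 : (k * β - s) ^ 2 ≤ (4 / (M : ℝ) ^ 3) ^ 2 := pow_le_pow_left₀ h1 h2 2
    have h5 : (4 / (M : ℝ) ^ 3) ^ 2 = 16 / (M : ℝ) ^ 6 := by
      rw [div_pow, ← pow_mul]
      norm_num
    have h6 : (16 / (M : ℝ) ^ 6) / 2 ≤ 9 / (M : ℝ) ^ 6 := by
      rw [div_div, div_le_div_iff₀ (by positivity) (by positivity)]
      nlinarith [pow_pos hM0 6]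
    linarith) T hT).2
  have h1 : E a T (fun k => max (k : ℝ) 0) 0 ≤
      E a T (fun k => max ((k : ℝ) - ⌈s / β⌉₊) 0 + ⌈s / β⌉₊) 0 := by
    apply E_mono h.env
    intro k
    have h0 : (0 : ℝ) ≤ ⌈s / β⌉₊ := Nat.cast_nonneg _
    rcases le_total (k : ℝ) 0 with h2 | h2
    · rw [max_eq_right h2]
      have := le_max_right ((k : ℝ) - ⌈s / β⌉₊) 0
      linarith
    · rw [max_eq_left h2]
      have := le_max_left ((k : ℝ) - ⌈s / β⌉₊) 0
      linarith
  rw [E_add a T (fun k => max ((k : ℝ) - ⌈s / β⌉₊) 0) (fun _ => (⌈s / β⌉₊ : ℝ)), E_const] at h1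
  have h2 : (⌈s / β⌉₊ : ℝ) ≤ (M : ℝ) ^ 60 + 1 := by exact_mod_cast hy
  have h3 : (1 : ℝ) ≤ (M : ℝ) ^ 60 := one_le_pow₀ hM1
  linarith

theorem abs_bound (h : Sc a g g' θ β A B M) (T : ℕ) (hT : T ≤ M ^ 61) :
    E a T (fun k => |(k : ℝ)|) 0 ≤ 6 * (M : ℝ) ^ 60 := by
  have h1 := h.right_bound T hT
  have h2 := h.reflect.right_bound T hT
  have h3 := E_reflect a T (fun k => max (-(k : ℝ)) 0) 0
  rw [neg_zero] at h3
  push_cast at h3
  simp only [neg_neg] at h3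
  rw [← h3] at h2
  have h4 : E a T (fun k => |(k : ℝ)|) 0 = E a T (fun k => max (k : ℝ) 0 + max (-(k : ℝ)) 0) 0 := by
    congr 1
    funext k
    rcases le_total (k : ℝ) 0 with h5 | h5
    · rw [abs_of_nonpos h5, max_eq_right h5, max_eq_left (by linarith)]
      ring
    · rw [abs_of_nonneg h5, max_eq_left h5, max_eq_right (by linarith)]
      ring
  rw [h4, E_add a T (fun k => max (k : ℝ) 0) (fun k => max (-(k : ℝ)) 0)]
  linarith

theorem long_time (h : Sc a g g' θ β A B M) (T : ℕ) :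
    E a T (fun k => |(k : ℝ)|) 0 ≤ 6 * (M : ℝ) ^ 60 * (T / (M : ℝ) ^ 61 + 1) := by
  have hM0 := h.M_pos
  induction T using Nat.strong_induction_on with
  | _ T ih =>
    rcases le_or_gt T (M ^ 61) with h1 | h1
    · have h2 := h.abs_bound T h1
      have h3 : (0 : ℝ) ≤ 6 * (M : ℝ) ^ 60 * (T / (M : ℝ) ^ 61) := by positivity
      linarith
    · have hMn : 0 < M ^ 61 := Nat.pow_pos (by exact_mod_cast hM0)
      have h2 := ih (T - M ^ 61) (by omega)
      have e : T = (T - M ^ 61) + M ^ 61 := by omega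
      have h3 : E a T (fun k => |(k : ℝ)|) 0 =
          E a (T - M ^ 61) (fun j => E a (M ^ 61) (fun k => |(k : ℝ)|) j) 0 := by
        rw [← E_add_time, ← e]
      rw [h3]
      have h4 : E a (T - M ^ 61) (fun j => E a (M ^ 61) (fun k => |(k : ℝ)|) j) 0 ≤
          E a (T - M ^ 61) (fun j => |(j : ℝ)| + 6 * (M : ℝ) ^ 60) 0 := by
        apply E_mono h.env
        intro j
        have h5 := E_shift a (M ^ 61) (fun k => |(k : ℝ)|) j 0
        rw [zero_add] at h5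
        rw [h5]
        have h6 := (h.shift j).abs_bound (M ^ 61) le_rfl
        have h7 : E (fun i => a (i + j)) (M ^ 61) (fun i => |((i + j : ℤ) : ℝ)|) 0 ≤
            E (fun i => a (i + j)) (M ^ 61) (fun i => |(i : ℝ)| + |(j : ℝ)|) 0 := by
          apply E_mono (h.shift j).env
          intro i
          push_cast
          exact abs_add_le _ _
        rw [E_add _ _ (fun i => |(i : ℝ)|) (fun _ => |(j : ℝ)|), E_const] at h7
        linarith
      rw [E_add a (T - M ^ 61) (fun j => |(j : ℝ)|) (fun _ => 6 * (M : ℝ) ^ 60), E_const] at h4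
      have h8 : (((T - M ^ 61 : ℕ)) : ℝ) = T - (M : ℝ) ^ 61 := by
        rw [Nat.cast_sub h1.le]
        push_cast
        rfl
      rw [h8] at h2
      have h9 : ((T : ℝ) - (M : ℝ) ^ 61) / (M : ℝ) ^ 61 + 1 = T / (M : ℝ) ^ 61 := by
        field_simp
        ring
      rw [h9] at h2
      linarith

theorem Var_long (h : Sc a g g' θ β A B M) (T : ℕ) (hT : M ^ 61 ≤ T) :
    Var a T ≤ 12 * (T : ℝ) ^ 2 / M := by
  have hM0 := h.M_pos
  have hTR : (M : ℝ) ^ 61 ≤ T := by exact_mod_cast hT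
  have h1 := Var_le (a := a) T 0
  have h2 : E a T (fun k => ((k : ℝ) - 0) ^ 2) 0 ≤ E a T (fun k => (T : ℝ) * |(k : ℝ)|) 0 := by
    apply E_mono_local h.env
    intro k hk
    rw [sub_zero] at hk
    have : |(k : ℝ)| ≤ T := by exact_mod_cast hk
    rw [sub_zero, ← sq_abs, sq]
    exact mul_le_mul_of_nonneg_right this (abs_nonneg _)
  rw [E_mul] at h2
  have h3 := h.long_time T
  have h4 : 6 * (M : ℝ) ^ 60 * (T / (M : ℝ) ^ 61 + 1) ≤ 12 * T / M := by
    have e1 : (1 : ℝ) ≤ T / (M : ℝ) ^ 61 := by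
      rw [le_div_iff₀ (by positivity), one_mul]
      exact hTR
    calc 6 * (M : ℝ) ^ 60 * (T / (M : ℝ) ^ 61 + 1) ≤
          6 * (M : ℝ) ^ 60 * (T / (M : ℝ) ^ 61 + T / (M : ℝ) ^ 61) := by
          apply mul_le_mul_of_nonneg_left _ (by positivity)
          linarith
      _ = _ := by
        field_simp
        ring
  calc Var a T ≤ T * E a T (fun k => |(k : ℝ)|) 0 := h1.trans h2
    _ ≤ T * (12 * T / M) := mul_le_mul_of_nonneg_left (h3.trans h4) (Nat.cast_nonneg _)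
    _ = _ := by ring

end Sc

end Pool.Agent.E8helper72.LW
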