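import Mathlib

/-!
# Nearest neighbour chains on the integers: transition operator, law, elementary inequalities
-/

namespace Pool.Agent.E8helper72.LW

open Finset

/-- the transition operator of the chain with probability `a k` of a step from `k` to `k + 1` -/
def K (a : ℤ → ℝ) (F : ℤ → ℝ) : ℤ → ℝ := fun k => a k * F (k + 1) + (1 - a k) * F (k - 1)

/-- the expectation of `F (Z_t)` for the chain started at `k` -/
def E (a : ℤ → ℝ) (t : ℕ) (F : ℤ → ℝ) (k : ℤ) : ℝ := ((K a)^[t] F) k

theorem E_zero (a : ℤ → ℝ) (F : ℤ → ℝ) (k : ℤ) : E a 0 F k = F k := rfl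

theorem E_succ (a : ℤ → ℝ) (t : ℕ) (F : ℤ → ℝ) (k : ℤ) : E a (t + 1) F k = E a t (K a F) k := rfl

theorem E_succ' (a : ℤ → ℝ) (t : ℕ) (F : ℤ → ℝ) (k : ℤ) :
    E a (t + 1) F k = a k * E a t F (k + 1) + (1 - a k) * E a t F (k - 1) := by
  unfold E
  rw [Function.iterate_succ_apply']
  rfl

theorem E_add_time (a : ℤ → ℝ) (s t : ℕ) (F : ℤ → ℝ) (k : ℤ) :
    E a (s + t) F k = E a s (fun j => E a t F j) k := by
  unfold E
  rw [Function.iterate_add_apply]

/-- admissible environments -/
def Env (a : ℤ → ℝ) : Prop := ∀ k, 0 < a k ∧ a k < 1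

theorem E_mono_local {a : ℤ → ℝ} (ha : Env a) (t : ℕ) {F G : ℤ → ℝ} (k : ℤ)
    (h : ∀ j, |j - k| ≤ t → F j ≤ G j) : E a t F k ≤ E a t G k := by
  induction t generalizing k with
  | zero =>
    have := h k (by simp)
    simpa [E_zero] using this
  | succ t ih =>
    rw [E_succ', E_succ']
    have h1 := ih (k + 1) (fun j hj => h j (by
      rw [abs_le] at hj ⊢
      push_cast
      omega))
    have h2 := ih (k - 1) (fun j hj => h j (by
      rw [abs_le] at hj ⊢
      push_cast
      omega))
    obtain ⟨ha0, ha1⟩ := ha k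
    have h3 := mul_le_mul_of_nonneg_left h1 ha0.le
    have h4 := mul_le_mul_of_nonneg_left h2 (by linarith : (0 : ℝ) ≤ 1 - a k)
    linarith

theorem E_mono {a : ℤ → ℝ} (ha : Env a) (t : ℕ) {F G : ℤ → ℝ} (k : ℤ)
    (h : ∀ j, F j ≤ G j) : E a t F k ≤ E a t G k := E_mono_local ha t k fun j _ => h j

theorem E_add (a : ℤ → ℝ) (t : ℕ) (F G : ℤ → ℝ) (k : ℤ) :
    E a t (fun j => F j + G j) k = E a t F k + E a t G k := by
  induction t generalizing k with
  | zero => rfl
  | succ t ih => rw [E_succ', E_succ', E_succ', ih, ih]; ring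

theorem E_mul (a : ℤ → ℝ) (t : ℕ) (c : ℝ) (F : ℤ → ℝ) (k : ℤ) :
    E a t (fun j => c * F j) k = c * E a t F k := by
  induction t generalizing k with
  | zero => rfl
  | succ t ih => rw [E_succ', E_succ', ih, ih]; ring

theorem E_const (a : ℤ → ℝ) (t : ℕ) (c : ℝ) (k : ℤ) : E a t (fun _ => c) k = c := by
  induction t generalizing k with
  | zero => rfl
  | succ t ih => rw [E_succ', ih, ih]; ring

theorem E_nonneg {a : ℤ → ℝ} (ha : Env a) (t : ℕ) {F : ℤ → ℝ} (k : ℤ)
    (h : ∀ j, 0 ≤ F j) : 0 ≤ E a t F k := by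
  have := E_mono ha t (F := fun _ => 0) (G := F) k h
  rwa [E_const] at this

/-- time dependent supersolutions -/
theorem E_le_sum {a : ℤ → ℝ} (ha : Env a) (T : ℕ) (F : ℕ → ℤ → ℝ) (G : ℤ → ℝ) (k : ℤ)
    (h : ∀ t < T, ∀ j, |j - k| ≤ t → K a (F (t + 1)) j ≤ F t j + G j) :
    E a T (F T) k ≤ F 0 k + ∑ t ∈ range T, E a t G k := by
  induction T with
  | zero => simp [E_zero]
  | succ T ih =>
    have h1 := ih fun t ht => h t (by omega)
    rw [E_succ, sum_range_succ]
    have h2 := E_mono_local ha T (F := K a (F (T + 1))) (G := fun j => F T j + G j) k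
      (h T (by omega))
    rw [E_add] at h2
    linarith

theorem E_le_const {a : ℤ → ℝ} (ha : Env a) (T : ℕ) (F : ℕ → ℤ → ℝ) (c : ℝ) (k : ℤ)
    (h : ∀ t < T, ∀ j, |j - k| ≤ t → K a (F (t + 1)) j ≤ F t j + c) :
    E a T (F T) k ≤ F 0 k + T * c := by
  have := E_le_sum ha T F (fun _ => c) k h
  simpa [E_const] using this

/-- shift of the environment -/
theorem E_shift (a : ℤ → ℝ) (t : ℕ) (F : ℤ → ℝ) (m k : ℤ) :
    E a t F (k + m) = E (fun j => a (j + m)) t (fun j => F (j + m)) k := by
  induction t generalizing k with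
  | zero => rfl
  | succ t ih =>
    rw [E_succ', E_succ']
    have h1 := ih (k + 1)
    have h2 := ih (k - 1)
    rw [show k + 1 + m = k + m + 1 by ring] at h1
    rw [show k - 1 + m = k + m - 1 by ring] at h2
    rw [h1, h2]

/-- reflection of the environment -/
theorem E_reflect (a : ℤ → ℝ) (t : ℕ) (F : ℤ → ℝ) (k : ℤ) :
    E a t F (-k) = E (fun j => 1 - a (-j)) t (fun j => F (-j)) k := by
  induction t generalizing k with
  | zero => rfl
  | succ t ih =>
    rw [E_succ', E_succ']
    have h1 := ih (k + 1)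
    have h2 := ih (k - 1)
    rw [show -(k + 1) = -k - 1 by ring] at h1
    rw [show -(k - 1) = -k + 1 by ring] at h2
    rw [← h1, ← h2]
    ring

/-- The law of the chain at time `t`, started at `0`. -/
def law (a : ℤ → ℝ) : ℕ → ℤ → ℝ
  | 0 => fun k => if k = 0 then 1 else 0
  | t + 1 => fun k => a (k - 1) * law a t (k - 1) + (1 - a (k + 1)) * law a t (k + 1)

theorem law_support (a : ℤ → ℝ) (t : ℕ) (k : ℤ) (h : (t : ℤ) < |k|) : law a t k = 0 := by
  induction t generalizing k with
  | zero =>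
    have : k ≠ 0 := by
      rintro rfl
      simp at h
    simp [law, this]
  | succ t ih =>
    have h1 : (t : ℤ) < |k - 1| := by
      rcases abs_cases k with h2 | h2 <;> rcases abs_cases (k - 1) with h3 | h3 <;>
        push_cast at h <;> omega
    have h1' : (t : ℤ) < |k + 1| := by
      rcases abs_cases k with h2 | h2 <;> rcases abs_cases (k + 1) with h3 | h3 <;>
        push_cast at h <;> omega
    simp [law, ih _ h1, ih _ h1']

theorem law_summable (a : ℤ → ℝ) (t : ℕ) (F : ℤ → ℝ) : Summable fun k => F k * law a t k := by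
  apply summable_of_ne_finset_zero (s := Finset.Icc (-(t : ℤ)) t)
  intro k hk
  rw [law_support a t k, mul_zero]
  by_contra h
  apply hk
  rw [Finset.mem_Icc]
  have := abs_le.1 (not_lt.1 h)
  exact this

/-- The two descriptions of the chain agree. -/
theorem tsum_law (a : ℤ → ℝ) (t : ℕ) (F : ℤ → ℝ) : ∑' k, F k * law a t k = E a t F 0 := by
  induction t generalizing F with
  | zero =>
    rw [tsum_eq_single 0]
    · simp [law, E_zero]
    · intro k hk
      simp [law, hk]
  | succ t ih =>
    rw [E_succ, ← ih]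
    have e1 : ∀ k, F k * law a (t + 1) k =
        (F k * a (k - 1)) * law a t (k - 1) + (F k * (1 - a (k + 1))) * law a t (k + 1) := by
      intro k
      simp only [law]
      ring
    have e2 : ∀ k, K a F k * law a t k =
        (F (k + 1) * a k) * law a t k + (F (k - 1) * (1 - a k)) * law a t k := by
      intro k
      simp only [K]
      ring
    have s1 : Summable fun k => (F (k + 1) * a k) * law a t k :=
      law_summable a t fun k => F (k + 1) * a k
    have s2 : Summable fun k => (F (k - 1) * (1 - a k)) * law a t k :=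
      law_summable a t fun k => F (k - 1) * (1 - a k)
    have s1' : Summable fun k => (F k * a (k - 1)) * law a t (k - 1) := by
      have := (Equiv.subRight (1 : ℤ)).summable_iff.2 s1
      refine this.congr fun k => ?_
      simp [Function.comp]
    have s2' : Summable fun k => (F k * (1 - a (k + 1))) * law a t (k + 1) := by
      have := (Equiv.addRight (1 : ℤ)).summable_iff.2 s2
      refine this.congr fun k => ?_
      simp [Function.comp]
    rw [tsum_congr e1, tsum_congr e2, s1.tsum_add s2, s1'.tsum_add s2']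
    congr 1
    · rw [← (Equiv.subRight (1 : ℤ)).tsum_eq fun k => (F (k + 1) * a k) * law a t k]
      refine tsum_congr fun k => ?_
      simp
    · rw [← (Equiv.addRight (1 : ℤ)).tsum_eq fun k => (F (k - 1) * (1 - a k)) * law a t k]
      refine tsum_congr fun k => ?_
      simp

/-- the variance -/
noncomputable def Var (a : ℤ → ℝ) (t : ℕ) : ℝ :=
  ∑' k : ℤ, (k : ℝ) ^ 2 * law a t k - (∑' k : ℤ, (k : ℝ) * law a t k) ^ 2

theorem Var_eq (a : ℤ → ℝ) (t : ℕ) :
    Var a t = E a t (fun k => (k : ℝ) ^ 2) 0 - (E a t (fun k => (k : ℝ)) 0) ^ 2 := by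
  unfold Var
  rw [tsum_law a t fun k => (k : ℝ) ^ 2, tsum_law a t fun k => (k : ℝ)]

theorem Var_le {a : ℤ → ℝ} (t : ℕ) (c : ℝ) :
    Var a t ≤ E a t (fun k => ((k : ℝ) - c) ^ 2) 0 := by
  rw [Var_eq]
  have h : E a t (fun k => ((k : ℝ) - c) ^ 2) 0 =
      E a t (fun k => (k : ℝ) ^ 2) 0 - 2 * c * E a t (fun k => (k : ℝ)) 0 + c ^ 2 := by
    have e : (fun k : ℤ => ((k : ℝ) - c) ^ 2) =
        fun k : ℤ => ((k : ℝ) ^ 2 + (-(2 * c)) * (k : ℝ)) + c ^ 2 := by
      funext k
      ring
    rw [e, E_add a t (fun k : ℤ => (k : ℝ) ^ 2 + (-(2 * c)) * (k : ℝ)) (fun _ => c ^ 2), E_const,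
      E_add a t (fun k : ℤ => (k : ℝ) ^ 2) (fun k : ℤ => (-(2 * c)) * (k : ℝ)), E_mul]
    ring
  rw [h]
  nlinarith [sq_nonneg (E a t (fun k => (k : ℝ)) 0 - c)]

/-- Reversibility bound for the law. -/
theorem law_le {a : ℤ → ℝ} (ha : Env a) (w : ℤ → ℝ) (hw : ∀ k, 0 < w k)
    (hrev : ∀ k, w k * a k = w (k + 1) * (1 - a (k + 1))) (t : ℕ) (k : ℤ) :
    law a t k ≤ w k / w 0 := by
  induction t generalizing k with
  | zero =>
    simp only [law]
    split_ifs with h
    · rw [h, div_self (hw 0).ne']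
    · exact (div_pos (hw k) (hw 0)).le
  | succ t ih =>
    simp only [law]
    have h1 := mul_le_mul_of_nonneg_left (ih (k - 1)) (ha (k - 1)).1.le
    have h2 := mul_le_mul_of_nonneg_left (ih (k + 1))
      (by linarith [(ha (k + 1)).2] : (0 : ℝ) ≤ 1 - a (k + 1))
    have h3 := hrev (k - 1)
    have h4 := hrev k
    rw [sub_add_cancel] at h3
    have h5 : a (k - 1) * (w (k - 1) / w 0) + (1 - a (k + 1)) * (w (k + 1) / w 0) = w k / w 0 := by
      have : a (k - 1) * (w (k - 1) / w 0) + (1 - a (k + 1)) * (w (k + 1) / w 0) =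
          (w (k - 1) * a (k - 1) + w (k + 1) * (1 - a (k + 1))) / w 0 := by ring
      rw [this, h3, ← h4]
      ring
    linarith

theorem E_single {a : ℤ → ℝ} (t : ℕ) (j : ℤ) :
    E a t (fun k => if k = j then 1 else 0) 0 = law a t j := by
  rw [← tsum_law, tsum_eq_single j]
  · simp
  · intro k hk
    simp [hk]

/-- Probability to be strictly to the left of `j` at time `t`. -/
theorem E_left_le {a : ℤ → ℝ} (ha : Env a) (j : ℤ) (hj : j ≤ 0) (t : ℕ) (c : ℝ)
    (hc : ∀ s, law a s j ≤ c) :
    E a t (fun k => if k < j then 1 else 0) 0 ≤ t * c := by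
  have h := E_le_sum ha t (fun _ k => if k < j then (1 : ℝ) else 0) (fun k => if k = j then 1 else 0) 0
    (by
      intro s _ k _
      simp only [K]
      obtain ⟨h0, h1⟩ := ha k
      by_cases hk : k < j
      · rw [if_pos hk]
        have : (if k + 1 < j then (1 : ℝ) else 0) ≤ 1 := by split_ifs <;> norm_num
        have h2 : (if k - 1 < j then (1 : ℝ) else 0) ≤ 1 := by split_ifs <;> norm_num
        have h3 : (0 : ℝ) ≤ if k = j then 1 else 0 := by split_ifs <;> norm_num
        nlinarith
      · rw [if_neg hk]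
        have hk1 : ¬ k + 1 < j := by omega
        rw [if_neg hk1]
        by_cases hkj : k = j
        · rw [if_pos hkj]
          have h2 : (if k - 1 < j then (1 : ℝ) else 0) ≤ 1 := by split_ifs <;> norm_num
          nlinarith
        · have hk2 : ¬ k - 1 < j := by omega
          rw [if_neg hk2, if_neg hkj]
          linarith)
  have h0 : (if (0 : ℤ) < j then (1 : ℝ) else 0) = 0 := by rw [if_neg (by omega)]
  rw [h0, zero_add] at h
  refine h.trans ?_
  calc ∑ s ∈ range t, E a s (fun k => if k = j then 1 else 0) 0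
      ≤ ∑ s ∈ range t, c := sum_le_sum fun s _ => by rw [E_single]; exact hc s
    _ = t * c := by simp

/-- sums over integer intervals: every sequence of increments has a primitive -/
theorem exists_prim (u : ℤ → ℝ) : ∃ Φ : ℤ → ℝ, Φ 0 = 0 ∧ ∀ k, Φ (k + 1) = Φ k + u k := by
  refine ⟨fun k => ∑ j ∈ Finset.Ico 0 k, u j - ∑ j ∈ Finset.Ico k 0, u j, by simp, fun k => ?_⟩
  rcases le_or_gt 0 k with h | h
  · have e1 : Finset.Ico (k + 1) 0 = ∅ := Finset.Ico_eq_empty (by omega)
    have e2 : Finset.Ico k 0 = ∅ := Finset.Ico_eq_empty (by omega)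
    have e3 : Finset.Ico 0 (k + 1) = insert k (Finset.Ico 0 k) := by
      ext j
      simp only [Finset.mem_Ico, Finset.mem_insert]
      omega
    simp only [e1, e2, e3]
    rw [Finset.sum_insert (by simp)]
    simp
    ring
  · have e1 : Finset.Ico 0 (k + 1) = ∅ := Finset.Ico_eq_empty (by omega)
    have e2 : Finset.Ico 0 k = ∅ := Finset.Ico_eq_empty (by omega)
    have e3 : Finset.Ico k 0 = insert k (Finset.Ico (k + 1) 0) := by
      ext j
      simp only [Finset.mem_Ico, Finset.mem_insert]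
      omega
    simp only [e1, e2, e3]
    rw [Finset.sum_insert (by simp)]
    simp

end Pool.Agent.E8helper72.LW
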