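import Pool.Agent.E8helper72.LW.Walk

/-!
# Slow zones: a chain needs a long time to cross a zone with small outward drift
-/

namespace Pool.Agent.E8helper72.LW

open Finset

theorem prim_mono {lam Φ : ℤ → ℝ} (hΦ : ∀ k, Φ (k + 1) = Φ k + lam k) (hl : ∀ k, 0 ≤ lam k) :
    Monotone Φ := by
  apply monotone_int_of_le_succ
  intro k
  rw [hΦ k]
  linarith [hl k]

theorem prim_le {lam Φ : ℤ → ℝ} (hΦ : ∀ k, Φ (k + 1) = Φ k + lam k) (c : ℝ) (y : ℤ) (n : ℕ)
    (h : ∀ k, y ≤ k → k < y + n → lam k ≤ c) : Φ (y + n) ≤ Φ y + n * c := by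
  induction n with
  | zero => simp
  | succ n ih =>
    have h1 := ih fun k hk hk' => h k hk (by push_cast; omega)
    have h2 := h (y + n) (by omega) (by push_cast; omega)
    have h3 := hΦ (y + n)
    push_cast
    rw [← add_assoc, h3]
    linarith

theorem le_prim {lam Φ : ℤ → ℝ} (hΦ : ∀ k, Φ (k + 1) = Φ k + lam k) (c : ℝ) (y : ℤ) (n : ℕ)
    (h : ∀ k, y ≤ k → k < y + n → c ≤ lam k) : Φ y + n * c ≤ Φ (y + n) := by
  induction n with
  | zero => simp
  | succ n ih =>
    have h1 := ih fun k hk hk' => h k hk (by push_cast; omega)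
    have h2 := h (y + n) (by omega) (by push_cast; omega)
    have h3 := hΦ (y + n)
    push_cast
    rw [← add_assoc, h3]
    linarith

/-- The quadratic Lyapunov function of a zone. -/
theorem zone_aux {a : ℤ → ℝ} (ha : Env a) (v Ψ : ℤ → ℝ)
    (hΨ : ∀ k, 1 - a k = a k * Real.exp (v k + (Ψ (k + 1) - Ψ k)))
    (y : ℤ) (m : ℕ) (hm : 1 ≤ m) (w B : ℝ) (hw : 0 ≤ w)
    (hB : ∀ k, y ≤ k → k ≤ y + m → |Ψ (k + 1) - Ψ y| ≤ B)
    (hv : ∀ k, y < k → k < y + m → -v k ≤ w) :
    ∃ Q : ℤ → ℝ, (∀ k ≤ y, Q k = 0) ∧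
      (∀ k, y ≤ k → k ≤ y + m → ((k : ℝ) - y) ^ 2 ≤ Real.exp (2 * B) * Q k) ∧
      (∀ k, y + m ≤ k → (m : ℝ) ^ 2 ≤ Real.exp (2 * B) * Q k) ∧ (∀ k, 0 ≤ Q k) ∧
      ∀ k, K a Q k ≤ Q k + (2 * m * Real.exp (2 * B) * w + Real.exp (2 * B)) := by
  set lam : ℤ → ℝ := fun k => Real.exp (Ψ (k + 1) - Ψ y) with hlam
  obtain ⟨Φ, -, hΦ⟩ := exists_prim lam
  have hlpos : ∀ k, 0 < lam k := fun k => Real.exp_pos _
  have hmono : Monotone Φ := prim_mono hΦ fun k => (hlpos k).le
  have hB0 : 0 ≤ B := (abs_nonneg _).trans (hB y le_rfl (by omega))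
  have hle : ∀ k, y ≤ k → k ≤ y + m → lam k ≤ Real.exp B := fun k h1 h2 =>
    Real.exp_le_exp.2 (abs_le.1 (hB k h1 h2)).2
  have hge : ∀ k, y ≤ k → k ≤ y + m → Real.exp (-B) ≤ lam k := fun k h1 h2 =>
    Real.exp_le_exp.2 (abs_le.1 (hB k h1 h2)).1
  set X : ℝ := Φ (y + m) - Φ y with hX
  have hXle : X ≤ m * Real.exp B := by
    have := prim_le hΦ (Real.exp B) y m fun k h1 h2 => hle k h1 h2.le
    linarith
  have hX0 : 0 ≤ X := by
    have := hmono (show y ≤ y + m by omega)
    linarith
  have hlow : ∀ k, y ≤ k → k ≤ y + m → ((k : ℝ) - y) * Real.exp (-B) ≤ Φ k - Φ y := by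
    intro k h1 h2
    obtain ⟨n, hn⟩ := Int.eq_ofNat_of_zero_le (show 0 ≤ k - y by omega)
    have hk : k = y + n := by omega
    have := le_prim hΦ (Real.exp (-B)) y n fun j h3 h4 => hge j h3 (by omega)
    subst hk
    push_cast
    linarith
  set χ : ℤ → ℝ := fun k => Φ (max y (min k (y + m))) - Φ y with hχ
  have hexp : Real.exp (-B) * Real.exp B = 1 := by rw [← Real.exp_add]; simp
  have hexp2 : Real.exp (2 * B) = Real.exp B * Real.exp B := by
    rw [← Real.exp_add]
    ring_nf
  have hEB : 0 < Real.exp B := Real.exp_pos _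
  have hχ1 : ∀ k ≤ y, χ k = 0 := by
    intro k hk
    have : max y (min k (y + m)) = y := by omega
    simp [hχ, this]
  have hχ2 : ∀ k, y ≤ k → k ≤ y + m → χ k = Φ k - Φ y := by
    intro k h1 h2
    have : max y (min k (y + m)) = k := by omega
    simp [hχ, this]
  have hχ3 : ∀ k, y + m ≤ k → χ k = X := by
    intro k h1
    have : max y (min k (y + m)) = y + m := by omega
    simp [hχ, this, hX]
  have hχ0 : ∀ k, 0 ≤ χ k := by
    intro k
    have := hmono (show y ≤ max y (min k (y + m)) from le_max_left _ _)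
    simp only [hχ]
    linarith
  have hχX : ∀ k, χ k ≤ X := by
    intro k
    have := hmono (show max y (min k (y + m)) ≤ y + m by omega)
    simp only [hχ, hX]
    linarith
  have hc0 : 0 ≤ 2 * m * Real.exp (2 * B) * w + Real.exp (2 * B) := by positivity
  refine ⟨fun k => χ k ^ 2, fun k hk => by simp [hχ1 k hk], fun k h1 h2 => ?_, fun k h1 => ?_,
    fun k => sq_nonneg _, fun k => ?_⟩
  · have h3 := hlow k h1 h2
    have h4 : ((k : ℝ) - y) ≤ Real.exp B * χ k := by
      rw [hχ2 k h1 h2]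
      calc ((k : ℝ) - y) = Real.exp B * (((k : ℝ) - y) * Real.exp (-B)) := by
            linear_combination (-(((k : ℝ) - y))) * hexp
        _ ≤ _ := mul_le_mul_of_nonneg_left h3 hEB.le
    have h5 : (0 : ℝ) ≤ (k : ℝ) - y := by
      have : (y : ℝ) ≤ k := by exact_mod_cast h1
      linarith
    calc ((k : ℝ) - y) ^ 2 ≤ (Real.exp B * χ k) ^ 2 := pow_le_pow_left₀ h5 h4 2
      _ = Real.exp (2 * B) * χ k ^ 2 := by rw [hexp2]; ring
  · have h3 := hlow (y + m) (by omega) le_rfl
    have h4 : (m : ℝ) ≤ Real.exp B * χ k := by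
      rw [hχ3 k h1]
      push_cast at h3
      calc (m : ℝ) = Real.exp B * (((y : ℝ) + m - y) * Real.exp (-B)) := by
            linear_combination (-(m : ℝ)) * hexp
        _ ≤ _ := mul_le_mul_of_nonneg_left (by rw [hX]; exact h3) hEB.le
    calc (m : ℝ) ^ 2 ≤ (Real.exp B * χ k) ^ 2 := pow_le_pow_left₀ (Nat.cast_nonneg _) h4 2
      _ = Real.exp (2 * B) * χ k ^ 2 := by rw [hexp2]; ring
  · obtain ⟨ha0, ha1⟩ := ha k
    simp only [K]
    rcases lt_trichotomy k y with hk | hk | hk
    · rw [hχ1 (k + 1) (by omega), hχ1 (k - 1) (by omega), hχ1 k (by omega)]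
      nlinarith
    · have h1 : χ (k + 1) ≤ Real.exp B := by
        rw [hχ2 (k + 1) (by omega) (by omega), hΦ k, hk]
        have := hle y le_rfl (by omega)
        linarith
      rw [hχ1 (k - 1) (by omega), hχ1 k (by omega)]
      have h2 := hχ0 (k + 1)
      have h3 : χ (k + 1) ^ 2 ≤ Real.exp (2 * B) := by
        rw [hexp2]
        nlinarith
      have h4 : a k * χ (k + 1) ^ 2 ≤ 1 * Real.exp (2 * B) :=
        mul_le_mul ha1.le h3 (sq_nonneg _) zero_le_one
      have h5 : 0 ≤ 2 * m * Real.exp (2 * B) * w := by positivity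
      nlinarith
    · rcases lt_or_ge k (y + m) with hk2 | hk2
      · -- inside the zone
        have e1 : χ (k + 1) = χ k + lam k := by
          rw [hχ2 (k + 1) (by omega) (by omega), hχ2 k (by omega) (by omega), hΦ k]
          ring
        have e2 : χ (k - 1) = χ k - lam (k - 1) := by
          rw [hχ2 (k - 1) (by omega) (by omega), hχ2 k (by omega) (by omega)]
          have := hΦ (k - 1)
          rw [sub_add_cancel] at this
          rw [this]
          ring
        -- drift
        have e3 : (1 - a k) * lam (k - 1) = a k * lam k * Real.exp (v k) := by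
          rw [hΨ k]
          simp only [hlam]
          rw [sub_add_cancel, mul_assoc, mul_assoc, ← Real.exp_add, ← Real.exp_add]
          congr 2
          ring
        have e4 : 1 - Real.exp (v k) ≤ w := by
          have := Real.add_one_le_exp (v k)
          linarith [hv k hk hk2]
        have h1 := hle k (by omega) (by omega)
        have h2 := hle (k - 1) (by omega) (by omega)
        have h3 : a k * lam k - (1 - a k) * lam (k - 1) ≤ Real.exp B * w := by
          rw [e3]
          have : a k * lam k - a k * lam k * Real.exp (v k) =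
              (a k * lam k) * (1 - Real.exp (v k)) := by ring
          rw [this]
          have h4 : a k * lam k ≤ Real.exp B := by
            have := mul_le_mul ha1.le h1 (hlpos k).le zero_le_one
            linarith
          have h5 : 0 ≤ a k * lam k := mul_nonneg ha0.le (hlpos k).le
          calc (a k * lam k) * (1 - Real.exp (v k)) ≤ (a k * lam k) * w :=
                mul_le_mul_of_nonneg_left e4 h5
            _ ≤ _ := mul_le_mul_of_nonneg_right h4 hw
        rw [e1, e2]
        have h6 := hχ0 k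
        have h7 := (hχX k).trans hXle
        have h8 : a k * lam k ^ 2 + (1 - a k) * lam (k - 1) ^ 2 ≤ Real.exp (2 * B) := by
          have q1 : lam k ^ 2 ≤ Real.exp (2 * B) := by
            rw [hexp2]
            nlinarith [hlpos k]
          have q2 : lam (k - 1) ^ 2 ≤ Real.exp (2 * B) := by
            rw [hexp2]
            nlinarith [hlpos (k - 1)]
          nlinarith
        have h9 : χ k * (a k * lam k - (1 - a k) * lam (k - 1)) ≤
            m * Real.exp B * (Real.exp B * w) := by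
          calc χ k * (a k * lam k - (1 - a k) * lam (k - 1)) ≤ χ k * (Real.exp B * w) :=
                mul_le_mul_of_nonneg_left h3 h6
            _ ≤ _ := mul_le_mul_of_nonneg_right h7 (by positivity)
        have h10 : 2 * m * Real.exp (2 * B) * w = 2 * (m * Real.exp B * (Real.exp B * w)) := by
          rw [hexp2]
          ring
        rw [h10]
        nlinarith
      · have e1 : χ (k + 1) = X := hχ3 (k + 1) (by omega)
        have e2 : χ k = X := hχ3 k hk2
        have e3 := hχX (k - 1)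
        have e4 := hχ0 (k - 1)
        rw [e1, e2]
        have : χ (k - 1) ^ 2 ≤ X ^ 2 := pow_le_pow_left₀ e4 e3 2
        nlinarith

theorem zone {a : ℤ → ℝ} (ha : Env a) (v Ψ : ℤ → ℝ)
    (hΨ : ∀ k, 1 - a k = a k * Real.exp (v k + (Ψ (k + 1) - Ψ k)))
    (y : ℤ) (hy : 0 ≤ y) (m T : ℕ) (hm : 1 ≤ m) (hmT : m ≤ T) (w B : ℝ) (hw : 0 ≤ w)
    (hB : ∀ k, y ≤ k → k ≤ y + m → |Ψ (k + 1) - Ψ y| ≤ B)
    (hv : ∀ k, y < k → k < y + m → -v k ≤ w) :
    E a T (fun k => (max ((k : ℝ) - y) 0) ^ 2) 0 ≤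
        Real.exp (4 * B) * T ^ 2 * (2 * w * (T / m) + T / m ^ 2) ∧
      E a T (fun k => max ((k : ℝ) - y) 0) 0 ≤
        m + Real.exp (4 * B) * T ^ 2 * (2 * w / m + 1 / m ^ 2) := by
  obtain ⟨Q, hQ1, hQ2, hQ3, hQ0, hQ⟩ := zone_aux ha v Ψ hΨ y m hm w B hw hB hv
  set c : ℝ := 2 * m * Real.exp (2 * B) * w + Real.exp (2 * B) with hc
  have h1 : E a T Q 0 ≤ T * c := by
    have := E_le_const ha T (fun _ => Q) c 0 fun t _ j _ => hQ j
    rw [hQ1 0 hy, zero_add] at this
    exact this
  have hm0 : (0 : ℝ) < m := by exact_mod_cast hm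
  have hT0 : (0 : ℝ) < T := by
    have : 0 < T := by omega
    exact_mod_cast this
  have hmT' : (m : ℝ) ≤ T := by exact_mod_cast hmT
  have hexp4 : Real.exp (4 * B) = Real.exp (2 * B) * Real.exp (2 * B) := by
    rw [← Real.exp_add]
    ring_nf
  have hE : 0 < Real.exp (2 * B) := Real.exp_pos _
  have hy' : (0 : ℝ) ≤ y := by exact_mod_cast hy
  constructor
  · have h2 : E a T (fun k => (max ((k : ℝ) - y) 0) ^ 2) 0 ≤
        E a T (fun k => (Real.exp (2 * B) * (T / m) ^ 2) * Q k) 0 := by
      apply E_mono_local ha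
      intro k hk
      rw [sub_zero, abs_le] at hk
      have hkT : (k : ℝ) ≤ T := by exact_mod_cast hk.2
      have hr : (1 : ℝ) ≤ (T / m) ^ 2 := by
        have : (1 : ℝ) ≤ T / m := by rwa [le_div_iff₀ hm0, one_mul]
        nlinarith
      rcases le_or_gt k y with h3 | h3
      · have : (k : ℝ) - y ≤ 0 := by
          have : (k : ℝ) ≤ y := by exact_mod_cast h3
          linarith
        rw [max_eq_right this, hQ1 k h3]
        simp
      · have h4 : (0 : ℝ) ≤ (k : ℝ) - y := by
          have : (y : ℝ) < k := by exact_mod_cast h3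
          linarith
        rw [max_eq_left h4]
        rcases le_or_gt k (y + m) with h5 | h5
        · have h6 := hQ2 k h3.le h5
          have h7 : 0 ≤ Real.exp (2 * B) * Q k := mul_nonneg hE.le (hQ0 k)
          calc ((k : ℝ) - y) ^ 2 ≤ 1 * (Real.exp (2 * B) * Q k) := by rw [one_mul]; exact h6
            _ ≤ (T / m) ^ 2 * (Real.exp (2 * B) * Q k) := mul_le_mul_of_nonneg_right hr h7
            _ = _ := by ring
        · have h6 := hQ3 k h5.le
          have h7 : ((k : ℝ) - y) ^ 2 ≤ (T : ℝ) ^ 2 := pow_le_pow_left₀ h4 (by linarith) 2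
          calc ((k : ℝ) - y) ^ 2 ≤ (T : ℝ) ^ 2 := h7
            _ = (T / m) ^ 2 * (m : ℝ) ^ 2 := by field_simp
            _ ≤ (T / m) ^ 2 * (Real.exp (2 * B) * Q k) :=
              mul_le_mul_of_nonneg_left h6 (sq_nonneg _)
            _ = _ := by ring
    rw [E_mul] at h2
    refine h2.trans ?_
    calc Real.exp (2 * B) * (T / m) ^ 2 * E a T Q 0 ≤ Real.exp (2 * B) * (T / m) ^ 2 * (T * c) :=
          mul_le_mul_of_nonneg_left h1 (by positivity)
      _ = Real.exp (4 * B) * T ^ 2 * (2 * w * (T / m) + T / m ^ 2) := by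
        rw [hc, hexp4]
        field_simp
  · have h2 : E a T (fun k => max ((k : ℝ) - y) 0) 0 ≤
        E a T (fun k => (Real.exp (2 * B) * (T / m ^ 2)) * Q k + m) 0 := by
      apply E_mono_local ha
      intro k hk
      rw [sub_zero, abs_le] at hk
      have hkT : (k : ℝ) ≤ T := by exact_mod_cast hk.2
      have h0 : 0 ≤ Real.exp (2 * B) * (T / m ^ 2) * Q k := mul_nonneg (by positivity) (hQ0 k)
      rcases le_or_gt k (y + m) with h5 | h5
      · have h6 : (k : ℝ) - y ≤ m := by
          have : (k : ℝ) ≤ y + m := by exact_mod_cast h5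
          linarith
        have : max ((k : ℝ) - y) 0 ≤ m := max_le h6 hm0.le
        linarith
      · have h6 := hQ3 k h5.le
        have h7 : max ((k : ℝ) - y) 0 ≤ T := max_le (by linarith) hT0.le
        have h8 : (T : ℝ) ≤ Real.exp (2 * B) * (T / m ^ 2) * Q k := by
          calc (T : ℝ) = T / m ^ 2 * m ^ 2 := by field_simp
            _ ≤ T / m ^ 2 * (Real.exp (2 * B) * Q k) := mul_le_mul_of_nonneg_left h6 (by positivity)
            _ = _ := by ring
        linarith
    rw [E_add a T (fun k => (Real.exp (2 * B) * (T / m ^ 2)) * Q k) (fun _ => (m : ℝ)), E_mul,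
      E_const] at h2
    refine h2.trans ?_
    have h3 : Real.exp (2 * B) * (T / m ^ 2) * E a T Q 0 ≤
        Real.exp (2 * B) * (T / m ^ 2) * (T * c) := mul_le_mul_of_nonneg_left h1 (by positivity)
    have h4 : Real.exp (2 * B) * (T / m ^ 2) * (T * c) =
        Real.exp (4 * B) * T ^ 2 * (2 * w / m + 1 / m ^ 2) := by
      rw [hc, hexp4]
      field_simp
    linarith

end Pool.Agent.E8helper72.LW
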